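import Mathlib

set_option autoImplicit false

/-! OC2 piece F: fourth moments of the Gaussian weight. -/

namespace Pool.Agent.H91.OD

open MeasureTheory Set Real
open scoped ENNReal RealInnerProductSpace

/-- the mass of the Gaussian weight -/
noncomputable def Z (m : ℕ) : ℝ := ∫ x : EuclideanSpace ℝ (Fin m), exp (-‖x‖ ^ 2 / 2)

private theorem f_int (k : ℕ) : Integrable fun t : ℝ => t ^ k * exp (-t ^ 2 / 2) := by
  have h := integrable_rpow_mul_exp_neg_mul_sq (b := 1 / 2) (by norm_num) (s := (k : ℝ))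
    (by linarith [Nat.cast_nonneg (α := ℝ) k])
  refine h.congr (Filter.Eventually.of_forall fun t => ?_)
  show t ^ (k : ℝ) * exp (-(1 / 2) * t ^ 2) = t ^ k * exp (-t ^ 2 / 2)
  rw [Real.rpow_natCast]
  congr 2
  ring

private theorem f_step (k : ℕ) : ∫ t : ℝ, t ^ (k + 2) * exp (-t ^ 2 / 2)
    = ((k : ℝ) + 1) * ∫ t : ℝ, t ^ k * exp (-t ^ 2 / 2) := by
  have hd : ∀ t : ℝ, HasDerivAt (fun t : ℝ => t ^ (k + 1) * exp (-t ^ 2 / 2))
      (((k : ℝ) + 1) * (t ^ k * exp (-t ^ 2 / 2)) - t ^ (k + 2) * exp (-t ^ 2 / 2)) t := by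
    intro t
    have h1 : HasDerivAt (fun t : ℝ => t ^ (k + 1)) (((k : ℝ) + 1) * t ^ k) t := by
      have h := hasDerivAt_pow (k + 1) t
      rw [Nat.add_sub_cancel] at h
      push_cast at h
      exact h
    have h2 : HasDerivAt (fun t : ℝ => -t ^ 2 / 2) (-t) t := by
      have h := ((hasDerivAt_pow 2 t).neg).div_const 2
      refine h.congr_deriv ?_
      norm_num
      ring
    refine (h1.mul h2.exp).congr_deriv ?_
    ring
  have h := integral_eq_zero_of_hasDerivAt_of_integrable hd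
    (((f_int k).const_mul _).sub (f_int (k + 2))) (f_int (k + 1))
  rw [integral_sub ((f_int k).const_mul _) (f_int (k + 2)), integral_const_mul] at h
  linarith

private theorem f_one : ∫ t : ℝ, t * exp (-t ^ 2 / 2) = 0 := by
  have h1 := integral_neg_eq_self (fun t : ℝ => t * exp (-t ^ 2 / 2)) volume
  have h2 : (fun t : ℝ => -t * exp (-(-t) ^ 2 / 2)) = fun t : ℝ => -(t * exp (-t ^ 2 / 2)) := by
    funext t
    rw [neg_sq, neg_mul]
  rw [h2, integral_neg] at h1
  linarith

private theorem f_zero_pos : 0 < ∫ t : ℝ, exp (-t ^ 2 / 2) := by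
  have h : ∫ t : ℝ, exp (-t ^ 2 / 2) = √(π / (1 / 2)) := by
    rw [← integral_gaussian]
    congr 1
    funext t
    congr 1
    ring
  rw [h]
  positivity

/-- the factor at `i`. -/
private noncomputable def fac {m : ℕ} (a b c d i : Fin m) (t : ℝ) : ℝ :=
  (if i = a then t else 1) * (if i = b then t else 1) * (if i = c then t else 1)
    * (if i = d then t else 1) * exp (-t ^ 2 / 2)

private theorem exp_prod {m : ℕ} (x : EuclideanSpace ℝ (Fin m)) :
    exp (-‖x‖ ^ 2 / 2) = ∏ i, exp (-(x i) ^ 2 / 2) := by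
  rw [EuclideanSpace.norm_sq_eq, ← Real.exp_sum]
  congr 1
  rw [← Finset.sum_neg_distrib, Finset.sum_div]
  refine Finset.sum_congr rfl fun i _ => ?_
  rw [Real.norm_eq_abs, sq_abs]

private theorem fac_prod {m : ℕ} (a b c d : Fin m) (x : EuclideanSpace ℝ (Fin m)) :
    x a * x b * x c * x d * exp (-‖x‖ ^ 2 / 2) = ∏ i, fac a b c d i (x i) := by
  have h : ∀ a : Fin m, ∏ i, (if i = a then x i else 1) = x a := by
    intro a
    rw [Finset.prod_ite_eq' Finset.univ a (fun i => x i), if_pos (Finset.mem_univ a)]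
  rw [exp_prod]
  simp only [fac, Finset.prod_mul_distrib, h]

private theorem fac_int {m : ℕ} (a b c d i : Fin m) : Integrable (fac a b c d i) := by
  have h : ∃ k : ℕ, fac a b c d i = fun t => t ^ k * exp (-t ^ 2 / 2) := by
    have h1 : ∀ (p : Prop) [Decidable p], ∃ k : ℕ, ∀ t : ℝ, (if p then t else 1) = t ^ k := by
      intro p _
      by_cases hp : p
      · exact ⟨1, fun t => by rw [if_pos hp, pow_one]⟩
      · exact ⟨0, fun t => by rw [if_neg hp, pow_zero]⟩
    obtain ⟨k1, e1⟩ := h1 (i = a)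
    obtain ⟨k2, e2⟩ := h1 (i = b)
    obtain ⟨k3, e3⟩ := h1 (i = c)
    obtain ⟨k4, e4⟩ := h1 (i = d)
    refine ⟨k1 + k2 + k3 + k4, ?_⟩
    funext t
    rw [fac, e1, e2, e3, e4, pow_add, pow_add, pow_add]
  obtain ⟨k, hk⟩ := h
  rw [hk]
  exact f_int k

private theorem integral_prod_eq {m : ℕ} (f : Fin m → ℝ → ℝ) :
    ∫ x : EuclideanSpace ℝ (Fin m), ∏ i, f i (x i) = ∏ i, ∫ t, f i t := by
  rw [← integral_fintype_prod_volume_eq_prod (fun i => f i)]
  exact (EuclideanSpace.volume_preserving_symm_measurableEquiv_toLp (Fin m)).integral_comp'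
    (fun y : Fin m → ℝ => ∏ i, f i (y i))

private theorem Z_eq (m : ℕ) : Z m = ∏ _i : Fin m, ∫ t : ℝ, exp (-t ^ 2 / 2) := by
  rw [Z, ← integral_prod_eq (fun _ t => exp (-t ^ 2 / 2))]
  congr 1
  funext x
  exact exp_prod x

/-- Piece F0 -/
theorem Z_pos (m : ℕ) : 0 < Z m := by
  rw [Z_eq]
  exact Finset.prod_pos fun _ _ => f_zero_pos

/-- Piece F1 -/
theorem gauss_integrable (m : ℕ) (a b c d : Fin m) :
    Integrable fun x : EuclideanSpace ℝ (Fin m) =>
      x a * x b * x c * x d * exp (-‖x‖ ^ 2 / 2) := by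
  have h1 : Integrable (fun y : Fin m → ℝ => ∏ i, fac a b c d i (y i)) :=
    Integrable.fintype_prod (fun i => fac_int a b c d i)
  have h2 := (EuclideanSpace.volume_preserving_symm_measurableEquiv_toLp
    (Fin m)).integrable_comp_of_integrable h1
  refine h2.congr (Filter.Eventually.of_forall fun x => ?_)
  exact (fac_prod a b c d x).symm

private theorem g_eq (m : ℕ) (a b c d : Fin m) :
    ∫ x : EuclideanSpace ℝ (Fin m), x a * x b * x c * x d * exp (-‖x‖ ^ 2 / 2)
      = ∏ i, ∫ t, fac a b c d i t := by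
  rw [← integral_prod_eq]
  congr 1
  funext x
  exact fac_prod a b c d x

/-- one index is different from the others. -/
private theorem g_single (m : ℕ) (a b c d : Fin m) (h : (a ≠ b ∧ a ≠ c ∧ a ≠ d) ∨ (b ≠ a ∧ b ≠ c ∧ b ≠ d)
    ∨ (c ≠ a ∧ c ≠ b ∧ c ≠ d) ∨ (d ≠ a ∧ d ≠ b ∧ d ≠ c)) :
    ∫ x : EuclideanSpace ℝ (Fin m), x a * x b * x c * x d * exp (-‖x‖ ^ 2 / 2) = 0 := by
  rw [g_eq]
  rcases h with ⟨h1, h2, h3⟩ | ⟨h1, h2, h3⟩ | ⟨h1, h2, h3⟩ | ⟨h1, h2, h3⟩
  · refine Finset.prod_eq_zero (Finset.mem_univ a) ?_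
    rw [← f_one]
    congr 1
    funext t
    rw [fac, if_pos rfl, if_neg h1, if_neg h2, if_neg h3]
    ring
  · refine Finset.prod_eq_zero (Finset.mem_univ b) ?_
    rw [← f_one]
    congr 1
    funext t
    rw [fac, if_pos rfl, if_neg h1, if_neg h2, if_neg h3]
    ring
  · refine Finset.prod_eq_zero (Finset.mem_univ c) ?_
    rw [← f_one]
    congr 1
    funext t
    rw [fac, if_pos rfl, if_neg h1, if_neg h2, if_neg h3]
    ring
  · refine Finset.prod_eq_zero (Finset.mem_univ d) ?_
    rw [← f_one]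
    congr 1
    funext t
    rw [fac, if_pos rfl, if_neg h1, if_neg h2, if_neg h3]
    ring

private theorem f_two : ∫ t : ℝ, t * t * exp (-t ^ 2 / 2) = ∫ t : ℝ, exp (-t ^ 2 / 2) := by
  have h := f_step 0
  simp only [Nat.cast_zero, zero_add, pow_zero, one_mul] at h
  rw [← h]
  congr 1
  funext t
  ring

private theorem f_four : ∫ t : ℝ, t * t * t * t * exp (-t ^ 2 / 2) = 3 * ∫ t : ℝ, exp (-t ^ 2 / 2) := by
  have h := f_step 2
  have h0 := f_two
  have h1 : ∫ t : ℝ, t ^ 2 * exp (-t ^ 2 / 2) = ∫ t : ℝ, exp (-t ^ 2 / 2) := by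
    rw [← h0]
    congr 1
    funext t
    ring
  rw [h1] at h
  have h2 : ∫ t : ℝ, t * t * t * t * exp (-t ^ 2 / 2) = ∫ t : ℝ, t ^ (2 + 2) * exp (-t ^ 2 / 2) := by
    congr 1
    funext t
    ring
  rw [h2, h]
  norm_num

private theorem g_two (m : ℕ) (a c : Fin m) (h : a ≠ c) :
    ∫ x : EuclideanSpace ℝ (Fin m), x a * x a * x c * x c * exp (-‖x‖ ^ 2 / 2) = Z m := by
  rw [g_eq, Z_eq]
  refine Finset.prod_congr rfl fun i _ => ?_
  by_cases h1 : i = a
  · have h2 : i ≠ c := fun h3 => h (h1.symm.trans h3)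
    rw [← f_two]
    congr 1
    funext t
    rw [fac, if_pos h1, if_neg h2]
    ring
  · by_cases h2 : i = c
    · rw [← f_two]
      congr 1
      funext t
      rw [fac, if_neg h1, if_pos h2]
      ring
    · congr 1
      funext t
      rw [fac, if_neg h1, if_neg h2]
      ring

private theorem g_four (m : ℕ) (a : Fin m) :
    ∫ x : EuclideanSpace ℝ (Fin m), x a * x a * x a * x a * exp (-‖x‖ ^ 2 / 2) = Z m * 3 := by
  rw [g_eq, Z_eq]
  have h : ∀ i : Fin m, ∫ t, fac a a a a i t
      = (∫ t : ℝ, exp (-t ^ 2 / 2)) * (if i = a then 3 else 1) := by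
    intro i
    by_cases h1 : i = a
    · rw [if_pos h1, mul_comm, ← f_four]
      congr 1
      funext t
      rw [fac, if_pos h1]
    · rw [if_neg h1, mul_one]
      congr 1
      funext t
      rw [fac, if_neg h1]
      ring
  rw [Finset.prod_congr rfl fun i _ => h i, Finset.prod_mul_distrib,
    Finset.prod_ite_eq' Finset.univ a (fun _ => (3 : ℝ)), if_pos (Finset.mem_univ a)]

/-- Piece F2 -/
theorem gauss4 (m : ℕ) (a b c d : Fin m) :
    ∫ x : EuclideanSpace ℝ (Fin m), x a * x b * x c * x d * exp (-‖x‖ ^ 2 / 2)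
      = Z m * ((if a = b then 1 else 0) * (if c = d then 1 else 0)
        + (if a = c then 1 else 0) * (if b = d then 1 else 0)
        + (if a = d then 1 else 0) * (if b = c then 1 else 0)) := by
  by_cases hab : a = b
  · subst hab
    by_cases hcd : c = d
    · subst hcd
      by_cases hac : a = c
      · subst hac
        rw [g_four]
        norm_num
      · rw [g_two m a c hac, if_pos rfl, if_pos rfl, if_neg hac]
        ring
    · by_cases hac : a = c
      · subst hac
        rw [g_single m a a a d (Or.inr (Or.inr (Or.inr ⟨fun h => hcd h.symm, fun h => hcd h.symm,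
          fun h => hcd h.symm⟩))), if_neg hcd]
        ring
      · rw [g_single m a a c d (Or.inr (Or.inr (Or.inl ⟨fun h => hac h.symm, fun h => hac h.symm,
          hcd⟩))), if_neg hcd, if_neg hac]
        ring
  · by_cases hac : a = c
    · subst hac
      by_cases hbd : b = d
      · subst hbd
        have h1 : ∫ x : EuclideanSpace ℝ (Fin m), x a * x b * x a * x b * exp (-‖x‖ ^ 2 / 2)
            = ∫ x : EuclideanSpace ℝ (Fin m), x a * x a * x b * x b * exp (-‖x‖ ^ 2 / 2) := by
          congr 1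
          funext x
          ring
        rw [h1, g_two m a b hab, if_neg hab, if_pos rfl, if_pos rfl]
        ring
      · rw [g_single m a b a d (Or.inr (Or.inl ⟨fun h => hab h.symm, fun h => hab h.symm, hbd⟩)),
          if_neg hab, if_neg hbd, if_neg (fun h : b = a => hab h.symm)]
        ring
    · by_cases had : a = d
      · subst had
        by_cases hbc : b = c
        · subst hbc
          have h1 : ∫ x : EuclideanSpace ℝ (Fin m), x a * x b * x b * x a * exp (-‖x‖ ^ 2 / 2)
              = ∫ x : EuclideanSpace ℝ (Fin m), x a * x a * x b * x b * exp (-‖x‖ ^ 2 / 2) := by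
            congr 1
            funext x
            ring
          rw [h1, g_two m a b hab, if_neg hab, if_pos rfl, if_pos rfl]
          ring
        · rw [g_single m a b c a (Or.inr (Or.inl ⟨fun h => hab h.symm, hbc, fun h => hab h.symm⟩)),
            if_neg hab, if_neg hac, if_neg hbc]
          ring
      · rw [g_single m a b c d (Or.inl ⟨hab, hac, had⟩), if_neg hab, if_neg hac, if_neg had]
        ring

end Pool.Agent.H91.OD
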