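import Pool.Agent.H91.OD.F

set_option autoImplicit false

/-! OC2 piece M: Gaussian mean of a product of two quadratic forms. Imports piece F
(store file h91_OD_F.lean of helper56) as module Pool.Agent.H91.OD.F. Author: helper10. -/

namespace Pool.Agent.H91.OD

open MeasureTheory Set Real
open scoped ENNReal RealInnerProductSpace BigOperators

private theorem m_key (m : ℕ) (A N : Fin m → Fin m → ℝ) :
    (fun x : EuclideanSpace ℝ (Fin m) =>
      (∑ a, ∑ b, x a * x b * A a b) * (∑ c, ∑ d, x c * x d * N c d) * exp (-‖x‖ ^ 2 / 2))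
    = fun x : EuclideanSpace ℝ (Fin m) => ∑ a, ∑ b, ∑ c, ∑ d,
        (A a b * N c d) * (x a * x b * x c * x d * exp (-‖x‖ ^ 2 / 2)) := by
  funext x
  rw [Finset.sum_mul, Finset.sum_mul]
  refine Finset.sum_congr rfl fun a _ => ?_
  rw [Finset.sum_mul, Finset.sum_mul]
  refine Finset.sum_congr rfl fun b _ => ?_
  rw [Finset.mul_sum, Finset.sum_mul]
  refine Finset.sum_congr rfl fun c _ => ?_
  rw [Finset.mul_sum, Finset.sum_mul]
  refine Finset.sum_congr rfl fun d _ => ?_
  ring

private theorem m_i4 (m : ℕ) (A N : Fin m → Fin m → ℝ) (a b c : Fin m) :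
    Integrable fun x : EuclideanSpace ℝ (Fin m) => ∑ d,
      (A a b * N c d) * (x a * x b * x c * x d * exp (-‖x‖ ^ 2 / 2)) :=
  integrable_finsetSum _ fun d _ => (gauss_integrable m a b c d).const_mul _

private theorem m_i3 (m : ℕ) (A N : Fin m → Fin m → ℝ) (a b : Fin m) :
    Integrable fun x : EuclideanSpace ℝ (Fin m) => ∑ c, ∑ d,
      (A a b * N c d) * (x a * x b * x c * x d * exp (-‖x‖ ^ 2 / 2)) :=
  integrable_finsetSum _ fun c _ => m_i4 m A N a b c

private theorem m_i2 (m : ℕ) (A N : Fin m → Fin m → ℝ) (a : Fin m) :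
    Integrable fun x : EuclideanSpace ℝ (Fin m) => ∑ b, ∑ c, ∑ d,
      (A a b * N c d) * (x a * x b * x c * x d * exp (-‖x‖ ^ 2 / 2)) :=
  integrable_finsetSum _ fun b _ => m_i3 m A N a b

private theorem m_alg (m : ℕ) (A N : Fin m → Fin m → ℝ) (z : ℝ) :
    ∑ a, ∑ b, ∑ c, ∑ d, (A a b * N c d) * (z * ((if a = b then 1 else 0) * (if c = d then 1 else 0)
        + (if a = c then 1 else 0) * (if b = d then 1 else 0)
        + (if a = d then 1 else 0) * (if b = c then 1 else 0)))
      = z * ((∑ a, A a a) * (∑ c, N c c) + ∑ a, ∑ b, A a b * (N a b + N b a)) := by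
  have h : ∀ a b : Fin m, ∑ c, ∑ d, (A a b * N c d) * (z * ((if a = b then 1 else 0)
        * (if c = d then 1 else 0)
        + (if a = c then 1 else 0) * (if b = d then 1 else 0)
        + (if a = d then 1 else 0) * (if b = c then 1 else 0)))
      = z * ((if a = b then A a b * ∑ c, N c c else 0) + A a b * (N a b + N b a)) := by
    intro a b
    have h1 : ∀ c d : Fin m, (A a b * N c d) * (z * ((if a = b then 1 else 0)
        * (if c = d then 1 else 0)
        + (if a = c then 1 else 0) * (if b = d then 1 else 0)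
        + (if a = d then 1 else 0) * (if b = c then 1 else 0)))
      = (z * A a b * (if a = b then 1 else 0)) * (if c = d then N c d else 0)
        + (z * A a b) * (if a = c then (if b = d then N c d else 0) else 0)
        + (z * A a b) * (if b = c then (if a = d then N c d else 0) else 0) := by
      intro c d
      split_ifs <;> ring
    simp only [h1, Finset.sum_add_distrib, ← Finset.mul_sum, Finset.sum_ite_eq,
      Finset.mem_univ, if_true]
    have h2 : ∀ (x : Fin m) (g : Fin m → Fin m → ℝ) (y : Fin m),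
        ∑ c, ∑ d, (if x = c then (if y = d then g c d else 0) else 0) = g x y := by
      intro x g y
      rw [Finset.sum_eq_single x]
      · rw [Finset.sum_eq_single y]
        · simp
        · intro d _ hd
          simp [hd.symm]
        · simp
      · intro c _ hc
        simp [hc.symm]
      · simp
    rw [h2 a N b, h2 b N a]
    split_ifs <;> ring
  simp only [h, ← Finset.mul_sum, Finset.sum_add_distrib, Finset.sum_ite_eq, Finset.mem_univ,
    if_true, Finset.sum_mul]

/-- Piece M (uses F) -/
theorem gauss_mul (m : ℕ) (A N : Fin m → Fin m → ℝ) :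
    (Integrable fun x : EuclideanSpace ℝ (Fin m) =>
      (∑ a, ∑ b, x a * x b * A a b) * (∑ c, ∑ d, x c * x d * N c d) * exp (-‖x‖ ^ 2 / 2)) ∧
    ∫ x : EuclideanSpace ℝ (Fin m),
      (∑ a, ∑ b, x a * x b * A a b) * (∑ c, ∑ d, x c * x d * N c d) * exp (-‖x‖ ^ 2 / 2)
      = Z m * ((∑ a, A a a) * (∑ c, N c c) + ∑ a, ∑ b, A a b * (N a b + N b a)) := by
  rw [m_key]
  refine ⟨integrable_finsetSum _ fun a _ => m_i2 m A N a, ?_⟩
  rw [integral_finsetSum _ fun a _ => m_i2 m A N a, ← m_alg]
  refine Finset.sum_congr rfl fun a _ => ?_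
  rw [integral_finsetSum _ fun b _ => m_i3 m A N a b]
  refine Finset.sum_congr rfl fun b _ => ?_
  rw [integral_finsetSum _ fun c _ => m_i4 m A N a b c]
  refine Finset.sum_congr rfl fun c _ => ?_
  rw [integral_finsetSum _ fun d _ => (gauss_integrable m a b c d).const_mul _]
  refine Finset.sum_congr rfl fun d _ => ?_
  rw [integral_const_mul, gauss4]

end Pool.Agent.H91.OD
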