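import Mathlib

set_option autoImplicit false

/-! Piece E of project OC2: approximation of a function with positive semidefinite values. -/

namespace Pool.Agent.H91.OD

open MeasureTheory Set Real
open scoped ENNReal RealInnerProductSpace

open scoped MatrixOrder in
private theorem E_sum {m : ℕ} {M : Matrix (Fin m) (Fin m) ℝ} (hM : M.PosSemidef) :
    ∃ A : Matrix (Fin m) (Fin m) ℝ, ∀ S : Matrix (Fin m) (Fin m) ℝ,
      ∑ i, ∑ j, M i j * S i j = ∑ k, ∑ i, ∑ j, A k i * A k j * S i j := by
  obtain ⟨A, hA⟩ := CStarAlgebra.nonneg_iff_eq_star_mul_self.mp hM.nonneg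
  rw [Matrix.star_eq_conjTranspose] at hA
  refine ⟨A, fun S => ?_⟩
  rw [Finset.sum_comm]
  conv_rhs => rw [Finset.sum_comm]
  rw [Finset.sum_comm]
  refine Finset.sum_congr rfl fun i _ => ?_
  conv_rhs => rw [Finset.sum_comm]
  refine Finset.sum_congr rfl fun j _ => ?_
  rw [hA, Matrix.mul_apply, Finset.sum_mul]
  refine Finset.sum_congr rfl fun k _ => ?_
  simp [Matrix.conjTranspose_apply]

/-- Piece E -/
theorem psd_approx {V : Type*} [NormedAddCommGroup V] [InnerProductSpace ℝ V]
    [FiniteDimensional ℝ V] [MeasurableSpace V] [BorelSpace V] (m : ℕ)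
    (Ω : Type*) [MeasurableSpace Ω] (μ : Measure Ω)
    (Q : V → Matrix (Fin m) (Fin m) ℝ) (hQm : ∀ i j, Measurable fun Y => Q Y i j)
    (hQ : ∀ Y, (Q Y).PosSemidef) (hQb : ∃ C : ℝ, ∀ Y i j, |Q Y i j| ≤ C)
    (hom : ∀ (c : ℝ) (Y : V), 0 < c → Q (c • Y) = Q Y)
    (Y : Ω → V) (hY : Measurable Y) (S : Ω → Matrix (Fin m) (Fin m) ℝ)
    (hS : ∀ i j, Integrable (fun x => S x i j) μ)
    (H : ∀ (z : Fin m → ℝ) (B : Set V), MeasurableSet B → (∀ (c : ℝ) (v : V), 0 < c →
      (c • v ∈ B ↔ v ∈ B)) →
      0 ≤ ∫ x, B.indicator 1 (Y x) * (∑ i, ∑ j, z i * z j * S x i j) ∂μ) :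
    0 ≤ ∫ x, ∑ i, ∑ j, Q (Y x) i j * S x i j ∂μ := by
  classical
  obtain ⟨C, hC⟩ := hQb
  set P : Set (Fin m × Fin m → ℝ) := {e | (Matrix.of fun i j => e (i, j)).PosSemidef} with hP
  have h0 : (0 : Fin m × Fin m → ℝ) ∈ P := by
    have h : (Matrix.of fun i j => (0 : Fin m × Fin m → ℝ) (i, j)) = (0 : Matrix (Fin m) (Fin m) ℝ) := by
      ext i j
      rfl
    show (Matrix.of fun i j => (0 : Fin m × Fin m → ℝ) (i, j)).PosSemidef
    rw [h]
    exact Matrix.PosSemidef.zero
  let q : V → (Fin m × Fin m → ℝ) := fun v p => Q v p.1 p.2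
  have hq : Measurable q := measurable_pi_iff.2 fun p => hQm p.1 p.2
  have hqP : ∀ v, q v ∈ P := fun v => hQ v
  let qn : ℕ → SimpleFunc V (Fin m × Fin m → ℝ) := fun n => SimpleFunc.approxOn q hq P 0 h0 n
  have hqnP : ∀ n v, qn n v ∈ P := fun n v => SimpleFunc.approxOn_mem hq h0 n v
  have hlim : ∀ v, Filter.Tendsto (fun n => qn n v) Filter.atTop (nhds (q v)) := fun v =>
    SimpleFunc.tendsto_approxOn hq h0 (subset_closure (hqP v))
  have hbd : ∀ n v p, |qn n v p| ≤ 2 * max C 0 := by
    intro n v p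
    have h1 : edist (qn n v) (q v) ≤ edist 0 (q v) := SimpleFunc.edist_approxOn_le hq h0 v n
    rw [edist_dist, edist_dist, ENNReal.ofReal_le_ofReal_iff dist_nonneg] at h1
    have h2 : dist 0 (q v) ≤ max C 0 := by
      rw [dist_zero_left]
      exact (pi_norm_le_iff_of_nonneg (le_max_right _ _)).2 fun r => (hC v r.1 r.2).trans (le_max_left _ _)
    have h3 : |qn n v p - q v p| ≤ max C 0 := by
      have h4 := dist_le_pi_dist (qn n v) (q v) p
      rw [Real.dist_eq] at h4
      exact h4.trans (h1.trans h2)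
    have h5 : |q v p| ≤ max C 0 := (hC v p.1 p.2).trans (le_max_left _ _)
    have h6 := abs_add_le (qn n v p - q v p) (q v p)
    rw [sub_add_cancel] at h6
    linarith
  have hcone : ∀ n (c : ℝ) v, 0 < c → qn n (c • v) = qn n v := by
    intro n c v hc
    have h1 : q (c • v) = q v := by
      funext p
      show Q (c • v) p.1 p.2 = Q v p.1 p.2
      rw [hom c v hc]
    show SimpleFunc.nearestPt _ n (q (c • v)) = SimpleFunc.nearestPt _ n (q v)
    rw [h1]
  have hnon : ∀ n, 0 ≤ ∫ x, ∑ i, ∑ j, qn n (Y x) (i, j) * S x i j ∂μ := by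
    intro n
    have h1 : ∀ x, ∑ i, ∑ j, qn n (Y x) (i, j) * S x i j =
        ∑ e ∈ (qn n).range, (qn n ⁻¹' {e}).indicator (1 : V → ℝ) (Y x) * ∑ i, ∑ j, e (i, j) * S x i j := by
      intro x
      rw [Finset.sum_eq_single (qn n (Y x))]
      · rw [Set.indicator_of_mem (by simp)]
        simp
      · intro e _ he
        rw [Set.indicator_of_notMem, zero_mul]
        intro h
        exact he h.symm
      · intro h
        exact absurd (SimpleFunc.mem_range_self _ _) h
    have hint : ∀ (e : Fin m × Fin m → ℝ), Integrable (fun x => ∑ i, ∑ j, e (i, j) * S x i j) μ := by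
      intro e
      exact integrable_finsetSum _ fun i _ => integrable_finsetSum _ fun j _ => (hS i j).const_mul _
    have hind : ∀ (B : Set V) (_ : MeasurableSet B) (f : Ω → ℝ), Integrable f μ →
        Integrable (fun x => B.indicator (1 : V → ℝ) (Y x) * f x) μ := by
      intro B hB f hf
      have h2 : (fun x => B.indicator (1 : V → ℝ) (Y x) * f x) = (Y ⁻¹' B).indicator f := by
        funext x
        by_cases hx : Y x ∈ B
        · rw [Set.indicator_of_mem hx, Set.indicator_of_mem (show x ∈ Y ⁻¹' B from hx)]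
          simp
        · rw [Set.indicator_of_notMem hx, Set.indicator_of_notMem (show x ∉ Y ⁻¹' B from hx), zero_mul]
      rw [h2]
      exact hf.indicator (hY hB)
    have hm : ∀ e, MeasurableSet (qn n ⁻¹' {e}) := fun e => (qn n).measurableSet_fiber e
    calc (0 : ℝ) ≤ ∑ e ∈ (qn n).range, ∫ x, (qn n ⁻¹' {e}).indicator (1 : V → ℝ) (Y x) * ∑ i, ∑ j, e (i, j) * S x i j ∂μ := by
          refine Finset.sum_nonneg fun e he => ?_
          obtain ⟨v, hv⟩ := SimpleFunc.mem_range.1 he
          have heP : e ∈ P := by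
            rw [← hv]
            exact hqnP n v
          obtain ⟨A, hA⟩ := E_sum heP
          have h3 : (fun x => (qn n ⁻¹' {e}).indicator (1 : V → ℝ) (Y x) * ∑ i, ∑ j, e (i, j) * S x i j) =
              fun x => ∑ k, (qn n ⁻¹' {e}).indicator (1 : V → ℝ) (Y x) * ∑ i, ∑ j, A k i * A k j * S x i j := by
            funext x
            rw [← Finset.mul_sum]
            congr 1
            exact hA (S x)
          rw [h3, integral_finsetSum]
          · refine Finset.sum_nonneg fun k _ => ?_
            refine H (A k) _ (hm e) fun c v hc => ?_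
            show qn n (c • v) = e ↔ qn n v = e
            rw [hcone n c v hc]
          · intro k _
            refine hind _ (hm e) _ ?_
            exact integrable_finsetSum _ fun i _ => integrable_finsetSum _ fun j _ => (hS i j).const_mul _
      _ = ∫ x, ∑ e ∈ (qn n).range, (qn n ⁻¹' {e}).indicator (1 : V → ℝ) (Y x) * ∑ i, ∑ j, e (i, j) * S x i j ∂μ := by
          rw [integral_finsetSum]
          intro e _
          exact hind _ (hm e) _ (hint e)
      _ = ∫ x, ∑ i, ∑ j, qn n (Y x) (i, j) * S x i j ∂μ := by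
          refine integral_congr_ae (Filter.Eventually.of_forall fun x => ?_)
          exact (h1 x).symm
  have htend : Filter.Tendsto (fun n => ∫ x, ∑ i, ∑ j, qn n (Y x) (i, j) * S x i j ∂μ) Filter.atTop
      (nhds (∫ x, ∑ i, ∑ j, Q (Y x) i j * S x i j ∂μ)) := by
    refine tendsto_integral_of_dominated_convergence (fun x => ∑ i, ∑ j, 2 * max C 0 * |S x i j|) ?_ ?_ ?_ ?_
    · intro n
      refine Finset.aestronglyMeasurable_fun_sum _ fun i _ => Finset.aestronglyMeasurable_fun_sum _ fun j _ => ?_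
      refine AEStronglyMeasurable.mul ?_ (hS i j).aestronglyMeasurable
      have h1 : Measurable fun x => qn n (Y x) (i, j) := (measurable_pi_apply (i, j)).comp ((qn n).measurable.comp hY)
      exact h1.aestronglyMeasurable
    · exact integrable_finsetSum _ fun i _ => integrable_finsetSum _ fun j _ => (hS i j).abs.const_mul _
    · intro n
      refine Filter.Eventually.of_forall fun x => ?_
      rw [Real.norm_eq_abs]
      refine (Finset.abs_sum_le_sum_abs _ _).trans (Finset.sum_le_sum fun i _ => ?_)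
      refine (Finset.abs_sum_le_sum_abs _ _).trans (Finset.sum_le_sum fun j _ => ?_)
      rw [abs_mul]
      exact mul_le_mul_of_nonneg_right (hbd n (Y x) (i, j)) (abs_nonneg _)
    · refine Filter.Eventually.of_forall fun x => ?_
      refine tendsto_finsetSum _ fun i _ => tendsto_finsetSum _ fun j _ => ?_
      refine Filter.Tendsto.mul_const _ ?_
      exact (tendsto_pi_nhds.1 (hlim (Y x))) (i, j)
  exact ge_of_tendsto' htend hnon

end Pool.Agent.H91.OD
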