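import Pool.Agent.H91.OD.Int

set_option autoImplicit false

/-! The three-form inequality in components: conclusion. -/

namespace Pool.Agent.H91.OD

open Pool.Agent.H61.YP Pool.Agent.H8.RG Pool.Agent.H91.OC
open MeasureTheory Set Real
open scoped ENNReal RealInnerProductSpace BigOperators

variable {m : ℕ} {t : Fin m → Fin m → Fin m → ℝ}

/-- the inequality in real form, for every vector -/
lemma all_case (hm : Even m) (hm3 : 3 ≤ m) (h₁ : ∀ i j k, t i j k = -t j i k)
    (h₂ : ∀ i j k, t i j k = -t i k j) (z : Fin m → ℝ) (B : Set (E m))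
    (hB : MeasurableSet B) (cone : ∀ (c : ℝ) (v : E m), 0 < c → (c • v ∈ B ↔ v ∈ B)) :
    0 ≤ ∫ p : E m × E m, B.indicator 1 (Bt t p.1 p.2) * (∑ j, ∑ k, z j * z k
      * (S0 t p.1 p.2 j k * exp (-(‖p.1‖ ^ 2 + ‖p.2‖ ^ 2) / 2))) ∂(volume.prod volume) := by
  by_cases hz : (WithLp.toLp 2 z : E m) = 0
  · have hz' : ∀ j, z j = 0 := fun j => congrArg (fun u : E m => u j) hz
    have : ∀ p : E m × E m, B.indicator 1 (Bt t p.1 p.2) * (∑ j, ∑ k, z j * z k
      * (S0 t p.1 p.2 j k * exp (-(‖p.1‖ ^ 2 + ‖p.2‖ ^ 2) / 2))) = 0 := by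
      intro p
      simp [hz']
    simp only [this, integral_zero, le_refl]
  set c : ℝ := ‖(WithLp.toLp 2 z : E m)‖ with hc
  have hc0 : 0 < c := norm_pos_iff.mpr hz
  set u : E m := c⁻¹ • WithLp.toLp 2 z with hu
  have hu1 : ‖u‖ = 1 := by
    rw [hu, norm_smul, norm_inv, norm_norm, ← hc, inv_mul_cancel₀ hc0.ne']
  have hzu : ∀ j, z j = c * u j := by
    intro j
    rw [hu]
    simp only [PiLp.smul_apply, smul_eq_mul]
    rw [← mul_assoc, mul_inv_cancel₀ hc0.ne', one_mul]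
  have h := unit_case hm hm3 h₁ h₂ u hu1 B hB cone
  have e1 : ∀ p : E m × E m, B.indicator 1 (Bt t p.1 p.2) * (∑ j, ∑ k, z j * z k
      * (S0 t p.1 p.2 j k * exp (-(‖p.1‖ ^ 2 + ‖p.2‖ ^ 2) / 2)))
      = c ^ 2 * (B.indicator 1 (Bt t p.1 p.2) * K₂ m (Bt t) u p.1 p.2
        - B.indicator 1 (Bt t p.1 p.2) * K₁ m (Bt t) u p.1 p.2) := by
    intro p
    rw [← mul_sub, ← S0_sum p.1 p.2 u]
    have : ∀ j k, z j * z k * (S0 t p.1 p.2 j k * exp (-(‖p.1‖ ^ 2 + ‖p.2‖ ^ 2) / 2))
        = c ^ 2 * exp (-(‖p.1‖ ^ 2 + ‖p.2‖ ^ 2) / 2) * (u j * u k * S0 t p.1 p.2 j k) := by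
      intro j k
      rw [hzu j, hzu k]
      ring
    simp_rw [this, ← Finset.mul_sum]
    ring
  have hS : MeasurableSet {p : E m × E m | Bt t p.1 p.2 ∈ B} := (contB (t := t)).measurable hB
  have hint : ∀ K : E m → E m → ℝ,
      Integrable (fun p : E m × E m => K p.1 p.2) (volume.prod volume) →
      Integrable (fun p : E m × E m => B.indicator 1 (Bt t p.1 p.2) * K p.1 p.2)
        (volume.prod volume) := by
    intro K hK
    have e : (fun p : E m × E m => B.indicator 1 (Bt t p.1 p.2) * K p.1 p.2)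
        = {p : E m × E m | Bt t p.1 p.2 ∈ B}.indicator (fun p => K p.1 p.2) := by
      funext p
      by_cases h : Bt t p.1 p.2 ∈ B
      · rw [indicator_of_mem h, indicator_of_mem (by exact h)]; simp
      · rw [indicator_of_notMem h, indicator_of_notMem (by exact h)]; simp
    rw [e]
    exact hK.indicator hS
  simp_rw [e1]
  rw [integral_const_mul, integral_sub (hint _ (int_K₂ u)) (hint _ (int_K₁ u))]
  have : 0 ≤ c ^ 2 := sq_nonneg c
  exact mul_nonneg this (by linarith)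

section
variable (w : Fin m → Fin m → Fin m → Fin m → ℝ)

/-- the psd matrix of a vector -/
noncomputable def qq (Y : E m) (j k : Fin m) : ℝ := ∑ i, ∑ l, Y i * Y l * w i j k l

noncomputable def Qn (Y : E m) : Matrix (Fin m) (Fin m) ℝ :=
  Matrix.of fun j k => qq w Y j k / ‖Y‖ ^ 2

variable {w}

lemma Qn_psd (h : IsCurv w)
    (hpos : ∀ x v : Fin m → ℝ,
      0 ≤ ∑ j, ∑ k, v j * v k * (∑ i, ∑ l, x i * x l * w i j k l)) (Y : E m) :
    (Qn w Y).PosSemidef := by
  constructor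
  · ext j k
    rw [Matrix.conjTranspose_apply]
    simp only [Qn, Matrix.of_apply, star_trivial]
    congr 1
    unfold qq
    rw [Finset.sum_comm]
    refine Finset.sum_congr rfl fun i _ => Finset.sum_congr rfl fun l _ => ?_
    rw [h.flip l k j i]; ring
  · intro x
    rw [Finsupp.sum_fintype _ _ (fun i => by simp)]
    have e0 : ∀ i, (x.sum fun j xj => star (x i) * Qn w Y i j * xj)
        = ∑ j, star (x i) * Qn w Y i j * x j :=
      fun i => Finsupp.sum_fintype _ _ (fun j => by simp)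
    rw [Finset.sum_congr rfl fun i _ => e0 i]
    have e : ∑ i, ∑ j, star (x i) * Qn w Y i j * x j
        = (∑ j, ∑ k, x j * x k * (∑ i, ∑ l, Y i * Y l * w i j k l)) / ‖Y‖ ^ 2 := by
      rw [Finset.sum_div]
      refine Finset.sum_congr rfl fun j _ => ?_
      rw [Finset.sum_div]
      refine Finset.sum_congr rfl fun k _ => ?_
      simp only [Qn, Matrix.of_apply, star_trivial, qq]
      ring
    rw [e]
    exact div_nonneg (hpos Y x) (sq_nonneg _)

lemma Qn_bound : ∃ C : ℝ, ∀ (Y : E m) (j k : Fin m), |Qn w Y j k| ≤ C := by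
  refine ⟨∑ i, ∑ j, ∑ k, ∑ l, |w i j k l|, fun Y j k => ?_⟩
  simp only [Qn, Matrix.of_apply]
  by_cases hY : Y = 0
  · subst hY
    simp only [norm_zero, ne_eq, OfNat.ofNat_ne_zero, not_false_eq_true, zero_pow, div_zero,
      abs_zero]
    exact Finset.sum_nonneg fun i _ => Finset.sum_nonneg fun j _ => Finset.sum_nonneg fun k _ =>
      Finset.sum_nonneg fun l _ => abs_nonneg _
  have hn : 0 < ‖Y‖ ^ 2 := by positivity
  rw [abs_div, abs_of_pos hn, div_le_iff₀ hn]
  unfold qq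
  have hc : ∀ i, |Y i| ≤ ‖Y‖ := fun i => by
    have := PiLp.norm_apply_le Y i
    simpa using this
  calc |∑ i, ∑ l, Y i * Y l * w i j k l| ≤ ∑ i, ∑ l, |Y i * Y l * w i j k l| :=
        (Finset.abs_sum_le_sum_abs _ _).trans (Finset.sum_le_sum fun i _ =>
          Finset.abs_sum_le_sum_abs _ _)
    _ ≤ ∑ i, ∑ l, |w i j k l| * ‖Y‖ ^ 2 := by
        refine Finset.sum_le_sum fun i _ => Finset.sum_le_sum fun l _ => ?_
        rw [abs_mul, abs_mul, mul_comm]
        refine mul_le_mul_of_nonneg_left ?_ (abs_nonneg _)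
        rw [sq]
        exact mul_le_mul (hc i) (hc l) (abs_nonneg _) (norm_nonneg _)
    _ = (∑ i, ∑ l, |w i j k l|) * ‖Y‖ ^ 2 := by
        simp_rw [Finset.sum_mul]
    _ ≤ _ := by
        refine mul_le_mul_of_nonneg_right ?_ (sq_nonneg _)
        refine Finset.sum_le_sum fun i _ => ?_
        calc ∑ l, |w i j k l| ≤ ∑ k, ∑ l, |w i j k l| :=
              Finset.single_le_sum (f := fun k => ∑ l, |w i j k l|)
                (fun k _ => Finset.sum_nonneg fun l _ => abs_nonneg _) (Finset.mem_univ k)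
          _ ≤ ∑ j, ∑ k, ∑ l, |w i j k l| :=
              Finset.single_le_sum (f := fun j => ∑ k, ∑ l, |w i j k l|)
                (fun j _ => Finset.sum_nonneg fun k _ => Finset.sum_nonneg fun l _ =>
                  abs_nonneg _) (Finset.mem_univ j)

lemma Qn_meas (j k : Fin m) : Measurable fun Y : E m => Qn w Y j k := by
  simp only [Qn, Matrix.of_apply, qq]
  refine Measurable.div ?_ (by fun_prop)
  have : Continuous fun Y : E m => ∑ i, ∑ l, Y i * Y l * w i j k l := by fun_prop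
  exact this.measurable

lemma qq_smul (c : ℝ) (Y : E m) (j k : Fin m) : qq w (c • Y) j k = c ^ 2 * qq w Y j k := by
  unfold qq
  simp_rw [Finset.mul_sum]
  refine Finset.sum_congr rfl fun i _ => Finset.sum_congr rfl fun l _ => ?_
  simp only [PiLp.smul_apply, smul_eq_mul]
  ring

lemma Qn_hom (c : ℝ) (Y : E m) (hc : 0 < c) : Qn w (c • Y) = Qn w Y := by
  ext j k
  simp only [Qn, Matrix.of_apply]
  rw [qq_smul, norm_smul, mul_pow, Real.norm_eq_abs, sq_abs,
    mul_div_mul_left _ _ (pow_ne_zero 2 hc.ne')]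

lemma Qn_mul (Y : E m) (j k : Fin m) : Qn w Y j k * ‖Y‖ ^ 2 = qq w Y j k := by
  simp only [Qn, Matrix.of_apply]
  by_cases hY : Y = 0
  · subst hY
    simp [qq]
  · rw [div_mul_cancel₀ _ (by positivity)]

lemma qq_self (h : IsCurv w) (Y : E m) : ∑ j, ∑ k, Y j * Y k * qq w Y j k = 0 := by
  unfold qq
  have e : ∑ j, ∑ k, Y j * Y k * (∑ i, ∑ l, Y i * Y l * w i j k l)
      = -∑ j, ∑ k, Y j * Y k * (∑ i, ∑ l, Y i * Y l * w i j k l) := by
    have r : ∀ f : Fin m → Fin m → Fin m → Fin m → ℝ,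
        ∑ j, ∑ k, Y j * Y k * (∑ i, ∑ l, Y i * Y l * f i j k l)
        = ∑ i, ∑ j, ∑ k, ∑ l, Y i * Y j * Y k * Y l * f i j k l := by
      intro f
      have : ∀ j, ∑ k, Y j * Y k * (∑ i, ∑ l, Y i * Y l * f i j k l)
          = ∑ i, ∑ k, ∑ l, Y i * Y j * Y k * Y l * f i j k l := by
        intro j
        simp_rw [Finset.mul_sum]
        rw [Finset.sum_comm]
        refine Finset.sum_congr rfl fun i _ => Finset.sum_congr rfl fun k _ =>
          Finset.sum_congr rfl fun l _ => ?_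
        ring
      simp_rw [this]
      rw [Finset.sum_comm]
    rw [r w]
    conv_lhs => rw [Finset.sum_comm]
    simp_rw [← Finset.sum_neg_distrib]
    refine Finset.sum_congr rfl fun i _ => Finset.sum_congr rfl fun j _ =>
      Finset.sum_congr rfl fun k _ => Finset.sum_congr rfl fun l _ => ?_
    rw [h.anti j i k l]
    ring
  linarith

end

section
variable (w : Fin m → Fin m → Fin m → Fin m → ℝ)

lemma P1_eq (x y : E m) :
    P1 w t x y = gr x y * ∑ j, qq w (Bt t x y) j j := by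
  unfold P1
  have e1 : ∀ i l, (∑ a, ∑ b, x a * x b * (uu t y a i * uu t y b l))
      = Bt t x y i * Bt t x y l := by
    intro i l
    rw [Bt_apply, Bt_apply, Finset.sum_mul_sum]
    refine Finset.sum_congr rfl fun a _ => Finset.sum_congr rfl fun b _ => ?_
    ring
  have e2 : (∑ c, ∑ d, x c * x d * (ss y * dl c d - y c * y d)) = gr x y := by
    have e3 : ∀ c d, x c * x d * (ss y * dl c d - y c * y d)
        = ss y * (x c * x d * dl c d) - x c * x d * (y c * y d) := by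
      intro c d; ring
    simp_rw [e3, Finset.sum_sub_distrib, ← Finset.mul_sum]
    rw [sum_dl2, sum_prod, ← norm_coord, ← inner_coord]
    unfold gr ss
    rw [← norm_coord]
    ring
  simp_rw [e1, e2]
  unfold qq
  rw [Finset.mul_sum]
  have e4 : ∀ i l, (∑ j, w i j j l) * (Bt t x y i * Bt t x y l * gr x y)
      = ∑ j, gr x y * (Bt t x y i * Bt t x y l * w i j j l) := by
    intro i l
    rw [Finset.sum_mul]
    exact Finset.sum_congr rfl fun j _ => by ring
  simp_rw [e4, Finset.mul_sum]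
  have e5 : ∀ i, ∑ l, ∑ j, gr x y * (Bt t x y i * Bt t x y l * w i j j l)
      = ∑ j, ∑ l, gr x y * (Bt t x y i * Bt t x y l * w i j j l) := fun i => Finset.sum_comm
  simp_rw [e5]
  rw [Finset.sum_comm]

lemma P2_eq (x y : E m) :
    P2 w t x y = ∑ j, ∑ k, qq w (Bt t x y) j k * GG x y j k := by
  unfold P2
  have e1 : ∀ i l, (∑ a, ∑ b, x a * x b * (uu t y a i * uu t y b l))
      = Bt t x y i * Bt t x y l := by
    intro i l
    rw [Bt_apply, Bt_apply, Finset.sum_mul_sum]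
    refine Finset.sum_congr rfl fun a _ => Finset.sum_congr rfl fun b _ => ?_
    ring
  have e2 : ∀ j k, (∑ c, ∑ d, x c * x d * (ss y * (dl c j * dl d k) + dl c d * (y j * y k)
      - y c * (dl d j * y k) - y c * (dl d k * y j))) = GG x y j k := by
    intro j k
    have e3 : ∀ c d, x c * x d * (ss y * (dl c j * dl d k) + dl c d * (y j * y k)
        - y c * (dl d j * y k) - y c * (dl d k * y j))
        = dl d k * (dl c j * (ss y * (x c * x d))) + (y j * y k) * (x c * x d * dl c d)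
          - dl d j * (x c * y c * (x d * y k)) - dl d k * (x c * y c * (x d * y j)) := by
      intro c d; ring
    simp_rw [e3, Finset.sum_sub_distrib, Finset.sum_add_distrib, sum_dl, ← Finset.mul_sum,
      ← Finset.sum_mul]
    rw [sum_dl2, ← norm_coord, ← inner_coord]
    unfold GG ss
    rw [← norm_coord]
    ring
  simp_rw [e1, e2]
  have e3 : ∀ i, ∑ j, ∑ k, ∑ l, w i j k l * (Bt t x y i * Bt t x y l * GG x y j k)
      = ∑ j, ∑ k, (∑ l, Bt t x y i * Bt t x y l * w i j k l) * GG x y j k := by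
    intro i
    refine Finset.sum_congr rfl fun j _ => Finset.sum_congr rfl fun k _ => ?_
    rw [Finset.sum_mul]
    exact Finset.sum_congr rfl fun l _ => by ring
  simp_rw [e3]
  rw [Finset.sum_comm]
  refine Finset.sum_congr rfl fun j _ => ?_
  rw [Finset.sum_comm]
  refine Finset.sum_congr rfl fun k _ => ?_
  unfold qq
  rw [Finset.sum_mul]

/-- the integrand -/
noncomputable def PP (t : Fin m → Fin m → Fin m → ℝ) (x y : E m) : ℝ :=
  ((m : ℝ) + 1) * P1 w t x y - ((m : ℝ) + 2) * P2 w t x y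

variable {w}

lemma QS_eq (h : IsCurv w) (x y : E m) :
    ∑ j, ∑ k, Qn w (Bt t x y) j k * S0 t x y j k = PP w t x y := by
  unfold PP
  rw [P1_eq, P2_eq]
  have e1 : ∀ j k, Qn w (Bt t x y) j k * S0 t x y j k
      = (((m : ℝ) + 1) * gr x y) * (qq w (Bt t x y) j k * dl j k)
        - (((m : ℝ) + 1) * gr x y) * (Qn w (Bt t x y) j k * (Bt t x y j * Bt t x y k))
        - ((m : ℝ) + 2) * (qq w (Bt t x y) j k * GG x y j k) := by
    intro j k
    rw [← Qn_mul]
    unfold S0
    ring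
  simp_rw [e1, Finset.sum_sub_distrib, ← Finset.mul_sum]
  have e2 : ∑ j, ∑ k, Qn w (Bt t x y) j k * (Bt t x y j * Bt t x y k) = 0 := by
    have : ∀ j k, Qn w (Bt t x y) j k * (Bt t x y j * Bt t x y k)
        = (Bt t x y j * Bt t x y k * qq w (Bt t x y) j k) / ‖Bt t x y‖ ^ 2 := by
      intro j k
      simp only [Qn, Matrix.of_apply]
      ring
    simp_rw [this, ← Finset.sum_div]
    rw [qq_self h, zero_div]
  have e3 : ∑ j, ∑ k, qq w (Bt t x y) j k * dl j k = ∑ j, qq w (Bt t x y) j j := by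
    refine Finset.sum_congr rfl fun j _ => ?_
    have : ∀ k, qq w (Bt t x y) j k * dl j k = dl j k * qq w (Bt t x y) j k :=
      fun k => mul_comm _ _
    simp_rw [this, sum_dl']
  rw [e2, e3]
  ring

lemma PP_cont : Continuous fun p : E m × E m => PP w t p.1 p.2 := by
  have h1 := contBc (t := t)
  have h2 := cont_gr (m := m)
  have h3 := cont_GG (m := m)
  unfold PP
  simp_rw [P1_eq, P2_eq]
  unfold qq
  fun_prop

lemma PP_smul (a b : ℝ) (x y : E m) : PP w t (a • x) (b • y) = a ^ 4 * b ^ 4 * PP w t x y := by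
  unfold PP
  rw [P1_eq, P1_eq, P2_eq, P2_eq]
  simp_rw [Bt_smul, qq_smul, GG_smul, gr_smul, Finset.mul_sum]
  rw [mul_sub]
  congr 1
  · simp_rw [Finset.mul_sum]
    refine Finset.sum_congr rfl fun j _ => ?_
    ring
  · simp_rw [Finset.mul_sum]
    refine Finset.sum_congr rfl fun j _ => Finset.sum_congr rfl fun k _ => ?_
    ring

/-- **The three-form inequality in components.** -/
theorem three_form (hm : Even m) (hm3 : 3 ≤ m) (h : IsCurv w)
    (hpos : ∀ x v : Fin m → ℝ,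
      0 ≤ ∑ j, ∑ k, v j * v k * (∑ i, ∑ l, x i * x l * w i j k l))
    (h₁ : ∀ i j k, t i j k = -t j i k) (h₂ : ∀ i j k, t i j k = -t i k j) :
    2 * QQ w t ≤ ((m : ℝ) - 1) * RR w t := by
  have hI := psd_approx (V := E m) m (E m × E m) (volume.prod volume) (Qn w) Qn_meas
    (Qn_psd h hpos) Qn_bound (fun c Y hc => Qn_hom c Y hc) (fun p => Bt t p.1 p.2)
    (contB (t := t)).measurable
    (fun p => Matrix.of fun j k => S0 t p.1 p.2 j k * exp (-(‖p.1‖ ^ 2 + ‖p.2‖ ^ 2) / 2))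
    (fun j k => int_S0 j k)
    (fun z B hB cone => all_case hm hm3 h₁ h₂ z B hB cone)
  have e1 : ∀ p : E m × E m, ∑ i, ∑ j, Qn w (Bt t p.1 p.2) i j
      * (Matrix.of fun j k => S0 t p.1 p.2 j k * exp (-(‖p.1‖ ^ 2 + ‖p.2‖ ^ 2) / 2)) i j
      = PP w t p.1 p.2 * exp (-(‖p.1‖ ^ 2 + ‖p.2‖ ^ 2) / 2) := by
    intro p
    rw [← QS_eq h]
    simp only [Matrix.of_apply, Finset.sum_mul]
    refine Finset.sum_congr rfl fun i _ => Finset.sum_congr rfl fun j _ => ?_
    ring
  simp_rw [e1] at hI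
  have hint : Integrable (fun p : E m × E m =>
      PP w t p.1 p.2 * exp (-(‖p.1‖ ^ 2 + ‖p.2‖ ^ 2) / 2)) (volume.prod volume) :=
    int_bihom (fun p => PP w t p.1 p.2) PP_cont fun a b x y => PP_smul a b x y
  rw [integral_prod_symm _ hint] at hI
  have hx : ∀ y : E m, ∫ x : E m, PP w t x y * exp (-(‖x‖ ^ 2 + ‖y‖ ^ 2) / 2)
      = Z m * ((((m : ℝ) + 1) * V1 w t y - ((m : ℝ) + 2) * V2 w t y) * exp (-‖y‖ ^ 2 / 2)) := by
    intro y
    have g := ((hasG_P1 w h₁ y).mul_left ((m : ℝ) + 1)).sub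
      ((hasG_P2 w h₁ y).mul_left ((m : ℝ) + 2))
    have g2 := g.2
    have : ∀ x : E m, PP w t x y * exp (-(‖x‖ ^ 2 + ‖y‖ ^ 2) / 2)
        = exp (-‖y‖ ^ 2 / 2) * ((((m : ℝ) + 1) * P1 w t x y - ((m : ℝ) + 2) * P2 w t x y)
          * exp (-‖x‖ ^ 2 / 2)) := by
      intro x
      rw [exp_split]
      unfold PP
      ring
    simp_rw [this]
    rw [integral_const_mul, g2]
    ring
  simp_rw [hx] at hI
  rw [integral_const_mul] at hI
  have g := ((hasG_V1 (t := t) w).mul_left ((m : ℝ) + 1)).sub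
    ((hasG_V2 (t := t) w).mul_left ((m : ℝ) + 2))
  have g2 := g.2
  rw [g2, V1_val w h₁ h₂, V2_val w h₁ h₂] at hI
  have hZ := Z_pos m
  have h3 : 0 ≤ ((m : ℝ) + 1) * (((m : ℝ) + 1) * ((m : ℝ) + 2) * RR w t)
      - ((m : ℝ) + 2) * (2 * ((m : ℝ) + 1) * (RR w t + QQ w t)) := by
    have := nonneg_of_mul_nonneg_right hI hZ
    exact nonneg_of_mul_nonneg_right this hZ
  have h4 : ((m : ℝ) + 1) * (((m : ℝ) + 1) * ((m : ℝ) + 2) * RR w t)
      - ((m : ℝ) + 2) * (2 * ((m : ℝ) + 1) * (RR w t + QQ w t))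
      = (((m : ℝ) + 1) * ((m : ℝ) + 2)) * (((m : ℝ) - 1) * RR w t - 2 * QQ w t) := by ring
  rw [h4] at h3
  have h5 : (0 : ℝ) < ((m : ℝ) + 1) * ((m : ℝ) + 2) := by positivity
  have := nonneg_of_mul_nonneg_right h3 h5
  linarith

end

end Pool.Agent.H91.OD
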