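import Pool.Agent.H91.OD.A

set_option autoImplicit false

/-! Piece B of project OC2: the half plane inequality. -/

namespace Pool.Agent.H91.OD

open MeasureTheory Set Real
open scoped ENNReal RealInnerProductSpace

/-- Tonelli and polar coordinates on the half plane. -/
theorem polar_half (F : ℝ × ℝ → ℝ≥0∞) (hF : Measurable F) :
    ∫⁻ ρ in Ioi (0 : ℝ), ∫⁻ t : ℝ, F (ρ, t)
      = ∫⁻ r in Ioi (0 : ℝ), ∫⁻ θ in Ioo (-(π / 2)) (π / 2),
          ENNReal.ofReal r * F (r * cos θ, r * sin θ) := by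
  have hs : MeasurableSet (Ioi (0 : ℝ) ×ˢ (univ : Set ℝ)) := measurableSet_Ioi.prod .univ
  have e1 : ∫⁻ ρ in Ioi (0 : ℝ), ∫⁻ t : ℝ, F (ρ, t)
      = ∫⁻ p : ℝ × ℝ, (Ioi (0 : ℝ) ×ˢ (univ : Set ℝ)).indicator F p := by
    rw [lintegral_indicator hs, Measure.volume_eq_prod, ← Measure.prod_restrict,
      Measure.restrict_univ, lintegral_prod _ hF.aemeasurable]
  have hG : Measurable ((Ioi (0 : ℝ) ×ˢ (univ : Set ℝ)).indicator F) := hF.indicator hs
  rw [e1, ← lintegral_comp_polarCoord_symm]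
  have ht : polarCoord.target = Ioi (0 : ℝ) ×ˢ Ioo (-π) π := rfl
  have hm : Measurable fun p : ℝ × ℝ => ENNReal.ofReal p.1 *
      (Ioi (0 : ℝ) ×ˢ (univ : Set ℝ)).indicator F (p.1 * cos p.2, p.1 * sin p.2) := by
    refine (ENNReal.measurable_ofReal.comp measurable_fst).mul (hG.comp ?_)
    fun_prop
  have e2 : ∫⁻ p in polarCoord.target, ENNReal.ofReal p.1 •
      (Ioi (0 : ℝ) ×ˢ (univ : Set ℝ)).indicator F (polarCoord.symm p)
      = ∫⁻ r in Ioi (0 : ℝ), ∫⁻ θ in Ioo (-π) π, ENNReal.ofReal r *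
        (Ioi (0 : ℝ) ×ˢ (univ : Set ℝ)).indicator F (r * cos θ, r * sin θ) := by
    rw [ht, Measure.volume_eq_prod, ← Measure.prod_restrict]
    simp only [polarCoord_symm_apply, smul_eq_mul]
    rw [lintegral_prod _ hm.aemeasurable]
  rw [e2]
  refine setLIntegral_congr_fun measurableSet_Ioi fun r hr => ?_
  have hr : 0 < r := hr
  have e3 : ∀ θ ∈ Ioo (-π) π, ENNReal.ofReal r *
        (Ioi (0 : ℝ) ×ˢ (univ : Set ℝ)).indicator F (r * cos θ, r * sin θ)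
      = (Ioo (-(π / 2)) (π / 2)).indicator
          (fun θ => ENNReal.ofReal r * F (r * cos θ, r * sin θ)) θ := by
    intro θ hθ
    by_cases h : θ ∈ Ioo (-(π / 2)) (π / 2)
    · have hc : 0 < cos θ := cos_pos_of_mem_Ioo h
      rw [indicator_of_mem h, indicator_of_mem]
      exact ⟨mul_pos hr hc, mem_univ _⟩
    · have hc : cos θ ≤ 0 := by
        rcases le_or_gt θ (-(π / 2)) with h1 | h1
        · rw [← cos_neg]
          exact cos_nonpos_of_pi_div_two_le_of_le (by linarith) (by linarith [hθ.1, pi_pos])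
        · have h2 : π / 2 ≤ θ := by
            by_contra h3
            exact h ⟨h1, not_le.1 h3⟩
          exact cos_nonpos_of_pi_div_two_le_of_le h2 (by linarith [hθ.2, pi_pos])
      rw [indicator_of_notMem h, indicator_of_notMem, mul_zero]
      rintro ⟨h1, -⟩
      exact absurd (mem_Ioi.1 h1) (not_lt.2 (mul_nonpos_of_nonneg_of_nonpos hr.le hc))
  rw [setLIntegral_congr_fun measurableSet_Ioo e3, lintegral_indicator measurableSet_Ioo,
    Measure.restrict_restrict measurableSet_Ioo, inter_eq_left.2]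
  exact Ioo_subset_Ioo (by linarith [pi_pos]) (by linarith [pi_pos])

/-- The polar form of a homogeneous kernel. -/
theorem polar_hom (N : ℕ) (F : ℝ × ℝ → ℝ) (g : ℝ → ℝ) (hF : Measurable F) (hg : Measurable g)
    (h : ∀ r θ : ℝ, 0 < r → θ ∈ Ioo (-(π / 2)) (π / 2) →
      r * F (r * cos θ, r * sin θ) = r ^ (N + 4) * exp (-r ^ 2 / 2) * g θ) :
    ∫⁻ ρ in Ioi (0 : ℝ), ∫⁻ t : ℝ, ENNReal.ofReal (F (ρ, t))
      = (∫⁻ r in Ioi (0 : ℝ), ENNReal.ofReal (r ^ (N + 4) * exp (-r ^ 2 / 2)))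
        * ∫⁻ θ in Ioo (-(π / 2)) (π / 2), ENNReal.ofReal (g θ) := by
  rw [polar_half (fun p => ENNReal.ofReal (F p)) (ENNReal.measurable_ofReal.comp hF)]
  have hgm : Measurable fun θ => ENNReal.ofReal (g θ) := ENNReal.measurable_ofReal.comp hg
  have hr : Measurable fun r : ℝ => ENNReal.ofReal (r ^ (N + 4) * exp (-r ^ 2 / 2)) := by
    fun_prop
  rw [← lintegral_mul_const _ hr]
  refine setLIntegral_congr_fun measurableSet_Ioi fun r hr0 => ?_
  have hr0 : 0 < r := hr0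
  rw [← lintegral_const_mul _ hgm]
  refine setLIntegral_congr_fun measurableSet_Ioo fun θ hθ => ?_
  rw [← ENNReal.ofReal_mul hr0.le, ← ENNReal.ofReal_mul (by positivity), h r θ hr0 hθ]

/-- Piece B -/
theorem halfplane (N : ℕ) (hN : 2 ≤ N) (ξ η : ℝ) :
    ∫⁻ ρ in Ioi (0 : ℝ), ∫⁻ t : ℝ, ENNReal.ofReal (((N : ℝ) + 3)
        * (ρ ^ N * |ξ * ρ + η * t| * (ξ * ρ + η * t) ^ 2 * exp (-(ρ ^ 2 + t ^ 2) / 2)))
      ≤ ∫⁻ ρ in Ioi (0 : ℝ), ∫⁻ t : ℝ, ENNReal.ofReal (((N : ℝ) + 2) * (ξ ^ 2 + η ^ 2)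
        * (ρ ^ N * |ξ * ρ + η * t| * (ρ ^ 2 + t ^ 2) * exp (-(ρ ^ 2 + t ^ 2) / 2))) := by
  have hexp : ∀ r θ : ℝ, (r * cos θ) ^ 2 + (r * sin θ) ^ 2 = r ^ 2 := by
    intro r θ
    have := sin_sq_add_cos_sq θ
    linear_combination r ^ 2 * this
  have habs : ∀ r θ : ℝ, 0 < r → |ξ * (r * cos θ) + η * (r * sin θ)|
      = r * |ξ * cos θ + η * sin θ| := by
    intro r θ hr
    rw [show ξ * (r * cos θ) + η * (r * sin θ) = r * (ξ * cos θ + η * sin θ) by ring, abs_mul,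
      abs_of_pos hr]
  have hc1 : Continuous fun θ : ℝ => ((N : ℝ) + 3) * (cos θ ^ N * |ξ * cos θ + η * sin θ|
      * (ξ * cos θ + η * sin θ) ^ 2) := by fun_prop
  have hc2 : Continuous fun θ : ℝ => ((N : ℝ) + 2) * (ξ ^ 2 + η ^ 2)
      * (cos θ ^ N * |ξ * cos θ + η * sin θ|) := by fun_prop
  have L := polar_hom N (fun p => ((N : ℝ) + 3) * (p.1 ^ N * |ξ * p.1 + η * p.2|
      * (ξ * p.1 + η * p.2) ^ 2 * exp (-(p.1 ^ 2 + p.2 ^ 2) / 2)))
    (fun θ => ((N : ℝ) + 3) * (cos θ ^ N * |ξ * cos θ + η * sin θ|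
      * (ξ * cos θ + η * sin θ) ^ 2)) (by fun_prop) hc1.measurable (by
        intro r θ hr _
        simp only [hexp, habs r θ hr]
        ring)
  have R := polar_hom N (fun p => ((N : ℝ) + 2) * (ξ ^ 2 + η ^ 2) * (p.1 ^ N
      * |ξ * p.1 + η * p.2| * (p.1 ^ 2 + p.2 ^ 2) * exp (-(p.1 ^ 2 + p.2 ^ 2) / 2)))
    (fun θ => ((N : ℝ) + 2) * (ξ ^ 2 + η ^ 2) * (cos θ ^ N * |ξ * cos θ + η * sin θ|))
    (by fun_prop) hc2.measurable (by
        intro r θ hr _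
        simp only [hexp, habs r θ hr]
        ring)
  simp only at L R
  rw [L, R]
  refine mul_le_mul_right ?_ _
  have hle : -(π / 2) ≤ π / 2 := by linarith [pi_pos]
  have conv : ∀ g : ℝ → ℝ, Continuous g → (∀ θ ∈ Ioo (-(π / 2)) (π / 2), 0 ≤ g θ) →
      ∫⁻ θ in Ioo (-(π / 2)) (π / 2), ENNReal.ofReal (g θ)
        = ENNReal.ofReal (∫ θ in (-(π / 2))..(π / 2), g θ) := by
    intro g hg h0
    rw [intervalIntegral.integral_of_le hle, integral_Ioc_eq_integral_Ioo,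
      ofReal_integral_eq_lintegral_ofReal]
    · exact (hg.integrableOn_Icc (a := -(π / 2)) (b := π / 2)).mono_set Ioo_subset_Icc_self
    · exact (ae_restrict_iff' measurableSet_Ioo).2 (.of_forall h0)
  have hcos : ∀ θ ∈ Ioo (-(π / 2)) (π / 2), 0 ≤ cos θ := fun θ hθ => (cos_pos_of_mem_Ioo hθ).le
  rw [conv _ hc1 fun θ hθ => by have := hcos θ hθ; positivity,
    conv _ hc2 fun θ hθ => by have := hcos θ hθ; positivity]
  refine ENNReal.ofReal_le_ofReal ?_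
  rw [← sub_nonneg, ← intervalIntegral.integral_sub (hc2.intervalIntegrable _ _)
    (hc1.intervalIntegrable _ _)]
  have A := angular N hN ξ η
  have e : ∀ θ : ℝ, ((N : ℝ) + 2) * (ξ ^ 2 + η ^ 2) * (cos θ ^ N * |ξ * cos θ + η * sin θ|)
      - ((N : ℝ) + 3) * (cos θ ^ N * |ξ * cos θ + η * sin θ| * (ξ * cos θ + η * sin θ) ^ 2)
      = cos θ ^ N * |ξ * cos θ + η * sin θ|
      * (((N : ℝ) + 2) * (ξ ^ 2 + η ^ 2) - ((N : ℝ) + 3) * (ξ * cos θ + η * sin θ) ^ 2) := by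
    intro θ
    ring
  simp only [e]
  exact A

end Pool.Agent.H91.OD
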