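import Pool.Agent.H91.OC.Proj

set_option autoImplicit false

/-! Piece T1 of project OC2. -/

namespace Pool.Agent.H91.OD

open Pool.Agent.H61.YP Pool.Agent.H8.RG Pool.Agent.H91.OC
open Set Real
open scoped RealInnerProductSpace BigOperators
open Matrix

/-- Piece T1 -/
theorem exists_frame {n N : ℕ} {P : Matrix (Fin n) (Fin n) ℝ} (hP : IsPr P N) :
    ∃ L : Matrix (Fin n) (Fin N) ℝ, L.transpose * L = 1 ∧ L * L.transpose = P := by
  induction N generalizing P with
  | zero =>
    have h1 : ∑ i, ∑ l, P i l * P i l = 0 := by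
      rw [sum_eq_trace, hP.symm, hP.idem, hP.trace]; simp
    refine ⟨0, Subsingleton.elim _ _, ?_⟩
    rw [Matrix.zero_mul]
    ext i j
    have h2 := (Finset.sum_eq_zero_iff_of_nonneg
      (fun i _ => Finset.sum_nonneg fun l _ => mul_self_nonneg (P i l))).mp h1 i
      (Finset.mem_univ i)
    have h3 := (Finset.sum_eq_zero_iff_of_nonneg
      (fun l _ => mul_self_nonneg (P i l))).mp h2 j (Finset.mem_univ j)
    exact (mul_self_eq_zero.mp h3).symm
  | succ N ih =>
    obtain ⟨x, hx⟩ : ∃ x : Fin n → ℝ, P *ᵥ x ≠ 0 := by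
      by_contra h
      push Not at h
      have h0 : P = 0 := by
        ext i j
        have h2 := congrFun (h (Pi.single j 1)) i
        simpa using h2
      have h3 := hP.trace
      rw [h0, Matrix.trace_zero] at h3
      push_cast at h3
      have h4 : (0 : ℝ) ≤ N := Nat.cast_nonneg N
      linarith
    set u : Fin n → ℝ := P *ᵥ x with hu
    have hPu : P *ᵥ u = u := by rw [hu, Matrix.mulVec_mulVec, hP.idem]
    have hS : 0 < u ⬝ᵥ u := by
      have h3 : 0 ≤ u ⬝ᵥ u := Finset.sum_nonneg fun i _ => mul_self_nonneg _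
      have h4 : u ⬝ᵥ u ≠ 0 := fun h5 => hx (dotProduct_self_eq_zero.mp h5)
      exact lt_of_le_of_ne h3 (Ne.symm h4)
    set v : Fin n → ℝ := (Real.sqrt (u ⬝ᵥ u))⁻¹ • u with hv
    have hPv : P *ᵥ v = v := by rw [hv, Matrix.mulVec_smul, hPu]
    have hv1 : v ⬝ᵥ v = 1 := by
      rw [hv, smul_dotProduct, dotProduct_smul, smul_eq_mul, smul_eq_mul, ← mul_assoc, ← sq,
        inv_pow, Real.sq_sqrt hS.le, inv_mul_cancel₀ hS.ne']
    obtain ⟨L, hL1, hL2⟩ := ih (hP.sub v hPv hv1)
    have h0 : (P - vecMulVec v v) *ᵥ v = 0 := by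
      rw [Matrix.sub_mulVec, hPv, Matrix.vecMulVec_mulVec, hv1]
      simp
    have hLv : L.transpose *ᵥ v = 0 := by
      have h1 : (L.transpose *ᵥ v) ⬝ᵥ (L.transpose *ᵥ v) = 0 := by
        rw [Matrix.dotProduct_mulVec, Matrix.vecMul_transpose, Matrix.mulVec_mulVec, hL2, h0,
          zero_dotProduct]
      exact dotProduct_self_eq_zero.mp h1
    have hvL : ∀ j, ∑ a, v a * L a j = 0 := by
      intro j
      have h1 := congrFun hLv j
      simp only [Matrix.mulVec, dotProduct, Matrix.transpose_apply, Pi.zero_apply] at h1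
      rw [← h1]
      exact Finset.sum_congr rfl fun a _ => mul_comm _ _
    have hvv : ∑ a, v a * v a = 1 := hv1
    refine ⟨Matrix.of fun a => Fin.cons (v a) (L a), ?_, ?_⟩
    · ext i j
      rw [Matrix.mul_apply]
      simp only [Matrix.transpose_apply, Matrix.of_apply]
      refine Fin.cases ?_ (fun i => ?_) i <;> refine Fin.cases ?_ (fun j => ?_) j
      · simpa using hvv
      · simpa [Matrix.one_apply, Fin.succ_ne_zero, (Fin.succ_ne_zero j).symm] using hvL j
      · simp only [Fin.cons_succ, Fin.cons_zero]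
        rw [Matrix.one_apply_ne (Fin.succ_ne_zero i), ← hvL i]
        exact Finset.sum_congr rfl fun a _ => mul_comm _ _
      · simp only [Fin.cons_succ]
        have h1 := congrFun (congrFun hL1 i) j
        rw [Matrix.mul_apply] at h1
        simp only [Matrix.transpose_apply] at h1
        rw [h1, Matrix.one_apply, Matrix.one_apply]
        simp [Fin.succ_inj]
    · ext a b
      rw [Matrix.mul_apply]
      simp only [Matrix.transpose_apply, Matrix.of_apply]
      rw [Fin.sum_univ_succ]
      simp only [Fin.cons_succ, Fin.cons_zero]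
      have h1 := congrFun (congrFun hL2 a) b
      rw [Matrix.mul_apply] at h1
      simp only [Matrix.transpose_apply, Matrix.sub_apply, vecMulVec_apply] at h1
      rw [h1]
      ring

end Pool.Agent.H91.OD
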