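import Pool.Agent.H91.OC.Chain

set_option autoImplicit false

/-!
# Pulling a curvature tensor and a three-form back along a frame
-/

namespace Pool.Agent.H91.OD

open Pool.Agent.H61.YP Pool.Agent.H8.RG Pool.Agent.H91.OC
open scoped BigOperators

section T
variable {n N : ℕ} (L : Matrix (Fin n) (Fin N) ℝ)

noncomputable def pw (w : Fin n → Fin n → Fin n → Fin n → ℝ) (i j k l : Fin N) : ℝ :=
  ∑ a, ∑ b, ∑ c, ∑ d, L a i * L b j * L c k * L d l * w a b c d

noncomputable def pt (t : Fin n → Fin n → Fin n → ℝ) (i j k : Fin N) : ℝ :=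
  ∑ a, ∑ b, ∑ c, L a i * L b j * L c k * t a b c

/-- Piece T2a -/
theorem pw_isCurv {w : Fin n → Fin n → Fin n → Fin n → ℝ} (h : IsCurv w) :
    IsCurv (pw L w) := by
  refine ⟨fun i j k l => ?_, fun i j k l => ?_, fun i j k l => ?_⟩
  · unfold pw
    rw [swap12, ← Finset.sum_neg_distrib]
    refine Finset.sum_congr rfl fun a _ => ?_
    rw [← Finset.sum_neg_distrib]
    refine Finset.sum_congr rfl fun b _ => ?_
    rw [← Finset.sum_neg_distrib]
    refine Finset.sum_congr rfl fun c _ => ?_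
    rw [← Finset.sum_neg_distrib]
    refine Finset.sum_congr rfl fun d _ => ?_
    rw [h.anti b a c d]
    ring
  · unfold pw
    rw [swap23, swap12, swap34, swap23]
    refine Finset.sum_congr rfl fun a _ => Finset.sum_congr rfl fun b _ =>
      Finset.sum_congr rfl fun c _ => Finset.sum_congr rfl fun d _ => ?_
    rw [h.pair c d a b]
    ring
  · have e1 : pw L w j k i l
        = ∑ a, ∑ b, ∑ c, ∑ d, L a i * L b j * L c k * L d l * w b c a d := by
      unfold pw
      rw [rot3, rot3]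
      refine Finset.sum_congr rfl fun a _ => Finset.sum_congr rfl fun b _ =>
        Finset.sum_congr rfl fun c _ => Finset.sum_congr rfl fun d _ => ?_
      ring
    have e2 : pw L w k i j l
        = ∑ a, ∑ b, ∑ c, ∑ d, L a i * L b j * L c k * L d l * w c a b d := by
      unfold pw
      rw [rot3]
      refine Finset.sum_congr rfl fun a _ => Finset.sum_congr rfl fun b _ =>
        Finset.sum_congr rfl fun c _ => Finset.sum_congr rfl fun d _ => ?_
      ring
    rw [e1, e2]
    unfold pw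
    simp only [← Finset.sum_add_distrib]
    refine Finset.sum_eq_zero fun a _ => Finset.sum_eq_zero fun b _ =>
      Finset.sum_eq_zero fun c _ => Finset.sum_eq_zero fun d _ => ?_
    rw [← mul_add, ← mul_add, h.bianchi a b c d, mul_zero]

/-- the adjoint of `pw` -/
lemma T2_adj (w : Fin n → Fin n → Fin n → Fin n → ℝ) (M : Fin N → Fin N → Fin N → Fin N → ℝ) :
    ∑ i, ∑ j, ∑ k, ∑ l, pw L w i j k l * M i j k l
      = ∑ a, ∑ b, ∑ c, ∑ d, w a b c d *
        ∑ i, ∑ j, ∑ k, ∑ l, L a i * L b j * L c k * L d l * M i j k l := by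
  have h1 : ∑ i, ∑ j, ∑ k, ∑ l, pw L w i j k l * M i j k l
      = ∑ x : Fin N × Fin N × Fin N × Fin N, ∑ y : Fin n × Fin n × Fin n × Fin n,
        L y.1 x.1 * L y.2.1 x.2.1 * L y.2.2.1 x.2.2.1 * L y.2.2.2 x.2.2.2
          * w y.1 y.2.1 y.2.2.1 y.2.2.2 * M x.1 x.2.1 x.2.2.1 x.2.2.2 := by
    simp only [Fintype.sum_prod_type, pw, Finset.sum_mul]
  have h2 : ∑ a, ∑ b, ∑ c, ∑ d, w a b c d *
        ∑ i, ∑ j, ∑ k, ∑ l, L a i * L b j * L c k * L d l * M i j k l
      = ∑ y : Fin n × Fin n × Fin n × Fin n, ∑ x : Fin N × Fin N × Fin N × Fin N,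
        w y.1 y.2.1 y.2.2.1 y.2.2.2 *
          (L y.1 x.1 * L y.2.1 x.2.1 * L y.2.2.1 x.2.2.1 * L y.2.2.2 x.2.2.2
            * M x.1 x.2.1 x.2.2.1 x.2.2.2) := by
    simp only [Fintype.sum_prod_type, Finset.mul_sum]
  rw [h1, h2, Finset.sum_comm]
  refine Finset.sum_congr rfl fun y _ => Finset.sum_congr rfl fun x _ => ?_
  ring

lemma T2_prod4 (f g h e : Fin N → ℝ) : ∑ i, ∑ j, ∑ k, ∑ l, f i * g j * h k * e l
    = (∑ i, f i) * (∑ j, g j) * (∑ k, h k) * (∑ l, e l) := by
  simp only [← Finset.mul_sum, ← Finset.sum_mul]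

/-- Piece T2b -/
theorem pw_pos {w : Fin n → Fin n → Fin n → Fin n → ℝ}
    (hpos : ∀ x v : Fin n → ℝ,
      0 ≤ ∑ j, ∑ k, v j * v k * (∑ i, ∑ l, x i * x l * w i j k l)) :
    ∀ x v : Fin N → ℝ,
      0 ≤ ∑ j, ∑ k, v j * v k * (∑ i, ∑ l, x i * x l * pw L w i j k l) := by
  intro x v
  have h0 := hpos (fun a => ∑ i, L a i * x i) (fun b => ∑ j, L b j * v j)
  refine h0.trans (le_of_eq ?_)
  have h1 : ∑ j, ∑ k, v j * v k * (∑ i, ∑ l, x i * x l * pw L w i j k l)
      = ∑ i, ∑ j, ∑ k, ∑ l, pw L w i j k l * (x i * v j * v k * x l) := by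
    simp only [Finset.mul_sum]
    rw [rot3]
    rw [rot3]
    refine Finset.sum_congr rfl fun i _ => Finset.sum_congr rfl fun j _ =>
      Finset.sum_congr rfl fun k _ => Finset.sum_congr rfl fun l _ => ?_
    ring
  rw [h1, T2_adj]
  have h2 : ∀ a b c d : Fin n, ∑ i, ∑ j, ∑ k, ∑ l,
      L a i * L b j * L c k * L d l * (x i * v j * v k * x l)
      = (∑ i, L a i * x i) * (∑ j, L b j * v j) * (∑ k, L c k * v k) * (∑ l, L d l * x l) := by
    intro a b c d
    rw [← T2_prod4]
    refine Finset.sum_congr rfl fun i _ => Finset.sum_congr rfl fun j _ =>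
      Finset.sum_congr rfl fun k _ => Finset.sum_congr rfl fun l _ => ?_
    ring
  simp only [h2]
  simp only [Finset.mul_sum (s := (Finset.univ : Finset (Fin n)))]
  rw [rot3]
  rw [rot3]
  refine Finset.sum_congr rfl fun i _ => Finset.sum_congr rfl fun j _ =>
      Finset.sum_congr rfl fun k _ => Finset.sum_congr rfl fun l _ => ?_
  ring

/-- contraction with `L` in one slot -/
lemma T2_con {P : Matrix (Fin n) (Fin n) ℝ} (hL : L * L.transpose = P) (X : Fin n → ℝ)
    (b : Fin n) : ∑ j, L b j * ∑ c, L c j * X c = ∑ c, P c b * X c := by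
  subst hL
  simp only [Matrix.mul_apply, Matrix.transpose_apply, Finset.sum_mul, Finset.mul_sum]
  rw [Finset.sum_comm]
  refine Finset.sum_congr rfl fun c _ => Finset.sum_congr rfl fun j _ => ?_
  ring

lemma T2_swap (f : Fin N → ℝ) (g : Fin n → ℝ) (Y : Fin n → Fin N → ℝ) :
    ∑ j, f j * ∑ a, g a * Y a j = ∑ a, g a * ∑ j, f j * Y a j := by
  simp only [Finset.mul_sum]
  rw [Finset.sum_comm]
  refine Finset.sum_congr rfl fun c _ => Finset.sum_congr rfl fun j _ => ?_
  ring

lemma T2_nest (t : Fin n → Fin n → Fin n → ℝ) (i j k : Fin N) :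
    pt L t i j k = ∑ a, L a i * ∑ b, L b j * ∑ c, L c k * t a b c := by
  unfold pt
  simp only [Finset.mul_sum]
  refine Finset.sum_congr rfl fun a _ => Finset.sum_congr rfl fun b _ =>
    Finset.sum_congr rfl fun c _ => ?_
  ring

section abs
variable {L} {t : Fin n → Fin n → Fin n → ℝ} {P : Matrix (Fin n) (Fin n) ℝ}

lemma T2_abs1 (hL : L * L.transpose = P) (hP : ∀ i j k, ∑ a, P a i * t a j k = t i j k)
    (b c : Fin n) (a : Fin n) : ∑ i, L a i * ∑ x, L x i * t x b c = t a b c := by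
  rw [T2_con L hL, hP]

lemma T2_abs2 (hL : L * L.transpose = P) (h₁ : ∀ i j k, t i j k = -t j i k)
    (hP : ∀ i j k, ∑ a, P a i * t a j k = t i j k)
    (a c : Fin n) (b : Fin n) : ∑ i, L b i * ∑ x, L x i * t a x c = t a b c := by
  rw [T2_con L hL, h₁ a b c, ← hP b a c, ← Finset.sum_neg_distrib]
  refine Finset.sum_congr rfl fun x _ => ?_
  rw [h₁ a x c]
  ring

lemma T2_abs3 (hL : L * L.transpose = P) (h₁ : ∀ i j k, t i j k = -t j i k)
    (h₂ : ∀ i j k, t i j k = -t i k j)
    (hP : ∀ i j k, ∑ a, P a i * t a j k = t i j k)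
    (a b : Fin n) (c : Fin n) : ∑ i, L c i * ∑ x, L x i * t a b x = t a b c := by
  have h := T2_abs2 hL h₁ hP a b c
  rw [h₂ a b c, ← h, ← Finset.sum_neg_distrib]
  refine Finset.sum_congr rfl fun i _ => ?_
  rw [← mul_neg, ← Finset.sum_neg_distrib]
  congr 1
  refine Finset.sum_congr rfl fun x _ => ?_
  rw [h₂ a b x]
  ring

/-- first two slots pushed back -/
lemma T2_A (hL : L * L.transpose = P) (h₁ : ∀ i j k, t i j k = -t j i k)
    (hP : ∀ i j k, ∑ a, P a i * t a j k = t i j k) (a b : Fin n) (s : Fin N) :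
    ∑ i, ∑ j, L a i * L b j * pt L t i j s = ∑ c, L c s * t a b c := by
  have e1 : ∀ i, ∑ j, L a i * L b j * pt L t i j s
      = L a i * ∑ x, L x i * ∑ c, L c s * t x b c := by
    intro i
    have e2 : ∑ j, L b j * pt L t i j s = ∑ x, L x i * ∑ c, L c s * t x b c := by
      simp only [T2_nest]
      rw [T2_swap]
      refine Finset.sum_congr rfl fun x _ => ?_
      congr 1
      have e3 : ∀ j, ∑ y, L y j * ∑ c, L c s * t x y c = ∑ c, L c s * ∑ y, L y j * t x y c := by
        intro j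
        simp only [Finset.mul_sum]
        rw [Finset.sum_comm]
        refine Finset.sum_congr rfl fun c _ => Finset.sum_congr rfl fun y _ => ?_
        ring
      simp only [e3]
      rw [T2_swap]
      refine Finset.sum_congr rfl fun c _ => ?_
      rw [T2_abs2 hL h₁ hP]
    rw [← e2, Finset.mul_sum]
    refine Finset.sum_congr rfl fun j _ => ?_
    ring
  simp only [e1]
  have e3 : ∀ i, ∑ x, L x i * ∑ c, L c s * t x b c = ∑ c, L c s * ∑ x, L x i * t x b c := by
    intro j
    simp only [Finset.mul_sum]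
    rw [Finset.sum_comm]
    refine Finset.sum_congr rfl fun c _ => Finset.sum_congr rfl fun y _ => ?_
    ring
  simp only [e3]
  rw [T2_swap]
  refine Finset.sum_congr rfl fun c _ => ?_
  rw [T2_abs1 hL hP]

/-- contraction of the last slots -/
lemma T2_B (hL : L * L.transpose = P) (h₁ : ∀ i j k, t i j k = -t j i k)
    (h₂ : ∀ i j k, t i j k = -t i k j)
    (hP : ∀ i j k, ∑ a, P a i * t a j k = t i j k) (a b c d : Fin n) :
    ∑ s, (∑ x, L x s * t a b x) * (∑ x, L x s * t c d x) = ∑ x, t a b x * t c d x := by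
  have e1 : ∀ s, (∑ x, L x s * t a b x) * (∑ x, L x s * t c d x)
      = ∑ x, t c d x * (L x s * ∑ y, L y s * t a b y) := by
    intro s
    rw [mul_comm, Finset.sum_mul]
    refine Finset.sum_congr rfl fun x _ => ?_
    ring
  simp only [e1]
  rw [Finset.sum_comm]
  refine Finset.sum_congr rfl fun x _ => ?_
  rw [← Finset.mul_sum, T2_abs3 hL h₁ h₂ hP]
  ring

end abs

lemma T2_pair (A B : Fin N → Fin N → ℝ) :
    ∑ i, ∑ j, ∑ k, ∑ l, A i j * B k l = (∑ i, ∑ j, A i j) * (∑ k, ∑ l, B k l) := by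
  simp only [← Finset.mul_sum, ← Finset.sum_mul]

/-- Piece T2c -/
theorem pw_Q {w : Fin n → Fin n → Fin n → Fin n → ℝ} {t : Fin n → Fin n → Fin n → ℝ}
    {P : Matrix (Fin n) (Fin n) ℝ} (hL : L * L.transpose = P)
    (h₁ : ∀ i j k, t i j k = -t j i k) (h₂ : ∀ i j k, t i j k = -t i k j)
    (hP : ∀ i j k, ∑ a, P a i * t a j k = t i j k) :
    ∑ i, ∑ j, ∑ k, ∑ l, pw L w i j k l
        * ∑ a, (pt L t i j a * pt L t l k a + pt L t l j a * pt L t i k a)
      = ∑ i, ∑ j, ∑ k, ∑ l, w i j k l * ∑ a, (t i j a * t l k a + t l j a * t i k a) := by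
  rw [T2_adj]
  refine Finset.sum_congr rfl fun a _ => Finset.sum_congr rfl fun b _ =>
    Finset.sum_congr rfl fun c _ => Finset.sum_congr rfl fun d _ => ?_
  congr 1
  have e1 : ∑ i, ∑ j, ∑ k, ∑ l, L a i * L b j * L c k * L d l *
        ∑ s, (pt L t i j s * pt L t l k s + pt L t l j s * pt L t i k s)
      = ∑ s, (∑ i, ∑ j, ∑ k, ∑ l, (L a i * L b j * pt L t i j s) * (L d l * L c k * pt L t l k s)
        + ∑ i, ∑ j, ∑ k, ∑ l, (L d l * L b j * pt L t l j s) * (L a i * L c k * pt L t i k s)) := by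
    simp only [← Finset.sum_add_distrib]
    have e2 : ∀ F : Fin N → Fin N → Fin N → Fin N → Fin N → ℝ,
        ∑ s, ∑ i, ∑ j, ∑ k, ∑ l, F i j k l s = ∑ i, ∑ j, ∑ k, ∑ l, ∑ s, F i j k l s := by
      intro F
      rw [Finset.sum_comm]
      refine Finset.sum_congr rfl fun i _ => ?_
      rw [Finset.sum_comm]
      refine Finset.sum_congr rfl fun j _ => ?_
      rw [Finset.sum_comm]
      refine Finset.sum_congr rfl fun k _ => ?_
      rw [Finset.sum_comm]
    rw [e2]
    refine Finset.sum_congr rfl fun i _ => Finset.sum_congr rfl fun j _ =>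
      Finset.sum_congr rfl fun k _ => Finset.sum_congr rfl fun l _ => ?_
    rw [Finset.mul_sum]
    refine Finset.sum_congr rfl fun s _ => ?_
    ring
  rw [e1, Finset.sum_add_distrib, Finset.sum_add_distrib]
  congr 1
  · rw [← T2_B hL h₁ h₂ hP a b d c]
    refine Finset.sum_congr rfl fun s _ => ?_
    have e3 : ∑ i, ∑ j, ∑ k, ∑ l, (L a i * L b j * pt L t i j s) * (L d l * L c k * pt L t l k s)
        = (∑ i, ∑ j, L a i * L b j * pt L t i j s) * ∑ k, ∑ l, L d l * L c k * pt L t l k s :=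
      T2_pair (fun i j => L a i * L b j * pt L t i j s) (fun k l => L d l * L c k * pt L t l k s)
    rw [e3, T2_A hL h₁ hP, Finset.sum_comm (f := fun k l => L d l * L c k * pt L t l k s),
      T2_A hL h₁ hP]
  · rw [← T2_B hL h₁ h₂ hP d b a c]
    refine Finset.sum_congr rfl fun s _ => ?_
    have e3 : ∑ i, ∑ j, ∑ k, ∑ l, (L d l * L b j * pt L t l j s) * (L a i * L c k * pt L t i k s)
        = (∑ l, ∑ j, L d l * L b j * pt L t l j s) * ∑ i, ∑ k, L a i * L c k * pt L t i k s := by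
      rw [← T2_pair (fun l j => L d l * L b j * pt L t l j s)
        (fun i k => L a i * L c k * pt L t i k s)]
      have e4 : ∀ F : Fin N → Fin N → Fin N → Fin N → ℝ,
          ∑ i, ∑ j, ∑ k, ∑ l, F l j i k = ∑ l, ∑ j, ∑ i, ∑ k, F l j i k := by
        intro F
        have g1 : ∑ i, ∑ j, ∑ k, ∑ l, F l j i k
            = ∑ x : Fin N × Fin N × Fin N × Fin N, F x.2.2.2 x.2.1 x.1 x.2.2.1 := by
          simp only [Fintype.sum_prod_type]
        have g2 : ∑ l, ∑ j, ∑ i, ∑ k, F l j i k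
            = ∑ x : Fin N × Fin N × Fin N × Fin N, F x.1 x.2.1 x.2.2.1 x.2.2.2 := by
          simp only [Fintype.sum_prod_type]
        rw [g1, g2]
        refine Fintype.sum_equiv
          ⟨fun x => (x.2.2.2, x.2.1, x.1, x.2.2.1), fun x => (x.2.2.1, x.2.1, x.2.2.2, x.1),
            fun x => rfl, fun x => rfl⟩ _ _ fun x => rfl
      exact e4 (fun l j i k => (L d l * L b j * pt L t l j s) * (L a i * L c k * pt L t i k s))
    rw [e3, T2_A hL h₁ hP, T2_A hL h₁ hP]

lemma T2_dot (X Y : Fin n → ℝ) (hX : ∀ x, ∑ s, L x s * ∑ y, L y s * X y = X x) :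
    ∑ s, (∑ x, L x s * X x) * (∑ x, L x s * Y x) = ∑ x, X x * Y x := by
  have e1 : ∀ s, (∑ x, L x s * X x) * (∑ x, L x s * Y x)
      = ∑ x, Y x * (L x s * ∑ y, L y s * X y) := by
    intro s
    rw [mul_comm, Finset.sum_mul]
    refine Finset.sum_congr rfl fun x _ => ?_
    ring
  simp only [e1]
  rw [Finset.sum_comm]
  refine Finset.sum_congr rfl fun x _ => ?_
  rw [← Finset.mul_sum, hX]
  ring

lemma T2_C {t : Fin n → Fin n → Fin n → ℝ}
    {P : Matrix (Fin n) (Fin n) ℝ} (hL : L * L.transpose = P)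
    (h₁ : ∀ i j k, t i j k = -t j i k) (h₂ : ∀ i j k, t i j k = -t i k j)
    (hP : ∀ i j k, ∑ a, P a i * t a j k = t i j k) (b c : Fin n) :
    ∑ j, ∑ k, L b j * L c k * ∑ s, ∑ u, pt L t j s u * pt L t k s u
      = ∑ x, ∑ y, t b x y * t c x y := by
  have q1 : ∀ (b : Fin n) (s u : Fin N), ∑ j, L b j * pt L t j s u
      = ∑ y, L y u * ∑ x, L x s * t b x y := by
    intro b s u
    have e : ∀ j, pt L t j s u = ∑ a, L a j * ∑ y, L y u * ∑ x, L x s * t a x y := by
      intro j
      rw [T2_nest]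
      refine Finset.sum_congr rfl fun a _ => ?_
      congr 1
      simp only [Finset.mul_sum]
      rw [Finset.sum_comm]
      refine Finset.sum_congr rfl fun y _ => Finset.sum_congr rfl fun x _ => ?_
      ring
    simp only [e]
    have e5 : ∀ j, ∑ a, L a j * ∑ y, L y u * ∑ x, L x s * t a x y
        = ∑ y, L y u * ∑ x, L x s * ∑ a, L a j * t a x y := by
      intro j
      simp only [Finset.mul_sum]
      rw [Finset.sum_comm]
      refine Finset.sum_congr rfl fun y _ => ?_
      rw [Finset.sum_comm]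
      refine Finset.sum_congr rfl fun x _ => Finset.sum_congr rfl fun a _ => ?_
      ring
    simp only [e5]
    rw [T2_swap]
    refine Finset.sum_congr rfl fun y _ => ?_
    congr 1
    rw [T2_swap]
    refine Finset.sum_congr rfl fun x _ => ?_
    rw [T2_abs1 hL hP]
  have q2 : ∑ j, ∑ k, L b j * L c k * ∑ s, ∑ u, pt L t j s u * pt L t k s u
      = ∑ s, ∑ u, (∑ j, L b j * pt L t j s u) * ∑ k, L c k * pt L t k s u := by
    have g1 : ∑ j, ∑ k, L b j * L c k * ∑ s, ∑ u, pt L t j s u * pt L t k s u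
        = ∑ x : Fin N × Fin N, ∑ y : Fin N × Fin N,
          (L b x.1 * pt L t x.1 y.1 y.2) * (L c x.2 * pt L t x.2 y.1 y.2) := by
      simp only [Fintype.sum_prod_type, Finset.mul_sum]
      refine Finset.sum_congr rfl fun i _ => Finset.sum_congr rfl fun j _ =>
        Finset.sum_congr rfl fun k _ => Finset.sum_congr rfl fun l _ => ?_
      ring
    have g2 : ∑ s, ∑ u, (∑ j, L b j * pt L t j s u) * ∑ k, L c k * pt L t k s u
        = ∑ y : Fin N × Fin N, ∑ x : Fin N × Fin N,
          (L b x.1 * pt L t x.1 y.1 y.2) * (L c x.2 * pt L t x.2 y.1 y.2) := by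
      simp only [Fintype.sum_prod_type, Finset.sum_mul_sum]
    rw [g1, g2, Finset.sum_comm]
  rw [q2]
  simp only [q1]
  have q3 : ∀ s, ∑ u, (∑ y, L y u * ∑ x, L x s * t b x y) * ∑ y, L y u * ∑ x, L x s * t c x y
      = ∑ y, (∑ x, L x s * t b x y) * ∑ x, L x s * t c x y := by
    intro s
    refine T2_dot L (fun y => ∑ x, L x s * t b x y) (fun y => ∑ x, L x s * t c x y) fun y => ?_
    have e6 : ∀ u, ∑ z, L z u * ∑ x, L x s * t b x z = ∑ x, L x s * ∑ z, L z u * t b x z := by
      intro u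
      simp only [Finset.mul_sum]
      rw [Finset.sum_comm]
      refine Finset.sum_congr rfl fun z _ => Finset.sum_congr rfl fun x _ => ?_
      ring
    simp only [e6]
    rw [T2_swap]
    refine Finset.sum_congr rfl fun x _ => ?_
    rw [T2_abs3 hL h₁ h₂ hP]
  simp only [q3]
  rw [Finset.sum_comm, Finset.sum_comm (f := fun x y => t b x y * t c x y)]
  refine Finset.sum_congr rfl fun y _ => ?_
  exact T2_dot L (fun x => t b x y) (fun x => t c x y) fun x => T2_abs2 hL h₁ hP b y x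

/-- Piece T2d -/
theorem pw_R {w : Fin n → Fin n → Fin n → Fin n → ℝ} {t : Fin n → Fin n → Fin n → ℝ}
    {P : Matrix (Fin n) (Fin n) ℝ} (hL : L * L.transpose = P)
    (h₁ : ∀ i j k, t i j k = -t j i k) (h₂ : ∀ i j k, t i j k = -t i k j)
    (hP : ∀ i j k, ∑ a, P a i * t a j k = t i j k) :
    ∑ j, ∑ k, (∑ i, pw L w i j k i) * ∑ a, ∑ b, pt L t j a b * pt L t k a b
      = ∑ j, ∑ k, (∑ i, ∑ l, P i l * w i j k l) * ∑ a, ∑ b, t j a b * t k a b := by
  set M : Fin N → Fin N → ℝ := fun j k => ∑ a, ∑ b, pt L t j a b * pt L t k a b with hM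
  have h3 : ∑ j, ∑ k, (∑ i, pw L w i j k i) * ∑ a, ∑ b, pt L t j a b * pt L t k a b
      = ∑ i, ∑ j, ∑ k, ∑ l, pw L w i j k l * (if i = l then M j k else 0) := by
    have h4 : ∀ i j k, ∑ l, pw L w i j k l * (if i = l then M j k else 0)
        = pw L w i j k i * M j k := by
      intro i j k
      rw [Finset.sum_eq_single i]
      · rw [if_pos rfl]
      · intro l _ hl
        rw [if_neg (Ne.symm hl), mul_zero]
      · intro h
        exact absurd (Finset.mem_univ i) h
    simp only [h4]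
    have e : ∀ F : Fin N → Fin N → Fin N → ℝ,
        ∑ i, ∑ j, ∑ k, F i j k = ∑ j, ∑ k, ∑ i, F i j k := by
      intro F
      rw [Finset.sum_comm]
      refine Finset.sum_congr rfl fun j _ => ?_
      rw [Finset.sum_comm]
    rw [e fun i j k => pw L w i j k i * M j k]
    refine Finset.sum_congr rfl fun j _ => Finset.sum_congr rfl fun k _ => ?_
    rw [Finset.sum_mul]
  rw [h3, T2_adj]
  have h5 : ∀ a b c d : Fin n, ∑ i, ∑ j, ∑ k, ∑ l,
      L a i * L b j * L c k * L d l * (if i = l then M j k else 0)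
      = P a d * ∑ x, ∑ y, t b x y * t c x y := by
    intro a b c d
    rw [← T2_C L hL h₁ h₂ hP b c]
    have h6 : ∀ i j k, ∑ l, L a i * L b j * L c k * L d l * (if i = l then M j k else 0)
        = (L a i * L d i) * (L b j * L c k * M j k) := by
      intro i j k
      rw [Finset.sum_eq_single i]
      · rw [if_pos rfl]
        ring
      · intro l _ hl
        rw [if_neg (Ne.symm hl), mul_zero]
      · intro h
        exact absurd (Finset.mem_univ i) h
    simp only [h6]
    simp only [← Finset.mul_sum, ← Finset.sum_mul]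
    congr 1
    rw [← hL, Matrix.mul_apply]
    rfl
  simp only [h5]
  have h7 : ∑ j, ∑ k, (∑ i, ∑ l, P i l * w i j k l) * ∑ a, ∑ b, t j a b * t k a b
      = ∑ j, ∑ k, ∑ i, ∑ l, w i j k l * (P i l * ∑ x, ∑ y, t j x y * t k x y) := by
    refine Finset.sum_congr rfl fun j _ => Finset.sum_congr rfl fun k _ => ?_
    rw [Finset.sum_mul]
    refine Finset.sum_congr rfl fun i _ => ?_
    rw [Finset.sum_mul]
    refine Finset.sum_congr rfl fun l _ => ?_
    ring
  rw [h7, rot3]

end T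

end Pool.Agent.H91.OD
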