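import Pool.Agent.H91.OD.AT
import Pool.Agent.H91.OD.T1
import Pool.Agent.H91.OD.T2

set_option autoImplicit false

/-! The base case of the chain: three-forms on the range of a projection of even rank. -/

namespace Pool.Agent.H91.OD

open Pool.Agent.H61.YP Pool.Agent.H8.RG Pool.Agent.H91.OC
open scoped BigOperators RealInnerProductSpace

variable {n : ℕ}

/-- components of a three-form -/
noncomputable def tf (ω : Form n 3) (i j k : Fin n) : ℝ :=
  (((ω.curryLeft (e i)).curryLeft (e j)).curryLeft (e k)) ![]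

lemma tf_anti1 (ω : Form n 3) (i j k : Fin n) : tf ω i j k = -tf ω j i k := by
  unfold tf
  rw [curry_swap ω (e i) (e j)]
  have h1 : (-(ω.curryLeft (e j)).curryLeft (e i)).curryLeft (e k)
      = -(((ω.curryLeft (e j)).curryLeft (e i)).curryLeft (e k)) := by
    ext v
    simp [AlternatingMap.curryLeft_apply_apply]
  rw [h1]
  rfl

lemma tf_anti2 (ω : Form n 3) (i j k : Fin n) : tf ω i j k = -tf ω i k j := by
  unfold tf
  rw [curry_swap (ω.curryLeft (e i)) (e j) (e k)]
  rfl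

lemma ip_zero (φ ψ : Form n 0) : ip φ ψ = φ ![] * ψ ![] := by
  unfold ip
  rw [Fintype.sum_unique]
  congr 1 <;> congr 1 <;> ext k <;> exact k.elim0

lemma MB_tf (ω : Form n 3) (j k : Fin n) :
    MB ω (e j) (e k) = ∑ a, ∑ b, tf ω j a b * tf ω k a b := by
  rw [MB_apply, ip_succ]
  refine Finset.sum_congr rfl fun a _ => ?_
  rw [ip_succ]
  refine Finset.sum_congr rfl fun b _ => ?_
  rw [ip_zero]
  rfl

lemma Gm_tf (ω : Form n 3) (a j b k : Fin n) :
    Gm ω a j b k = ∑ c, tf ω a j c * tf ω b k c := by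
  unfold Gm
  rw [ip_succ]
  refine Finset.sum_congr rfl fun c _ => ?_
  rw [ip_zero]
  rfl

lemma QQ_tf {w : Fin n → Fin n → Fin n → Fin n → ℝ} (h : IsCurv w) (ω : Form n 3) :
    QQ w (tf ω) = 3 * QA w ω := by
  rw [← sum3 h ω]
  unfold QQ qf
  have perm : ∀ f : Fin n → Fin n → Fin n → Fin n → ℝ,
      ∑ j, ∑ k, ∑ i, ∑ l, f i j k l = ∑ i, ∑ j, ∑ k, ∑ l, f i j k l := by
    intro f
    rw [rot3 (fun i j k l => f i j k l)]
  rw [perm (fun i j k l => w i j k l * (Gm ω i j l k + Gm ω l j i k))]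
  refine Finset.sum_congr rfl fun i _ => Finset.sum_congr rfl fun j _ =>
    Finset.sum_congr rfl fun k _ => Finset.sum_congr rfl fun l _ => ?_
  rw [Gm_tf, Gm_tf, ← Finset.sum_add_distrib]

lemma pt_anti1 {N : ℕ} (L : Matrix (Fin n) (Fin N) ℝ) {t : Fin n → Fin n → Fin n → ℝ}
    (h₁ : ∀ i j k, t i j k = -t j i k) (i j k : Fin N) : pt L t i j k = -pt L t j i k := by
  unfold pt
  rw [Finset.sum_comm, ← Finset.sum_neg_distrib]
  refine Finset.sum_congr rfl fun b _ => ?_
  rw [← Finset.sum_neg_distrib]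
  refine Finset.sum_congr rfl fun a _ => ?_
  rw [← Finset.sum_neg_distrib]
  refine Finset.sum_congr rfl fun c _ => ?_
  rw [h₁ a b c]
  ring

lemma pt_anti2 {N : ℕ} (L : Matrix (Fin n) (Fin N) ℝ) {t : Fin n → Fin n → Fin n → ℝ}
    (h₂ : ∀ i j k, t i j k = -t i k j) (i j k : Fin N) : pt L t i j k = -pt L t i k j := by
  unfold pt
  rw [← Finset.sum_neg_distrib]
  refine Finset.sum_congr rfl fun a _ => ?_
  rw [Finset.sum_comm, ← Finset.sum_neg_distrib]
  refine Finset.sum_congr rfl fun c _ => ?_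
  rw [← Finset.sum_neg_distrib]
  refine Finset.sum_congr rfl fun b _ => ?_
  rw [h₂ a b c]
  ring

lemma RR_eq {m : ℕ} {w : Fin m → Fin m → Fin m → Fin m → ℝ} (h : IsCurv w)
    (t : Fin m → Fin m → Fin m → ℝ) :
    RR w t = ∑ j, ∑ k, (∑ i, w i j k i) * ∑ a, ∑ b, t j a b * t k a b := by
  unfold RR
  refine Finset.sum_congr rfl fun j _ => Finset.sum_congr rfl fun k _ => ?_
  rw [ricA_eq h]
  rfl

/-- **Three-forms on the range of a projection of even rank.** -/
theorem base3 {w : Fin n → Fin n → Fin n → Fin n → ℝ} (h : IsCurv w)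
    (hpos : ∀ x v : Fin n → ℝ,
      0 ≤ ∑ j, ∑ k, v j * v k * (∑ i, ∑ l, x i * x l * w i j k l))
    (k : ℕ) (hk : Odd k) (P : Matrix (Fin n) (Fin n) ℝ) (hP : IsPr P (k + 3)) (ω : Form n 3)
    (hL : Lives P ω) : 3 * (2 / ((k : ℝ) + 2) * QA w ω) ≤ rP w P ω := by
  obtain ⟨L, hL1, hL2⟩ := exists_frame hP
  have h1 := tf_anti1 ω
  have h2 := tf_anti2 ω
  have hPt : ∀ i j k, ∑ a, P a i * tf ω a j k = tf ω i j k := by
    intro i j k
    let Λ : Form n 2 →ₗ[ℝ] ℝ :=
      { toFun := fun φ => ((φ.curryLeft (e j)).curryLeft (e k)) ![]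
        map_add' := fun φ ψ => by
          rw [AlternatingMap.curryLeft_add, LinearMap.add_apply, AlternatingMap.curryLeft_add,
            LinearMap.add_apply]
          rfl
        map_smul' := fun c φ => by
          rw [AlternatingMap.curryLeft_smul, LinearMap.smul_apply, AlternatingMap.curryLeft_smul,
            LinearMap.smul_apply]
          rfl }
    have e1 := congrArg Λ (hL i)
    rw [map_sum] at e1
    simp only [map_smul, smul_eq_mul] at e1
    exact e1
  have hm : Even (k + 3) := by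
    obtain ⟨r, hr⟩ := hk
    exact ⟨r + 2, by omega⟩
  have key := three_form (m := k + 3) (w := pw L w) (t := pt L (tf ω)) hm (by omega)
    (pw_isCurv L h) (pw_pos L hpos) (pt_anti1 L h1) (pt_anti2 L h2)
  have eQ : QQ (pw L w) (pt L (tf ω)) = 3 * QA w ω := by
    rw [← QQ_tf h ω]
    unfold QQ qf
    exact pw_Q L hL2 h1 h2 hPt
  have eR : RR (pw L w) (pt L (tf ω)) = rP w P ω := by
    rw [RR_eq (pw_isCurv L h), pw_R L hL2 h1 h2 hPt]
    unfold rP
    refine Finset.sum_congr rfl fun j _ => Finset.sum_congr rfl fun k _ => ?_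
    rw [MB_tf]
  rw [eQ, eR] at key
  push_cast at key
  have k2 : (0 : ℝ) < (k : ℝ) + 2 := by positivity
  have e3 : 3 * (2 / ((k : ℝ) + 2) * QA w ω) = (6 * QA w ω) / ((k : ℝ) + 2) := by
    field_simp
    ring
  rw [e3, div_le_iff₀ k2]
  linarith

end Pool.Agent.H91.OD
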