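import Mathlib

set_option autoImplicit false

namespace Pool.Agent.H91.OD

open MeasureTheory Set Real
open scoped ENNReal RealInnerProductSpace

section C

/-- polar coordinates -/
private theorem kc_polar {W : Type*} [NormedAddCommGroup W] [NormedSpace ℝ W] [FiniteDimensional ℝ W]
    [MeasurableSpace W] [BorelSpace W] [Nontrivial W] (μ : Measure W) [μ.IsAddHaarMeasure]
    (g : W → ℝ≥0∞) (hg : Measurable g) :
    ∫⁻ w, g w ∂μ = ∫⁻ s : Metric.sphere (0 : W) 1, (∫⁻ ρ in Ioi (0 : ℝ),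
      ENNReal.ofReal (ρ ^ (Module.finrank ℝ W - 1)) * g (ρ • (s : W))) ∂μ.toSphere := by
  have h1 : Measurable fun p : Metric.sphere (0 : W) 1 × Ioi (0 : ℝ) => g (p.2.1 • p.1.1) := by
    apply hg.comp
    fun_prop
  calc ∫⁻ w, g w ∂μ = ∫⁻ x : ({(0)}ᶜ : Set W), g x ∂(μ.comap (↑)) := by
        rw [lintegral_subtype_comap (measurableSet_singleton _).compl, restrict_compl_singleton]
    _ = ∫⁻ p : Metric.sphere (0 : W) 1 × Ioi (0 : ℝ), g (p.2.1 • p.1.1)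
          ∂(μ.toSphere.prod (.volumeIoiPow (Module.finrank ℝ W - 1))) := by
        rw [← μ.measurePreserving_homeomorphUnitSphereProd.lintegral_comp h1]
        refine lintegral_congr fun x => ?_
        have hx : ‖(x : W)‖ ≠ 0 := norm_ne_zero_iff.2 x.2
        rw [homeomorphUnitSphereProd_apply_fst_coe, homeomorphUnitSphereProd_apply_snd_coe,
          smul_smul, mul_inv_cancel₀ hx, one_smul]
    _ = ∫⁻ s : Metric.sphere (0 : W) 1, ∫⁻ ρ : Ioi (0 : ℝ), g (ρ.1 • s.1)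
          ∂(Measure.volumeIoiPow (Module.finrank ℝ W - 1)) ∂μ.toSphere :=
        lintegral_prod _ h1.aemeasurable
    _ = _ := by
        refine lintegral_congr fun s => ?_
        have h2 : Measurable fun ρ : Ioi (0 : ℝ) => g (ρ.1 • s.1) := by
          apply hg.comp
          fun_prop
        rw [Measure.volumeIoiPow, lintegral_withDensity_eq_lintegral_mul _ (by fun_prop) h2,
          ← lintegral_subtype_comap measurableSet_Ioi]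
        rfl

variable {U : Type*} [NormedAddCommGroup U] [InnerProductSpace ℝ U] [FiniteDimensional ℝ U]

/-- the splitting along a unit vector -/
private noncomputable def kcE (ν : U) (hν : ‖ν‖ = 1) : (↥(ℝ ∙ ν)ᗮ × ℝ) ≃L[ℝ] U :=
  (LinearEquiv.ofBijective
    ((ℝ ∙ ν)ᗮ.subtype.coprod (LinearMap.toSpanSingleton ℝ U ν)) (by
      have hνν : ⟪ν, ν⟫ = 1 := by rw [real_inner_self_eq_norm_sq, hν]; norm_num
      constructor
      · rw [← LinearMap.ker_eq_bot, LinearMap.ker_eq_bot']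
        rintro ⟨w, t⟩ h
        have h1 : (w : U) + t • ν = 0 := h
        have h2 : ⟪ν, (w : U)⟫ = 0 := Submodule.mem_orthogonal_singleton_iff_inner_right.1 w.2
        have h3 : ⟪ν, (w : U) + t • ν⟫ = 0 := by rw [h1, inner_zero_right]
        rw [inner_add_right, h2, inner_smul_right, hνν, zero_add, mul_one] at h3
        subst h3
        rw [zero_smul, add_zero] at h1
        exact Prod.ext (Subtype.ext h1) rfl
      · intro x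
        refine ⟨(⟨x - ⟪ν, x⟫ • ν, ?_⟩, ⟪ν, x⟫), ?_⟩
        · rw [Submodule.mem_orthogonal_singleton_iff_inner_right, inner_sub_right, inner_smul_right,
            hνν, mul_one, sub_self]
        · change x - ⟪ν, x⟫ • ν + ⟪ν, x⟫ • ν = x
          rw [sub_add_cancel])).toContinuousLinearEquiv

private theorem kcE_apply (ν : U) (hν : ‖ν‖ = 1) (w : ↥(ℝ ∙ ν)ᗮ) (t : ℝ) :
    kcE ν hν (w, t) = (w : U) + t • ν := rfl

omit [FiniteDimensional ℝ U] in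
/-- Bessel -/
private theorem kc_bessel {s ν v z : U} (hs : ‖s‖ = 1) (hν : ‖ν‖ = 1) (hsν : ⟪ν, s⟫ = 0)
    (h1 : ⟪v, s⟫ = 0) (h2 : ⟪v, ν⟫ = 0) :
    ‖v‖ ^ 2 * (⟪s, z⟫ ^ 2 + ⟪ν, z⟫ ^ 2) ≤ ‖z‖ ^ 2 * ‖v‖ ^ 2 - ⟪z, v⟫ ^ 2 := by
  have hss : ⟪s, s⟫ = 1 := by rw [real_inner_self_eq_norm_sq, hs]; norm_num
  have hνν : ⟪ν, ν⟫ = 1 := by rw [real_inner_self_eq_norm_sq, hν]; norm_num
  have hνs : ⟪s, ν⟫ = 0 := by rw [real_inner_comm]; exact hsν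
  have h3 : ⟪z - ⟪s, z⟫ • s - ⟪ν, z⟫ • ν, v⟫ = ⟪z, v⟫ := by
    rw [inner_sub_left, inner_sub_left, real_inner_smul_left, real_inner_smul_left,
      real_inner_comm v s, real_inner_comm v ν, h1, h2]
    ring
  have h4 : ‖z - ⟪s, z⟫ • s - ⟪ν, z⟫ • ν‖ ^ 2 = ‖z‖ ^ 2 - ⟪s, z⟫ ^ 2 - ⟪ν, z⟫ ^ 2 := by
    rw [← real_inner_self_eq_norm_sq, ← real_inner_self_eq_norm_sq]
    simp only [inner_sub_left, inner_sub_right, real_inner_smul_left, real_inner_smul_right, hss, hνν,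
      hνs, hsν, real_inner_comm s z, real_inner_comm ν z]
    ring
  have h5 := abs_real_inner_le_norm (z - ⟪s, z⟫ • s - ⟪ν, z⟫ • ν) v
  rw [h3] at h5
  have h6 : ⟪z, v⟫ ^ 2 ≤ (‖z - ⟪s, z⟫ • s - ⟪ν, z⟫ • ν‖ * ‖v‖) ^ 2 := by
    rw [← sq_abs]
    exact pow_le_pow_left₀ (abs_nonneg _) h5 2
  rw [mul_pow, h4] at h6
  nlinarith

variable [MeasurableSpace U] [BorelSpace U]

private theorem kc_split (ν : U) (hν : ‖ν‖ = 1) (μ : Measure ↥(ℝ ∙ ν)ᗮ) [μ.IsAddHaarMeasure] :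
    ∃ c : ℝ≥0∞, ∀ F : U → ℝ≥0∞, Measurable F →
      ∫⁻ x, F x = c * ∫⁻ w, ∫⁻ t : ℝ, F ((w : U) + t • ν) ∂volume ∂μ := by
  have h1 : Measure.IsAddHaarMeasure ((μ.prod (volume : Measure ℝ)).map (kcE ν hν)) := inferInstance
  refine ⟨Measure.addHaarScalarFactor (volume : Measure U) ((μ.prod (volume : Measure ℝ)).map (kcE ν hν)),
    fun F hF => ?_⟩
  have h2 := Measure.isAddLeftInvariant_eq_smul (volume : Measure U)
    ((μ.prod (volume : Measure ℝ)).map (kcE ν hν))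
  have h3 : Measurable (kcE ν hν) := (kcE ν hν).continuous.measurable
  conv_lhs => rw [h2]
  rw [lintegral_smul_measure, lintegral_map hF h3,
    lintegral_prod (fun p => F (kcE ν hν p)) (hF.comp h3).aemeasurable]
  rfl

private theorem kc_reduce (D : ℕ) (hD : 2 ≤ D) (hU : Module.finrank ℝ U = D) (ν : U) (hν : ‖ν‖ = 1)
    (F₁ F₂ : U → ℝ≥0∞) (m₁ : Measurable F₁) (m₂ : Measurable F₂)
    (H : ∀ s : U, ‖s‖ = 1 → ⟪ν, s⟫ = 0 →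
      ∫⁻ ρ in Ioi (0 : ℝ), ENNReal.ofReal (ρ ^ (D - 2)) * ∫⁻ t : ℝ, F₁ (ρ • s + t • ν)
        ≤ ∫⁻ ρ in Ioi (0 : ℝ), ENNReal.ofReal (ρ ^ (D - 2)) * ∫⁻ t : ℝ, F₂ (ρ • s + t • ν)) :
    ∫⁻ x, F₁ x ≤ ∫⁻ x, F₂ x := by
  have hν0 : ν ≠ 0 := by
    intro h
    rw [h, norm_zero] at hν
    exact zero_ne_one hν
  have hfr : Module.finrank ℝ ↥(ℝ ∙ ν)ᗮ = D - 1 := by
    have h1 := Submodule.finrank_add_finrank_orthogonal (ℝ ∙ ν)
    rw [finrank_span_singleton hν0, hU] at h1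
    omega
  have hnt : Nontrivial ↥(ℝ ∙ ν)ᗮ := Module.nontrivial_of_finrank_pos (R := ℝ) (by rw [hfr]; omega)
  let μ : Measure ↥(ℝ ∙ ν)ᗮ := volume
  obtain ⟨c, hc⟩ := kc_split ν hν μ
  rw [hc _ m₁, hc _ m₂]
  refine mul_le_mul_right ?_ c
  have hadd : Measurable fun p : ↥(ℝ ∙ ν)ᗮ × ℝ => (p.1 : U) + p.2 • ν := by fun_prop
  have g₁ : Measurable fun w : ↥(ℝ ∙ ν)ᗮ => ∫⁻ t : ℝ, F₁ ((w : U) + t • ν) :=
    (m₁.comp hadd).lintegral_prod_right'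
  have g₂ : Measurable fun w : ↥(ℝ ∙ ν)ᗮ => ∫⁻ t : ℝ, F₂ ((w : U) + t • ν) :=
    (m₂.comp hadd).lintegral_prod_right'
  rw [kc_polar μ _ g₁, kc_polar μ _ g₂, hfr, Nat.sub_sub]
  refine lintegral_mono fun s => ?_
  exact H ((s : ↥(ℝ ∙ ν)ᗮ) : U) (mem_sphere_zero_iff_norm.1 s.2)
    (Submodule.mem_orthogonal_singleton_iff_inner_right.1 (s : ↥(ℝ ∙ ν)ᗮ).2)

/-- Piece C, from the inequality of piece B for `N = D` -/
theorem kernel_ineq_of (D : ℕ) (hD : 2 ≤ D) (hU : Module.finrank ℝ U = D)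
    (hB : ∀ ξ η : ℝ, ∫⁻ ρ in Ioi (0 : ℝ), ∫⁻ t : ℝ, ENNReal.ofReal (((D : ℝ) + 3)
        * (ρ ^ D * |ξ * ρ + η * t| * (ξ * ρ + η * t) ^ 2 * exp (-(ρ ^ 2 + t ^ 2) / 2)))
      ≤ ∫⁻ ρ in Ioi (0 : ℝ), ∫⁻ t : ℝ, ENNReal.ofReal (((D : ℝ) + 2) * (ξ ^ 2 + η ^ 2)
        * (ρ ^ D * |ξ * ρ + η * t| * (ρ ^ 2 + t ^ 2) * exp (-(ρ ^ 2 + t ^ 2) / 2))))
    (A : U →L[ℝ] U) (ν z : U) (hν : ‖ν‖ = 1) (hAν : A ν = 0) (hskew : ∀ x y, ⟪A x, y⟫ = -⟪x, A y⟫)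
    (f : U → ℝ≥0∞) (hf : Measurable f) (hom : ∀ (c : ℝ) (Y : U), 0 < c → f (c • Y) = f Y) :
    ∫⁻ x : U, ENNReal.ofReal (((D : ℝ) + 3)
        * (|⟪x, z⟫| * ‖A x‖ ^ 2 * ⟪x, z⟫ ^ 2 * exp (-‖x‖ ^ 2 / 2))) * f (A x)
      ≤ ∫⁻ x : U, ENNReal.ofReal (((D : ℝ) + 2)
        * (|⟪x, z⟫| * ‖x‖ ^ 2 * (‖z‖ ^ 2 * ‖A x‖ ^ 2 - ⟪z, A x⟫ ^ 2)
          * exp (-‖x‖ ^ 2 / 2))) * f (A x) := by
  have hfA : Measurable fun x => f (A x) := hf.comp A.continuous.measurable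
  refine kc_reduce D hD hU ν hν _ _ ?_ ?_ ?_
  · refine Measurable.mul (Measurable.ennreal_ofReal (Continuous.measurable ?_)) hfA
    fun_prop
  · refine Measurable.mul (Measurable.ennreal_ofReal (Continuous.measurable ?_)) hfA
    fun_prop
  intro s hs hsν
  have hνs : ⟪s, ν⟫ = 0 := by rw [real_inner_comm]; exact hsν
  have k1 : ∀ ρ t : ℝ, ⟪ρ • s + t • ν, z⟫ = ⟪s, z⟫ * ρ + ⟪ν, z⟫ * t := by
    intro ρ t
    rw [inner_add_left, real_inner_smul_left, real_inner_smul_left]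
    ring
  have k2 : ∀ ρ t : ℝ, A (ρ • s + t • ν) = ρ • A s := by
    intro ρ t
    rw [map_add, map_smul, map_smul, hAν, smul_zero, add_zero]
  have k3 : ∀ ρ t : ℝ, ‖ρ • s + t • ν‖ ^ 2 = ρ ^ 2 + t ^ 2 := by
    intro ρ t
    rw [norm_add_sq_real, real_inner_smul_left, real_inner_smul_right, hνs, norm_smul, norm_smul, hs, hν,
      mul_one, mul_one, Real.norm_eq_abs, Real.norm_eq_abs, sq_abs, sq_abs]
    ring
  have k4 : ∀ ρ : ℝ, ‖ρ • A s‖ ^ 2 = ρ ^ 2 * ‖A s‖ ^ 2 := by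
    intro ρ
    rw [norm_smul, mul_pow, Real.norm_eq_abs, sq_abs]
  have k5 : ⟪A s, s⟫ = 0 := by
    have h1 := hskew s s
    have h2 := real_inner_comm s (A s)
    linarith
  have k6 : ⟪A s, ν⟫ = 0 := by rw [hskew, hAν, inner_zero_right, neg_zero]
  have k7 := kc_bessel (z := z) hs hν hsν k5 k6
  have k8 : ∀ ρ : ℝ, 0 < ρ → ρ ^ (D - 2) * ρ ^ 2 = ρ ^ D := by
    intro ρ _
    rw [← pow_add, Nat.sub_add_cancel hD]
  have c1 : ∀ ρ : ℝ, 0 < ρ → ENNReal.ofReal (ρ ^ (D - 2)) * (∫⁻ t : ℝ, ENNReal.ofReal (((D : ℝ) + 3)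
        * (|⟪ρ • s + t • ν, z⟫| * ‖A (ρ • s + t • ν)‖ ^ 2 * ⟪ρ • s + t • ν, z⟫ ^ 2
          * exp (-‖ρ • s + t • ν‖ ^ 2 / 2))) * f (A (ρ • s + t • ν))) =
      (ENNReal.ofReal (‖A s‖ ^ 2) * f (A s)) * ∫⁻ t : ℝ, ENNReal.ofReal (((D : ℝ) + 3)
        * (ρ ^ D * |⟪s, z⟫ * ρ + ⟪ν, z⟫ * t| * (⟪s, z⟫ * ρ + ⟪ν, z⟫ * t) ^ 2
          * exp (-(ρ ^ 2 + t ^ 2) / 2))) := by
    intro ρ hρ
    rw [← lintegral_const_mul, ← lintegral_const_mul]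
    · refine lintegral_congr fun t => ?_
      rw [k1, k2, k3, k4, hom ρ _ hρ, ← mul_assoc, mul_right_comm (ENNReal.ofReal (‖A s‖ ^ 2)),
        ← ENNReal.ofReal_mul (by positivity), ← ENNReal.ofReal_mul (by positivity), ← k8 ρ hρ]
      congr 2
      ring
    · exact (Continuous.measurable (by fun_prop)).ennreal_ofReal
    · simp only [k1, k2, k3, k4]
      refine Measurable.mul (Measurable.ennreal_ofReal (Continuous.measurable ?_)) measurable_const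
      fun_prop
  have c2 : ∀ ρ : ℝ, 0 < ρ → (ENNReal.ofReal (‖A s‖ ^ 2) * f (A s)) * (∫⁻ t : ℝ, ENNReal.ofReal
        (((D : ℝ) + 2) * (⟪s, z⟫ ^ 2 + ⟪ν, z⟫ ^ 2)
        * (ρ ^ D * |⟪s, z⟫ * ρ + ⟪ν, z⟫ * t| * (ρ ^ 2 + t ^ 2) * exp (-(ρ ^ 2 + t ^ 2) / 2)))) ≤
      ENNReal.ofReal (ρ ^ (D - 2)) * ∫⁻ t : ℝ, ENNReal.ofReal (((D : ℝ) + 2)
        * (|⟪ρ • s + t • ν, z⟫| * ‖ρ • s + t • ν‖ ^ 2
          * (‖z‖ ^ 2 * ‖A (ρ • s + t • ν)‖ ^ 2 - ⟪z, A (ρ • s + t • ν)⟫ ^ 2)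
          * exp (-‖ρ • s + t • ν‖ ^ 2 / 2))) * f (A (ρ • s + t • ν)) := by
    intro ρ hρ
    rw [← lintegral_const_mul, ← lintegral_const_mul]
    · refine lintegral_mono fun t => ?_
      rw [k1, k2, k3, k4, hom ρ _ hρ, ← mul_assoc (ENNReal.ofReal (ρ ^ (D - 2))),
        mul_right_comm (ENNReal.ofReal (‖A s‖ ^ 2)),
        ← ENNReal.ofReal_mul (by positivity), ← ENNReal.ofReal_mul (by positivity), ← k8 ρ hρ]
      refine mul_le_mul_left (ENNReal.ofReal_le_ofReal ?_) _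
      rw [real_inner_smul_right]
      have e1 : ‖A s‖ ^ 2 * (((D : ℝ) + 2) * (⟪s, z⟫ ^ 2 + ⟪ν, z⟫ ^ 2)
          * (ρ ^ (D - 2) * ρ ^ 2 * |⟪s, z⟫ * ρ + ⟪ν, z⟫ * t| * (ρ ^ 2 + t ^ 2) * exp (-(ρ ^ 2 + t ^ 2) / 2)))
          = (((D : ℝ) + 2) * (ρ ^ (D - 2) * ρ ^ 2 * |⟪s, z⟫ * ρ + ⟪ν, z⟫ * t| * (ρ ^ 2 + t ^ 2)
            * exp (-(ρ ^ 2 + t ^ 2) / 2))) * (‖A s‖ ^ 2 * (⟪s, z⟫ ^ 2 + ⟪ν, z⟫ ^ 2)) := by ring
      have e2 : ρ ^ (D - 2) * (((D : ℝ) + 2) * (|⟪s, z⟫ * ρ + ⟪ν, z⟫ * t| * (ρ ^ 2 + t ^ 2)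
          * (‖z‖ ^ 2 * (ρ ^ 2 * ‖A s‖ ^ 2) - (ρ * ⟪z, A s⟫) ^ 2) * exp (-(ρ ^ 2 + t ^ 2) / 2)))
          = (((D : ℝ) + 2) * (ρ ^ (D - 2) * ρ ^ 2 * |⟪s, z⟫ * ρ + ⟪ν, z⟫ * t| * (ρ ^ 2 + t ^ 2)
            * exp (-(ρ ^ 2 + t ^ 2) / 2))) * (‖z‖ ^ 2 * ‖A s‖ ^ 2 - ⟪z, A s⟫ ^ 2) := by ring
      rw [e1, e2]
      exact mul_le_mul_of_nonneg_left k7 (by positivity)
    · simp only [k1, k2, k3, k4]
      refine Measurable.mul (Measurable.ennreal_ofReal (Continuous.measurable ?_)) measurable_const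
      fun_prop
    · exact (Continuous.measurable (by fun_prop)).ennreal_ofReal
  have mm : ∀ (a : ℝ) (b : ℝ → ℝ → ℝ), Continuous (Function.uncurry b) →
      Measurable fun ρ : ℝ => ∫⁻ t : ℝ, ENNReal.ofReal (a * b ρ t) := by
    intro a b hb
    have : Measurable fun p : ℝ × ℝ => ENNReal.ofReal (a * Function.uncurry b p) :=
      (Continuous.measurable (by fun_prop)).ennreal_ofReal
    exact this.lintegral_prod_right'
  rw [setLIntegral_congr_fun measurableSet_Ioi fun ρ hρ => c1 ρ hρ]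
  refine le_trans ?_ (setLIntegral_mono' measurableSet_Ioi fun ρ hρ => c2 ρ hρ)
  rw [lintegral_const_mul, lintegral_const_mul]
  · exact mul_le_mul_right (hB _ _) _
  · refine mm _ (fun ρ t => ρ ^ D * |⟪s, z⟫ * ρ + ⟪ν, z⟫ * t| * (ρ ^ 2 + t ^ 2)
      * exp (-(ρ ^ 2 + t ^ 2) / 2)) ?_
    fun_prop
  · refine mm _ (fun ρ t => ρ ^ D * |⟪s, z⟫ * ρ + ⟪ν, z⟫ * t| * (⟪s, z⟫ * ρ + ⟪ν, z⟫ * t) ^ 2
      * exp (-(ρ ^ 2 + t ^ 2) / 2)) ?_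
    fun_prop

end C

end Pool.Agent.H91.OD

/-!
`kernel_ineq` from `halfplane` (piece B), statement of the stub file, same variables:
  kernel_ineq D hD hU A ν z hν hAν hskew f hf hom :=
    kernel_ineq_of D hD hU (fun ξ η => halfplane D hD ξ η) A ν z hν hAν hskew f hf hom
-/
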