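import Pool.Agent.H91.OD.KI

set_option autoImplicit false

/-! Piece G of project OC2. -/

namespace Pool.Agent.H91.OD

open MeasureTheory Set Real
open scoped ENNReal RealInnerProductSpace



section G
variable {V : Type*} [NormedAddCommGroup V] [InnerProductSpace ℝ V] [FiniteDimensional ℝ V]
  [MeasurableSpace V] [BorelSpace V]

noncomputable def K₁ (m : ℕ) (B : V →ₗ[ℝ] V →ₗ[ℝ] V) (z x y : V) : ℝ :=
  ((m : ℝ) + 2) * (‖B x y‖ ^ 2 * ‖⟪x, z⟫ • y - ⟪y, z⟫ • x‖ ^ 2 * exp (-(‖x‖ ^ 2 + ‖y‖ ^ 2) / 2))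

noncomputable def K₂ (m : ℕ) (B : V →ₗ[ℝ] V →ₗ[ℝ] V) (z x y : V) : ℝ :=
  ((m : ℝ) + 1) * ((‖x‖ ^ 2 * ‖y‖ ^ 2 - ⟪x, y⟫ ^ 2) * (‖z‖ ^ 2 * ‖B x y‖ ^ 2 - ⟪z, B x y⟫ ^ 2)
    * exp (-(‖x‖ ^ 2 + ‖y‖ ^ 2) / 2))

/-- integration over a subspace and its orthogonal complement -/
private theorem lintegral_split (K : Submodule ℝ V) (F : V → ℝ≥0∞) (hF : Measurable F) :
    ∫⁻ x : V, F x = ∫⁻ s : K, ∫⁻ v : Kᗮ, F ((s : V) + (v : V)) := by
  have h1 : MeasurePreserving (K.orthogonalDecomposition.symm : WithLp 2 (K × Kᗮ) → V) :=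
    K.orthogonalDecomposition.symm.measurePreserving
  have h2 : MeasurePreserving (WithLp.toLp 2 : K × Kᗮ → WithLp 2 (K × Kᗮ)) := WithLp.volume_preserving_toLp _ _
  have h3 := h1.comp h2
  have h4 : (K.orthogonalDecomposition.symm : WithLp 2 (K × Kᗮ) → V) ∘ (WithLp.toLp 2 : K × Kᗮ → WithLp 2 (K × Kᗮ)) =
      fun q => (q.1 : V) + (q.2 : V) := by
    funext q
    simp
  rw [h4] at h3
  rw [← h3.lintegral_comp hF, Measure.volume_eq_prod]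
  exact lintegral_prod (fun q : K × Kᗮ => F ((q.1 : V) + (q.2 : V))) (hF.comp h3.measurable).aemeasurable

private theorem alt_neg (B : V →ₗ[ℝ] V →ₗ[ℝ] V) (alt : ∀ x, B x x = 0) (x y : V) : B x y = -B y x := by
  have h := alt (x + y)
  simp only [map_add, LinearMap.add_apply, alt, zero_add, add_zero] at h
  exact eq_neg_of_add_eq_zero_right h

/-- Piece G -/
theorem slice (m : ℕ) (hm : 3 ≤ m) (hV : Module.finrank ℝ V = m) (B : V →ₗ[ℝ] V →ₗ[ℝ] V)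
    (alt : ∀ x, B x x = 0) (orth : ∀ x y, ⟪B x y, x⟫ = 0) (z y ν : V) (hyz : ⟪y, z⟫ = 0)
    (hy : y ≠ 0) (hν : ‖ν‖ = 1) (hνy : ⟪ν, y⟫ = 0) (hB : B ν y = 0)
    (f : V → ℝ≥0∞) (hf : Measurable f) (hom : ∀ (c : ℝ) (Y : V), 0 < c → f (c • Y) = f Y) :
    ∫⁻ x : V, ENNReal.ofReal |⟪x, z⟫| * (ENNReal.ofReal (K₁ m B z x y) * f (B x y))
      ≤ ∫⁻ x : V, ENNReal.ofReal |⟪x, z⟫| * (ENNReal.ofReal (K₂ m B z x y) * f (B x y)) := by
  -- the line and its complement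
  set K : Submodule ℝ V := Submodule.span ℝ {y} with hK
  have hmem : ∀ v : V, v ∈ Kᗮ ↔ ⟪y, v⟫ = 0 := fun v => Submodule.mem_orthogonal_singleton_iff_inner_right
  have hBy : ∀ u : V, ⟪y, B u y⟫ = 0 := by
    intro u
    rw [alt_neg B alt u y, inner_neg_right, real_inner_comm, orth, neg_zero]
  have hskew0 : ∀ u v : V, ⟪B u y, v⟫ = -⟪u, B v y⟫ := by
    intro u v
    have h := orth (u + v) y
    rw [map_add, LinearMap.add_apply, inner_add_left, inner_add_right, inner_add_right, orth, orth, zero_add,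
      add_zero] at h
    rw [real_inner_comm (B v y) u]
    linarith
  let A₀ : Kᗮ →ₗ[ℝ] Kᗮ := LinearMap.codRestrict Kᗮ ((B.flip y) ∘ₗ Kᗮ.subtype) fun u => (hmem _).2 (hBy _)
  let A : Kᗮ →L[ℝ] Kᗮ := LinearMap.toContinuousLinearMap A₀
  have hA : ∀ u : Kᗮ, ((A u : Kᗮ) : V) = B (u : V) y := fun u => rfl
  let z' : Kᗮ := ⟨z, (hmem z).2 hyz⟩
  let ν' : Kᗮ := ⟨ν, (hmem ν).2 (by rw [real_inner_comm]; exact hνy)⟩
  have hfin : Module.finrank ℝ Kᗮ = m - 1 := by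
    have h1 := Submodule.finrank_add_finrank_orthogonal K
    have h2 : Module.finrank ℝ K = 1 := finrank_span_singleton hy
    rw [h2, hV] at h1
    omega
  have hm1 : ((m - 1 : ℕ) : ℝ) = (m : ℝ) - 1 := by
    rw [Nat.cast_sub (by omega), Nat.cast_one]
  have key := kernel_ineq (m - 1) (by omega) hfin A ν' z' hν (Subtype.ext hB)
    (fun u v => hskew0 u v) (fun v => f (v : V)) (hf.comp measurable_subtype_coe)
    (fun c Y hc => hom c Y hc)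
  -- measurability
  have hBc : Continuous fun x : V => B x y := (B.flip y).continuous_of_finiteDimensional
  have hfB : Measurable fun x : V => f (B x y) := hf.comp hBc.measurable
  have hM₁ : Measurable fun x : V => ENNReal.ofReal |⟪x, z⟫| * (ENNReal.ofReal (K₁ m B z x y) * f (B x y)) := by
    refine Measurable.mul ?_ (Measurable.mul ?_ hfB)
    · exact ENNReal.measurable_ofReal.comp (by fun_prop)
    · refine ENNReal.measurable_ofReal.comp (Continuous.measurable ?_)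
      unfold K₁
      fun_prop
  have hM₂ : Measurable fun x : V => ENNReal.ofReal |⟪x, z⟫| * (ENNReal.ofReal (K₂ m B z x y) * f (B x y)) := by
    refine Measurable.mul ?_ (Measurable.mul ?_ hfB)
    · exact ENNReal.measurable_ofReal.comp (by fun_prop)
    · refine ENNReal.measurable_ofReal.comp (Continuous.measurable ?_)
      unfold K₂
      fun_prop
  rw [lintegral_split K _ hM₁, lintegral_split K _ hM₂]
  -- the factor
  let w : K → ℝ := fun s => ‖y‖ ^ 2 * exp (-(‖(s : V)‖ ^ 2 + ‖y‖ ^ 2) / 2)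
  have hw : ∀ s, 0 ≤ w s := fun s => by positivity
  have hs : ∀ s : K, ∃ c : ℝ, c • y = (s : V) := fun s => Submodule.mem_span_singleton.1 s.2
  have hdec : ∀ (s : K) (v : Kᗮ), B ((s : V) + (v : V)) y = B (v : V) y ∧ ⟪(s : V) + (v : V), z⟫ = ⟪(v : V), z⟫ ∧
      ‖(s : V) + (v : V)‖ ^ 2 = ‖(s : V)‖ ^ 2 + ‖(v : V)‖ ^ 2 ∧
      ‖(s : V) + (v : V)‖ ^ 2 * ‖y‖ ^ 2 - ⟪(s : V) + (v : V), y⟫ ^ 2 = ‖(v : V)‖ ^ 2 * ‖y‖ ^ 2 := by
    intro s v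
    obtain ⟨c, hc⟩ := hs s
    have hv : ⟪y, (v : V)⟫ = 0 := (hmem _).1 v.2
    have hsv : ⟪(s : V), (v : V)⟫ = 0 := by rw [← hc, inner_smul_left, hv, mul_zero]
    have hn : ‖(s : V) + (v : V)‖ ^ 2 = ‖(s : V)‖ ^ 2 + ‖(v : V)‖ ^ 2 := by
      rw [norm_add_sq_real, hsv]
      ring
    refine ⟨?_, ?_, hn, ?_⟩
    · rw [map_add, LinearMap.add_apply, ← hc, map_smul, LinearMap.smul_apply, alt, smul_zero, zero_add]
    · rw [inner_add_left, ← hc, inner_smul_left, hyz, mul_zero, zero_add]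
    · rw [hn, inner_add_left, ← hc, inner_smul_left, real_inner_comm y (v : V), hv, norm_smul, real_inner_self_eq_norm_sq,
        Real.norm_eq_abs, mul_pow, sq_abs]
      simp only [conj_trivial]
      ring
  have h1 : ∀ (s : K) (v : Kᗮ), ENNReal.ofReal |⟪(s : V) + (v : V), z⟫| *
      (ENNReal.ofReal (K₁ m B z ((s : V) + (v : V)) y) * f (B ((s : V) + (v : V)) y)) =
      ENNReal.ofReal (w s) * (ENNReal.ofReal ((((m - 1 : ℕ) : ℝ) + 3)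
        * (|⟪v, z'⟫| * ‖A v‖ ^ 2 * ⟪v, z'⟫ ^ 2 * exp (-‖v‖ ^ 2 / 2))) * f ((A v : Kᗮ) : V)) := by
    intro s v
    obtain ⟨e1, e2, e3, -⟩ := hdec s v
    have e4 : K₁ m B z ((s : V) + (v : V)) y = ((m : ℝ) + 2) * (‖B (v : V) y‖ ^ 2 * (⟪(v : V), z⟫ ^ 2 * ‖y‖ ^ 2)
        * exp (-(‖(s : V)‖ ^ 2 + ‖(v : V)‖ ^ 2 + ‖y‖ ^ 2) / 2)) := by
      unfold K₁
      rw [e1, e2, e3, hyz, zero_smul, sub_zero, norm_smul, mul_pow, Real.norm_eq_abs, sq_abs]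
    rw [e1, e2, e4, ← mul_assoc (ENNReal.ofReal |⟪(v : V), z⟫|), ← mul_assoc (ENNReal.ofReal (w s)),
      ← ENNReal.ofReal_mul (abs_nonneg _), ← ENNReal.ofReal_mul (hw s), hA]
    congr 2
    have e5 : exp (-(‖(s : V)‖ ^ 2 + ‖(v : V)‖ ^ 2 + ‖y‖ ^ 2) / 2) =
        exp (-(‖(s : V)‖ ^ 2 + ‖y‖ ^ 2) / 2) * exp (-‖(v : V)‖ ^ 2 / 2) := by
      rw [← exp_add]
      congr 1
      ring
    have e6 : ⟪v, z'⟫ = ⟪(v : V), z⟫ := rfl
    have e7 : ‖A v‖ = ‖B (v : V) y‖ := rfl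
    have e8 : ‖v‖ = ‖(v : V)‖ := rfl
    rw [e5, e6, e7, e8, hm1]
    ring
  have h2 : ∀ (s : K) (v : Kᗮ), ENNReal.ofReal |⟪(s : V) + (v : V), z⟫| *
      (ENNReal.ofReal (K₂ m B z ((s : V) + (v : V)) y) * f (B ((s : V) + (v : V)) y)) =
      ENNReal.ofReal (w s) * (ENNReal.ofReal ((((m - 1 : ℕ) : ℝ) + 2)
        * (|⟪v, z'⟫| * ‖v‖ ^ 2 * (‖z'‖ ^ 2 * ‖A v‖ ^ 2 - ⟪z', A v⟫ ^ 2) * exp (-‖v‖ ^ 2 / 2))) * f ((A v : Kᗮ) : V)) := by
    intro s v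
    obtain ⟨e1, e2, e3, e3'⟩ := hdec s v
    have e4 : K₂ m B z ((s : V) + (v : V)) y = ((m : ℝ) + 1) * ((‖(v : V)‖ ^ 2 * ‖y‖ ^ 2) *
        (‖z‖ ^ 2 * ‖B (v : V) y‖ ^ 2 - ⟪z, B (v : V) y⟫ ^ 2)
        * exp (-(‖(s : V)‖ ^ 2 + ‖(v : V)‖ ^ 2 + ‖y‖ ^ 2) / 2)) := by
      unfold K₂
      rw [e3', e1, e3]
    rw [e1, e2, e4, ← mul_assoc (ENNReal.ofReal |⟪(v : V), z⟫|), ← mul_assoc (ENNReal.ofReal (w s)),
      ← ENNReal.ofReal_mul (abs_nonneg _), ← ENNReal.ofReal_mul (hw s), hA]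
    congr 2
    have e5 : exp (-(‖(s : V)‖ ^ 2 + ‖(v : V)‖ ^ 2 + ‖y‖ ^ 2) / 2) =
        exp (-(‖(s : V)‖ ^ 2 + ‖y‖ ^ 2) / 2) * exp (-‖(v : V)‖ ^ 2 / 2) := by
      rw [← exp_add]
      congr 1
      ring
    have e6 : ⟪v, z'⟫ = ⟪(v : V), z⟫ := rfl
    have e7 : ‖A v‖ = ‖B (v : V) y‖ := rfl
    have e8 : ‖v‖ = ‖(v : V)‖ := rfl
    have e9 : ‖z'‖ = ‖z‖ := rfl
    have e10 : ⟪z', A v⟫ = ⟪z, B (v : V) y⟫ := rfl
    rw [e5, e6, e7, e8, e9, e10, hm1]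
    ring
  refine lintegral_mono fun s => ?_
  simp_rw [h1, h2]
  rw [lintegral_const_mul' _ _ ENNReal.ofReal_ne_top, lintegral_const_mul' _ _ ENNReal.ofReal_ne_top]
  exact mul_le_mul_right key _

end G

end Pool.Agent.H91.OD
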