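import Pool.Agent.H91.OD.Tri

set_option autoImplicit false

/-! Integration of the inequality for pairs: the three-form inequality in components. -/

namespace Pool.Agent.H91.OD

open Pool.Agent.H61.YP Pool.Agent.H8.RG Pool.Agent.H91.OC
open MeasureTheory Set Real
open scoped ENNReal RealInnerProductSpace BigOperators

variable {m : ℕ}

lemma int4 : Integrable fun x : E m => ‖x‖ ^ 4 * exp (-‖x‖ ^ 2 / 2) := by
  have h := (gauss_mul m dl dl).1
  refine h.congr (Filter.Eventually.of_forall fun x => ?_)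
  simp only
  rw [← ss_eq]
  unfold ss
  rw [← norm_coord]
  ring

lemma exp_split (x y : E m) :
    exp (-(‖x‖ ^ 2 + ‖y‖ ^ 2) / 2) = exp (-‖x‖ ^ 2 / 2) * exp (-‖y‖ ^ 2 / 2) := by
  rw [← exp_add]
  congr 1
  ring

/-- integrability of bihomogeneous functions against the Gaussian -/
lemma int_bihom (F : E m × E m → ℝ) (hF : Continuous F)
    (hom : ∀ (a b : ℝ) (x y : E m), F (a • x, b • y) = a ^ 4 * b ^ 4 * F (x, y)) :
    Integrable (fun p : E m × E m => F p * exp (-(‖p.1‖ ^ 2 + ‖p.2‖ ^ 2) / 2))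
      (volume.prod volume) := by
  obtain ⟨C, hC⟩ := ((isCompact_closedBall (0 : E m) 1).prod
    (isCompact_closedBall (0 : E m) 1)).exists_bound_of_continuousOn hF.continuousOn
  have key : ∀ x y : E m, |F (x, y)| ≤ C * (‖x‖ ^ 4 * ‖y‖ ^ 4) := by
    intro x y
    have hx : ∀ u : E m, ‖u‖ • (‖u‖⁻¹ • u) = u := by
      intro u
      by_cases h : u = 0
      · simp [h]
      · rw [smul_smul, mul_inv_cancel₀ (norm_ne_zero_iff.mpr h), one_smul]
    have hn : ∀ u : E m, ‖‖u‖⁻¹ • u‖ ≤ 1 := by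
      intro u
      rw [norm_smul, norm_inv, norm_norm]
      by_cases h : u = 0
      · simp [h]
      · rw [inv_mul_cancel₀ (norm_ne_zero_iff.mpr h)]
    have h1 := hC (‖x‖⁻¹ • x, ‖y‖⁻¹ • y) (by
      refine ⟨?_, ?_⟩
      · simpa using hn x
      · simpa using hn y)
    have h2 := hom ‖x‖ ‖y‖ (‖x‖⁻¹ • x) (‖y‖⁻¹ • y)
    rw [hx, hx] at h2
    rw [h2, abs_mul, abs_of_nonneg (by positivity : (0 : ℝ) ≤ ‖x‖ ^ 4 * ‖y‖ ^ 4), mul_comm]
    rw [Real.norm_eq_abs] at h1
    exact mul_le_mul_of_nonneg_right h1 (by positivity)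
  have hdom : Integrable (fun p : E m × E m => C * ((‖p.1‖ ^ 4 * exp (-‖p.1‖ ^ 2 / 2))
      * (‖p.2‖ ^ 4 * exp (-‖p.2‖ ^ 2 / 2)))) (volume.prod volume) :=
    (int4.mul_prod int4).const_mul C
  refine hdom.mono' ?_ ?_
  · refine Continuous.aestronglyMeasurable ?_
    fun_prop
  · refine Filter.Eventually.of_forall fun p => ?_
    rw [Real.norm_eq_abs, abs_mul, abs_of_nonneg (exp_pos _).le, exp_split]
    have := key p.1 p.2
    calc |F p| * (exp (-‖p.1‖ ^ 2 / 2) * exp (-‖p.2‖ ^ 2 / 2))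
        ≤ (C * (‖p.1‖ ^ 4 * ‖p.2‖ ^ 4)) * (exp (-‖p.1‖ ^ 2 / 2) * exp (-‖p.2‖ ^ 2 / 2)) :=
          mul_le_mul_of_nonneg_right this (by positivity)
      _ = _ := by ring

variable {t : Fin m → Fin m → Fin m → ℝ}

lemma Bt_smul (a b : ℝ) (x y : E m) : Bt t (a • x) (b • y) = (a * b) • Bt t x y := by
  rw [map_smul, map_smul, LinearMap.smul_apply, smul_smul, mul_comm b a]

lemma gr_smul (a b : ℝ) (x y : E m) : gr (a • x) (b • y) = a ^ 2 * b ^ 2 * gr x y := by
  unfold gr
  rw [norm_smul, norm_smul, real_inner_smul_left, real_inner_smul_right, mul_pow, mul_pow,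
    Real.norm_eq_abs, Real.norm_eq_abs, sq_abs, sq_abs]
  ring

lemma GG_smul (a b : ℝ) (x y : E m) (j k : Fin m) :
    GG (a • x) (b • y) j k = a ^ 2 * b ^ 2 * GG x y j k := by
  unfold GG
  rw [norm_smul, norm_smul, real_inner_smul_left, real_inner_smul_right, mul_pow, mul_pow,
    Real.norm_eq_abs, Real.norm_eq_abs, sq_abs, sq_abs]
  simp only [PiLp.smul_apply, smul_eq_mul]
  ring

lemma normB_smul (a b : ℝ) (x y : E m) :
    ‖Bt t (a • x) (b • y)‖ ^ 2 = a ^ 2 * b ^ 2 * ‖Bt t x y‖ ^ 2 := by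
  rw [Bt_smul, norm_smul, mul_pow, Real.norm_eq_abs, sq_abs]
  ring

lemma S0_smul (a b : ℝ) (x y : E m) (j k : Fin m) :
    S0 t (a • x) (b • y) j k = a ^ 4 * b ^ 4 * S0 t x y j k := by
  unfold S0
  rw [normB_smul, gr_smul, GG_smul, Bt_smul]
  simp only [PiLp.smul_apply, smul_eq_mul]
  ring

lemma contB : Continuous fun p : E m × E m => Bt t p.1 p.2 := B_cont (Bt t)

lemma contBc (c : Fin m) : Continuous fun p : E m × E m => Bt t p.1 p.2 c := by
  exact (EuclideanSpace.proj (𝕜 := ℝ) c).continuous.comp (contB (t := t))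

lemma cont_gr : Continuous fun p : E m × E m => gr p.1 p.2 := by
  unfold gr
  fun_prop

lemma cont_GG (j k : Fin m) : Continuous fun p : E m × E m => GG p.1 p.2 j k := by
  unfold GG
  fun_prop

lemma cont_S0 (j k : Fin m) : Continuous fun p : E m × E m => S0 t p.1 p.2 j k := by
  have h1 := contB (t := t)
  have h2 := contBc (t := t) j
  have h3 := contBc (t := t) k
  have h4 := cont_gr (m := m)
  have h5 := cont_GG j k
  unfold S0
  fun_prop

lemma int_S0 (j k : Fin m) : Integrable (fun p : E m × E m =>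
    S0 t p.1 p.2 j k * exp (-(‖p.1‖ ^ 2 + ‖p.2‖ ^ 2) / 2)) (volume.prod volume) :=
  int_bihom (fun p => S0 t p.1 p.2 j k) (cont_S0 j k) fun a b x y => S0_smul a b x y j k

lemma int_K₁ (z : E m) : Integrable (fun p : E m × E m => K₁ m (Bt t) z p.1 p.2)
    (volume.prod volume) := by
  have h1 := contB (t := t)
  have h := int_bihom (m := m) (fun p => ((m : ℝ) + 2) * (‖Bt t p.1 p.2‖ ^ 2
    * ‖⟪p.1, z⟫ • p.2 - ⟪p.2, z⟫ • p.1‖ ^ 2)) (by fun_prop) (fun a b x y => by
      simp only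
      rw [normB_smul]
      have : ⟪a • x, z⟫ • b • y - ⟪b • y, z⟫ • a • x = (a * b) • (⟪x, z⟫ • y - ⟪y, z⟫ • x) := by
        rw [real_inner_smul_left, real_inner_smul_left]
        module
      rw [this, norm_smul, mul_pow, Real.norm_eq_abs, sq_abs]
      ring)
  refine h.congr (Filter.Eventually.of_forall fun p => ?_)
  simp only [K₁]
  ring

lemma int_K₂ (z : E m) : Integrable (fun p : E m × E m => K₂ m (Bt t) z p.1 p.2)
    (volume.prod volume) := by
  have h1 := contB (t := t)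
  have h4 := cont_gr (m := m)
  have h := int_bihom (m := m) (fun p => ((m : ℝ) + 1) * (gr p.1 p.2
    * (‖z‖ ^ 2 * ‖Bt t p.1 p.2‖ ^ 2 - ⟪z, Bt t p.1 p.2⟫ ^ 2))) (by fun_prop) (fun a b x y => by
      simp only
      rw [normB_smul, gr_smul, Bt_smul, real_inner_smul_right]
      ring)
  refine h.congr (Filter.Eventually.of_forall fun p => ?_)
  simp only [K₂, gr]
  ring

lemma K₁_nonneg (B : E m →ₗ[ℝ] E m →ₗ[ℝ] E m) (z x y : E m) : 0 ≤ K₁ m B z x y := by
  unfold K₁
  positivity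

lemma K₂_nonneg (B : E m →ₗ[ℝ] E m →ₗ[ℝ] E m) (z x y : E m) : 0 ≤ K₂ m B z x y := by
  unfold K₂
  have h : ∀ u v : E m, 0 ≤ ‖u‖ ^ 2 * ‖v‖ ^ 2 - ⟪u, v⟫ ^ 2 := by
    intro u v
    have := abs_real_inner_le_norm u v
    have h2 : ⟪u, v⟫ ^ 2 ≤ (‖u‖ * ‖v‖) ^ 2 := by
      rw [← sq_abs ⟪u, v⟫]
      exact pow_le_pow_left₀ (abs_nonneg _) this 2
    nlinarith
  have := h x y
  have := h z (B x y)
  positivity

/-- the inequality in real form, for a unit vector -/
lemma unit_case (hm : Even m) (hm3 : 3 ≤ m) (h₁ : ∀ i j k, t i j k = -t j i k)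
    (h₂ : ∀ i j k, t i j k = -t i k j) (z : E m) (hz : ‖z‖ = 1) (B : Set (E m))
    (hB : MeasurableSet B) (cone : ∀ (c : ℝ) (v : E m), 0 < c → (c • v ∈ B ↔ v ∈ B)) :
    ∫ p : E m × E m, B.indicator 1 (Bt t p.1 p.2) * K₁ m (Bt t) z p.1 p.2 ∂(volume.prod volume)
      ≤ ∫ p : E m × E m, B.indicator 1 (Bt t p.1 p.2) * K₂ m (Bt t) z p.1 p.2
        ∂(volume.prod volume) := by
  have hpairs := pairs m hm3 (by simp) (Bt t) (Bt_alt h₁) (Bt_orth h₁ h₂)
    (fun y hy => Bt_ker hm h₁ h₂ y hy) z hz (fun Y => B.indicator 1 Y)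
    (measurable_one.indicator hB) (fun c Y hc => by
      by_cases h : Y ∈ B
      · rw [indicator_of_mem h, indicator_of_mem ((cone c Y hc).mpr h)]; rfl
      · rw [indicator_of_notMem h, indicator_of_notMem (fun h' => h ((cone c Y hc).mp h'))])
  have hS : MeasurableSet {p : E m × E m | Bt t p.1 p.2 ∈ B} := (contB (t := t)).measurable hB
  have conv : ∀ K : E m → E m → ℝ, (∀ x y, 0 ≤ K x y) →
      Integrable (fun p : E m × E m => K p.1 p.2) (volume.prod volume) →
      Measurable (fun p : E m × E m => K p.1 p.2) →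
      ENNReal.ofReal (∫ p : E m × E m, B.indicator 1 (Bt t p.1 p.2) * K p.1 p.2
        ∂(volume.prod volume))
      = ∫⁻ x : E m, ∫⁻ y : E m, ENNReal.ofReal (K x y) * B.indicator 1 (Bt t x y) := by
    intro K hK hint hmeas
    have e1 : (fun p : E m × E m => B.indicator 1 (Bt t p.1 p.2) * K p.1 p.2)
        = {p : E m × E m | Bt t p.1 p.2 ∈ B}.indicator (fun p => K p.1 p.2) := by
      funext p
      by_cases h : Bt t p.1 p.2 ∈ B
      · rw [indicator_of_mem h, indicator_of_mem (by exact h)]; simp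
      · rw [indicator_of_notMem h, indicator_of_notMem (by exact h)]; simp
    rw [ofReal_integral_eq_lintegral_ofReal]
    · rw [← lintegral_prod (fun p : E m × E m =>
        ENNReal.ofReal (K p.1 p.2) * B.indicator 1 (Bt t p.1 p.2))]
      · refine lintegral_congr fun p => ?_
        by_cases h : Bt t p.1 p.2 ∈ B
        · rw [indicator_of_mem h, indicator_of_mem h]; simp
        · rw [indicator_of_notMem h, indicator_of_notMem h]; simp
      · refine (Measurable.mul hmeas.ennreal_ofReal ?_).aemeasurable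
        exact (measurable_one.indicator hB).comp (contB (t := t)).measurable
    · rw [e1]
      exact hint.indicator hS
    · refine Filter.Eventually.of_forall fun p => ?_
      refine mul_nonneg ?_ (hK _ _)
      exact indicator_nonneg (fun _ _ => zero_le_one) _
  have hc1 : Measurable (fun p : E m × E m => K₁ m (Bt t) z p.1 p.2) := by
    have h1 := contB (t := t)
    have : Continuous (fun p : E m × E m => K₁ m (Bt t) z p.1 p.2) := by
      unfold K₁
      fun_prop
    exact this.measurable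
  have hc2 : Measurable (fun p : E m × E m => K₂ m (Bt t) z p.1 p.2) := by
    have h1 := contB (t := t)
    have : Continuous (fun p : E m × E m => K₂ m (Bt t) z p.1 p.2) := by
      unfold K₂
      fun_prop
    exact this.measurable
  have e1 := conv (K₁ m (Bt t) z) (K₁_nonneg _ z) (int_K₁ z) hc1
  have e2 := conv (K₂ m (Bt t) z) (K₂_nonneg _ z) (int_K₂ z) hc2
  rw [← e1, ← e2] at hpairs
  rwa [ENNReal.ofReal_le_ofReal_iff] at hpairs
  refine integral_nonneg fun p => mul_nonneg ?_ (K₂_nonneg _ _ _ _)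
  exact indicator_nonneg (fun _ _ => zero_le_one) _

end Pool.Agent.H91.OD
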