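import Mathlib

set_option autoImplicit false

/-! Piece K of project OC2. -/

namespace Pool.Agent.H91.OD

open scoped BigOperators
open Matrix (vecMulVec)

/-- Piece K -/
theorem exists_ker3 {m : ℕ} (hm : Even m) (t : Fin m → Fin m → Fin m → ℝ)
    (h₁ : ∀ i j k, t i j k = -t j i k) (h₂ : ∀ i j k, t i j k = -t i k j)
    (y : Fin m → ℝ) (hy : y ≠ 0) :
    ∃ v : Fin m → ℝ, ∑ i, v i * v i = 1 ∧ ∑ i, v i * y i = 0 ∧
      ∀ c, ∑ a, ∑ b, v a * y b * t a b c = 0 := by
  let A : Matrix (Fin m) (Fin m) ℝ := Matrix.of fun c a => ∑ b, y b * t a b c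
  have hA : ∀ c a, A c a = ∑ b, y b * t a b c := fun _ _ => rfl
  have hAt : A.transpose = -A := by
    ext a c
    rw [Matrix.transpose_apply, Matrix.neg_apply, hA, hA, ← Finset.sum_neg_distrib]
    refine Finset.sum_congr rfl fun b _ => ?_
    have e : t a b c = - t c b a := by
      rw [h₁ a b c, h₂ b a c, h₁ b c a]
      ring
    rw [e]; ring
  have hAy : Matrix.mulVec A y = 0 := by
    funext c
    have e : Matrix.mulVec A y c = ∑ a, ∑ b, y a * y b * t a b c := by
      simp only [Matrix.mulVec, dotProduct, hA, Finset.sum_mul]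
      refine Finset.sum_congr rfl fun a _ => Finset.sum_congr rfl fun b _ => ?_
      ring
    have e2 : ∑ a, ∑ b, y a * y b * t a b c = - ∑ a, ∑ b, y a * y b * t a b c := by
      conv_lhs => rw [Finset.sum_comm]
      rw [← Finset.sum_neg_distrib]
      refine Finset.sum_congr rfl fun a _ => ?_
      rw [← Finset.sum_neg_distrib]
      refine Finset.sum_congr rfl fun b _ => ?_
      rw [h₁ b a c]; ring
    rw [e, Pi.zero_apply]
    linarith
  have hs : 0 < dotProduct y y := by
    have h0 : 0 ≤ dotProduct y y := Finset.sum_nonneg fun i _ => mul_self_nonneg _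
    rcases h0.lt_or_eq with h | h
    · exact h
    · exact absurd (dotProduct_self_eq_zero.mp h.symm) hy
  set s := dotProduct y y with hsdef
  have hMy : Matrix.mulVec (A + vecMulVec y y) y = s • y := by
    rw [Matrix.add_mulVec, hAy, zero_add, Matrix.vecMulVec_mulVec]
    ext i
    simp [mul_comm, ← hsdef]
  have hMR : (A + vecMulVec y y) * (1 - (2 / s) • vecMulVec y y) = -(A + vecMulVec y y).transpose := by
    rw [Matrix.mul_sub, Matrix.mul_one, Matrix.mul_smul, Matrix.mul_vecMulVec, hMy,
      Matrix.smul_vecMulVec, smul_smul, div_mul_cancel₀ _ hs.ne', Matrix.transpose_add, hAt,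
      Matrix.transpose_vecMulVec, two_smul]
    abel
  have hR : (1 - (2 / s) • vecMulVec y y).det = -1 := by
    have h4 : (1 - (2 / s) • vecMulVec y y)
        = 1 + Matrix.replicateCol Unit ((-(2 / s)) • y) * Matrix.replicateRow Unit y := by
      rw [← Matrix.vecMulVec_eq Unit, Matrix.smul_vecMulVec, neg_smul, sub_eq_add_neg]
    rw [h4, Matrix.det_one_add_replicateCol_mul_replicateRow, dotProduct_smul, ← hsdef,
      smul_eq_mul, neg_mul, div_mul_cancel₀ _ hs.ne']
    norm_num
  have hdet : (A + vecMulVec y y).det = 0 := by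
    have h := congrArg Matrix.det hMR
    rw [Matrix.det_mul, hR, Matrix.det_neg, Fintype.card_fin, hm.neg_one_pow, one_mul,
      Matrix.det_transpose] at h
    linarith
  obtain ⟨v, hv0, hv⟩ := Matrix.exists_mulVec_eq_zero_iff.mpr hdet
  rw [Matrix.add_mulVec, Matrix.vecMulVec_mulVec] at hv
  have hyv : dotProduct y v = 0 := by
    have h := congrArg (dotProduct y) hv
    have e : dotProduct y (Matrix.mulVec A v) = 0 := by
      rw [Matrix.dotProduct_mulVec, ← Matrix.mulVec_transpose, hAt, Matrix.neg_mulVec, hAy, neg_zero,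
        zero_dotProduct]
    rw [dotProduct_add, e, zero_add, dotProduct_zero, op_smul_eq_smul, dotProduct_smul,
      smul_eq_mul, ← hsdef] at h
    rcases mul_eq_zero.mp h with h | h
    · exact h
    · exact absurd h hs.ne'
  have hAv : Matrix.mulVec A v = 0 := by
    rw [hyv, MulOpposite.op_zero, zero_smul, add_zero] at hv
    exact hv
  have hvv : 0 < dotProduct v v := by
    have h0 : 0 ≤ dotProduct v v := Finset.sum_nonneg fun i _ => mul_self_nonneg _
    rcases h0.lt_or_eq with h | h
    · exact h
    · exact absurd (dotProduct_self_eq_zero.mp h.symm) hv0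
  have hq : Real.sqrt (dotProduct v v) * Real.sqrt (dotProduct v v) = dotProduct v v :=
    Real.mul_self_sqrt hvv.le
  have hq0 : Real.sqrt (dotProduct v v) ≠ 0 := (Real.sqrt_pos.mpr hvv).ne'
  refine ⟨fun i => v i / Real.sqrt (dotProduct v v), ?_, ?_, ?_⟩
  · have e : ∀ i, v i / Real.sqrt (dotProduct v v) * (v i / Real.sqrt (dotProduct v v)) =
        v i * v i / dotProduct v v := by
      intro i
      rw [div_mul_div_comm, hq]
    simp only [e]
    rw [← Finset.sum_div]
    exact div_self hvv.ne'
  · have e : ∀ i, v i / Real.sqrt (dotProduct v v) * y i = y i * v i / Real.sqrt (dotProduct v v) := by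
      intro i; ring
    simp only [e]
    rw [← Finset.sum_div]
    have : ∑ i, y i * v i = 0 := hyv
    rw [this, zero_div]
  · intro c
    have e : ∀ a b, v a / Real.sqrt (dotProduct v v) * y b * t a b c =
        (y b * t a b c * v a) / Real.sqrt (dotProduct v v) := by
      intro a b; ring
    simp only [e]
    have e2 : ∑ a, ∑ b, y b * t a b c * v a = 0 := by
      have h := congrFun hAv c
      simp only [Matrix.mulVec, dotProduct, hA, Finset.sum_mul, Pi.zero_apply] at h
      exact h
    simp only [← Finset.sum_div]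
    rw [e2, zero_div]

end Pool.Agent.H91.OD
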