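import Pool.Agent.H91.OD.B
import Pool.Agent.H91.OD.C

set_option autoImplicit false

namespace Pool.Agent.H91.OD

open MeasureTheory Set Real
open scoped ENNReal RealInnerProductSpace

theorem kernel_ineq {U : Type*} [NormedAddCommGroup U] [InnerProductSpace ℝ U]
    [FiniteDimensional ℝ U] [MeasurableSpace U] [BorelSpace U]
    (D : ℕ) (hD : 2 ≤ D) (hU : Module.finrank ℝ U = D)
    (A : U →L[ℝ] U) (ν z : U) (hν : ‖ν‖ = 1) (hAν : A ν = 0) (hskew : ∀ x y, ⟪A x, y⟫ = -⟪x, A y⟫)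
    (f : U → ℝ≥0∞) (hf : Measurable f) (hom : ∀ (c : ℝ) (Y : U), 0 < c → f (c • Y) = f Y) :
    ∫⁻ x : U, ENNReal.ofReal (((D : ℝ) + 3)
        * (|⟪x, z⟫| * ‖A x‖ ^ 2 * ⟪x, z⟫ ^ 2 * exp (-‖x‖ ^ 2 / 2))) * f (A x)
      ≤ ∫⁻ x : U, ENNReal.ofReal (((D : ℝ) + 2)
        * (|⟪x, z⟫| * ‖x‖ ^ 2 * (‖z‖ ^ 2 * ‖A x‖ ^ 2 - ⟪z, A x⟫ ^ 2)
          * exp (-‖x‖ ^ 2 / 2))) * f (A x) :=
  kernel_ineq_of D hD hU (fun ξ η => halfplane D hD ξ η) A ν z hν hAν hskew f hf hom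

end Pool.Agent.H91.OD
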