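import Pool.Agent.H91.OC.Chain
import Pool.Agent.H91.OD.M

set_option autoImplicit false

/-! Gaussian moments of the functional of the three-form inequality. -/

namespace Pool.Agent.H91.OD

open Pool.Agent.H61.YP Pool.Agent.H8.RG Pool.Agent.H91.OC
open MeasureTheory Set Real
open scoped ENNReal RealInnerProductSpace BigOperators

variable {m : ℕ}

/-- `F` has Gaussian mean `v` -/
def HasG (F : E m → ℝ) (v : ℝ) : Prop :=
  (Integrable fun x : E m => F x * exp (-‖x‖ ^ 2 / 2)) ∧
    ∫ x : E m, F x * exp (-‖x‖ ^ 2 / 2) = Z m * v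

lemma HasG.congr {F G : E m → ℝ} {v u : ℝ} (h : HasG F v) (hF : ∀ x, G x = F x) (hv : u = v) :
    HasG G u := by
  have : G = F := funext hF
  subst this
  subst hv
  exact h

lemma HasG.mul_left {F : E m → ℝ} {v : ℝ} (c : ℝ) (h : HasG F v) :
    HasG (fun x => c * F x) (c * v) := by
  constructor
  · have := h.1.const_mul c
    simpa [mul_assoc] using this
  · have := h.2
    simp_rw [mul_assoc]
    rw [integral_const_mul, this]
    ring

lemma HasG.sum {ι : Type*} [Fintype ι] {F : ι → E m → ℝ} {v : ι → ℝ}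
    (h : ∀ i, HasG (F i) (v i)) : HasG (fun x => ∑ i, F i x) (∑ i, v i) := by
  constructor
  · have := integrable_finsetSum Finset.univ fun i _ => (h i).1
    simpa [Finset.sum_mul] using this
  · have := integral_finsetSum Finset.univ fun i _ => (h i).1
    simp_rw [Finset.sum_mul]
    rw [this, Finset.mul_sum]
    exact Finset.sum_congr rfl fun i _ => (h i).2

lemma HasG.sub {F G : E m → ℝ} {v u : ℝ} (hF : HasG F v) (hG : HasG G u) :
    HasG (fun x => F x - G x) (v - u) := by
  constructor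
  · have := hF.1.sub hG.1
    simp_rw [sub_mul]
    exact this
  · simp_rw [sub_mul]
    rw [integral_sub hF.1 hG.1, hF.2, hG.2]
    ring

lemma HasG.add {F G : E m → ℝ} {v u : ℝ} (hF : HasG F v) (hG : HasG G u) :
    HasG (fun x => F x + G x) (v + u) := by
  constructor
  · have := hF.1.add hG.1
    simp_rw [add_mul]
    exact this
  · simp_rw [add_mul]
    rw [integral_add hF.1 hG.1, hF.2, hG.2]
    ring

lemma HasG.quad (A N : Fin m → Fin m → ℝ) :
    HasG (fun x : E m => (∑ a, ∑ b, x a * x b * A a b) * (∑ c, ∑ d, x c * x d * N c d))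
      ((∑ a, A a a) * (∑ c, N c c) + ∑ a, ∑ b, A a b * (N a b + N b a)) :=
  gauss_mul m A N

section
variable (w : Fin m → Fin m → Fin m → Fin m → ℝ) (t : Fin m → Fin m → Fin m → ℝ)

/-- the Ricci part -/
noncomputable def RR : ℝ :=
  ∑ i, ∑ l, (∑ j, w i j j l) * ∑ a, ∑ b, t i a b * t l a b

noncomputable def qf (i j k l : Fin m) : ℝ := ∑ a, (t i j a * t l k a + t l j a * t i k a)

/-- the curvature part -/
noncomputable def QQ : ℝ :=
  ∑ i, ∑ j, ∑ k, ∑ l, w i j k l * qf t i j k l

/-- contraction of `t` with `y` in the second place -/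
noncomputable def uu (y : E m) (a i : Fin m) : ℝ := ∑ b, y b * t a b i

noncomputable def ss (y : E m) : ℝ := ∑ c, y c * y c

/-- `|x ∧ y|² tr q_Y` -/
noncomputable def P1 (x y : E m) : ℝ :=
  ∑ i, ∑ l, (∑ j, w i j j l) * ((∑ a, ∑ b, x a * x b * (uu t y a i * uu t y b l))
    * (∑ c, ∑ d, x c * x d * (ss y * dl c d - y c * y d)))

/-- `tr (q_Y G)` -/
noncomputable def P2 (x y : E m) : ℝ :=
  ∑ i, ∑ j, ∑ k, ∑ l, w i j k l * ((∑ a, ∑ b, x a * x b * (uu t y a i * uu t y b l))
    * (∑ c, ∑ d, x c * x d * (ss y * (dl c j * dl d k) + dl c d * (y j * y k)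
      - y c * (dl d j * y k) - y c * (dl d k * y j))))

noncomputable def V1 (y : E m) : ℝ :=
  ∑ i, ∑ l, (∑ j, w i j j l) * (((m : ℝ) + 1) * (ss y * ∑ a, uu t y a i * uu t y a l))

noncomputable def V2 (y : E m) : ℝ :=
  ∑ i, ∑ j, ∑ k, ∑ l, w i j k l * ((ss y * dl j k + (m : ℝ) * (y j * y k))
    * (∑ a, uu t y a i * uu t y a l)
    + ss y * (uu t y j i * uu t y k l + uu t y k i * uu t y j l))

variable {t} (h₁ : ∀ i j k, t i j k = -t j i k) (h₂ : ∀ i j k, t i j k = -t i k j)

include h₁ in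
lemma y_uu (y : E m) (i : Fin m) : ∑ a, y a * uu t y a i = 0 := by
  unfold uu
  have h : ∑ a, y a * ∑ b, y b * t a b i = -∑ a, y a * ∑ b, y b * t a b i := by
    conv_lhs =>
      simp only [Finset.mul_sum]
      rw [Finset.sum_comm]
    rw [← Finset.sum_neg_distrib]
    refine Finset.sum_congr rfl fun a _ => ?_
    rw [Finset.mul_sum, ← Finset.sum_neg_distrib]
    refine Finset.sum_congr rfl fun b _ => ?_
    rw [h₁ b a i]; ring
  linarith

lemma sum_dl (f : Fin m → ℝ) (j : Fin m) : ∑ c, dl c j * f c = f j := by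
  simp [dl]

lemma sum_dl' (f : Fin m → ℝ) (j : Fin m) : ∑ c, dl j c * f c = f j := by
  simp [dl]

include h₁ in
lemma hasG_P1 (y : E m) : HasG (fun x => P1 w t x y) (V1 w t y) := by
  unfold P1 V1
  refine HasG.sum fun i => HasG.sum fun l => HasG.mul_left _ ?_
  refine (HasG.quad _ _).congr (fun x => rfl) ?_
  have e1 : ∑ c : Fin m, (ss y * dl c c - y c * y c) = ((m : ℝ) - 1) * ss y := by
    rw [Finset.sum_sub_distrib, ← Finset.mul_sum]
    have : ∑ c : Fin m, dl c c = (m : ℝ) := by simp [dl]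
    rw [this]
    unfold ss
    ring
  have e2 : ∑ a, ∑ b, uu t y a i * uu t y b l
      * ((ss y * dl a b - y a * y b) + (ss y * dl b a - y b * y a))
      = 2 * (ss y * ∑ a, uu t y a i * uu t y a l) := by
    have e3 : ∀ a, ∑ b, uu t y a i * uu t y b l
      * ((ss y * dl a b - y a * y b) + (ss y * dl b a - y b * y a))
        = 2 * (ss y * (uu t y a i * uu t y a l))
          - 2 * (y a * uu t y a i) * ∑ b, y b * uu t y b l := by
      intro a
      have e4 : ∀ b, uu t y a i * uu t y b l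
        * ((ss y * dl a b - y a * y b) + (ss y * dl b a - y b * y a))
          = dl a b * (2 * ss y * (uu t y a i * uu t y b l))
            - 2 * (y a * uu t y a i) * (y b * uu t y b l) := by
        intro b
        have : dl b a = dl a b := by simp [dl, eq_comm]
        rw [this]; ring
      simp_rw [e4]
      rw [Finset.sum_sub_distrib, sum_dl', ← Finset.mul_sum]
      ring
    simp_rw [e3, y_uu h₁, mul_zero, sub_zero, ← Finset.mul_sum]
  rw [e1, e2]
  ring

include h₁ in
lemma hasG_P2 (y : E m) : HasG (fun x => P2 w t x y) (V2 w t y) := by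
  unfold P2 V2
  refine HasG.sum fun i => HasG.sum fun j => HasG.sum fun k => HasG.sum fun l =>
    HasG.mul_left _ ?_
  refine (HasG.quad _ _).congr (fun x => rfl) ?_
  have e0 : ∀ c d : Fin m, dl c d = dl d c := fun c d => by simp [dl, eq_comm]
  have e1 : ∑ c : Fin m, (ss y * (dl c j * dl c k) + dl c c * (y j * y k)
      - y c * (dl c j * y k) - y c * (dl c k * y j))
      = ss y * dl j k + ((m : ℝ) - 2) * (y j * y k) := by
    have h : ∀ c : Fin m, (ss y * (dl c j * dl c k) + dl c c * (y j * y k)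
      - y c * (dl c j * y k) - y c * (dl c k * y j))
        = dl c j * (ss y * dl c k) + dl c c * (y j * y k) - dl c j * (y c * y k)
          - dl c k * (y c * y j) := by
      intro c; ring
    simp_rw [h, Finset.sum_sub_distrib, Finset.sum_add_distrib, sum_dl]
    have : ∑ c : Fin m, dl c c * (y j * y k) = (m : ℝ) * (y j * y k) := by simp [dl]
    rw [this]
    ring
  have e2 : ∑ a, ∑ b, uu t y a i * uu t y b l
      * ((ss y * (dl a j * dl b k) + dl a b * (y j * y k)
      - y a * (dl b j * y k) - y a * (dl b k * y j))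
        + (ss y * (dl b j * dl a k) + dl b a * (y j * y k)
      - y b * (dl a j * y k) - y b * (dl a k * y j)))
      = ss y * (uu t y j i * uu t y k l + uu t y k i * uu t y j l)
        + 2 * (y j * y k) * ∑ a, uu t y a i * uu t y a l := by
    have e4 : ∀ a b, uu t y a i * uu t y b l
      * ((ss y * (dl a j * dl b k) + dl a b * (y j * y k)
      - y a * (dl b j * y k) - y a * (dl b k * y j))
        + (ss y * (dl b j * dl a k) + dl b a * (y j * y k)
      - y b * (dl a j * y k) - y b * (dl a k * y j)))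
        = dl b k * (ss y * (dl a j * (uu t y a i * uu t y b l)))
          + dl b j * (ss y * (dl a k * (uu t y a i * uu t y b l)))
          + dl a b * (2 * (y j * y k) * (uu t y a i * uu t y b l))
          - dl b j * ((y a * uu t y a i) * (y k * uu t y b l))
          - dl b k * ((y a * uu t y a i) * (y j * uu t y b l))
          - (dl a j * (uu t y a i * y k)) * (y b * uu t y b l)
          - (dl a k * (uu t y a i * y j)) * (y b * uu t y b l) := by
      intro a b
      rw [e0 b a]; ring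
    simp_rw [e4, Finset.sum_sub_distrib, Finset.sum_add_distrib, sum_dl, sum_dl',
      ← Finset.mul_sum, y_uu h₁, mul_zero, ← Finset.sum_mul, y_uu h₁, zero_mul,
      Finset.sum_const_zero, sub_zero, sum_dl]
    ring
  rw [e1, e2]
  ring

end

section
variable (w : Fin m → Fin m → Fin m → Fin m → ℝ) {t : Fin m → Fin m → Fin m → ℝ}
variable (h₁ : ∀ i j k, t i j k = -t j i k) (h₂ : ∀ i j k, t i j k = -t i k j)

lemma dl_comm' (c d : Fin m) : dl c d = dl d c := by simp [dl, eq_comm]

lemma ss_eq (y : E m) : ss y = ∑ c, ∑ d, y c * y d * dl c d := by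
  unfold ss
  refine Finset.sum_congr rfl fun c _ => ?_
  have : ∀ d, y c * y d * dl c d = dl c d * (y c * y d) := fun d => by ring
  simp_rw [this]
  rw [sum_dl']

lemma uu_mul (y : E m) (j k i l : Fin m) :
    uu t y j i * uu t y k l = ∑ b, ∑ b', y b * y b' * (t j b i * t k b' l) := by
  unfold uu
  rw [Finset.sum_mul_sum]
  refine Finset.sum_congr rfl fun b _ => Finset.sum_congr rfl fun b' _ => ?_
  ring

lemma uu_sum (y : E m) (i l : Fin m) :
    ∑ a, uu t y a i * uu t y a l = ∑ b, ∑ b', y b * y b' * ∑ a, t a b i * t a b' l := by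
  simp_rw [uu_mul, Finset.mul_sum]
  rw [Finset.sum_comm]
  refine Finset.sum_congr rfl fun b _ => ?_
  rw [Finset.sum_comm]

lemma yy_eq (y : E m) (j k : Fin m) :
    y j * y k = ∑ c, ∑ d, y c * y d * (dl c j * dl d k) := by
  have : ∀ c d, y c * y d * (dl c j * dl d k) = dl d k * (dl c j * (y c * y d)) :=
    fun c d => by ring
  simp_rw [this, sum_dl]

lemma hasG_ss (A : Fin m → Fin m → ℝ) :
    HasG (fun y : E m => ss y * ∑ b, ∑ b', y b * y b' * A b b') (((m : ℝ) + 2) * ∑ b, A b b) := by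
  refine (HasG.quad (m := m) dl A).congr (fun y => by rw [ss_eq]) ?_
  have e1 : ∑ a : Fin m, dl a a = (m : ℝ) := by simp [dl]
  have e2 : ∑ a : Fin m, ∑ b, dl a b * (A a b + A b a) = 2 * ∑ b, A b b := by
    simp_rw [sum_dl', ← two_mul, ← Finset.mul_sum]
  rw [e1, e2]
  ring

lemma hasG_yy (A : Fin m → Fin m → ℝ) (j k : Fin m) :
    HasG (fun y : E m => (y j * y k) * ∑ b, ∑ b', y b * y b' * A b b')
      (dl j k * (∑ b, A b b) + (A j k + A k j)) := by
  refine (HasG.quad (m := m) (fun c d => dl c j * dl d k) A).congr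
    (fun y => by rw [← yy_eq]) ?_
  have e1 : ∑ a : Fin m, dl a j * dl a k = dl j k := by rw [sum_dl]
  have e2 : ∑ a : Fin m, ∑ b, dl a j * dl b k * (A a b + A b a) = A j k + A k j := by
    have : ∀ a b, dl a j * dl b k * (A a b + A b a) = dl b k * (dl a j * (A a b + A b a)) :=
      fun a b => by ring
    simp_rw [this, sum_dl]
  rw [e1, e2]

lemma hasG_V1 : HasG (fun y => V1 w t y)
    (∑ i, ∑ l, (∑ j, w i j j l) * (((m : ℝ) + 1) * (((m : ℝ) + 2) * ∑ b, ∑ a, t a b i * t a b l))) := by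
  unfold V1
  refine HasG.sum fun i => HasG.sum fun l => HasG.mul_left _ (HasG.mul_left _ ?_)
  exact (hasG_ss fun b b' => ∑ a, t a b i * t a b' l).congr (fun y => by rw [uu_sum]) rfl

lemma hasG_V2 : HasG (fun y => V2 w t y)
    (∑ i, ∑ j, ∑ k, ∑ l, w i j k l * ((dl j k * (((m : ℝ) + 2) * ∑ b, ∑ a, t a b i * t a b l)
      + (m : ℝ) * (dl j k * (∑ b, ∑ a, t a b i * t a b l)
        + (∑ a, t a j i * t a k l + ∑ a, t a k i * t a j l)))
      + (((m : ℝ) + 2) * (∑ b, t j b i * t k b l) + ((m : ℝ) + 2) * (∑ b, t k b i * t j b l)))) := by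
  unfold V2
  refine HasG.sum fun i => HasG.sum fun j => HasG.sum fun k => HasG.sum fun l =>
    HasG.mul_left _ ?_
  have g1 := (hasG_ss fun b b' => ∑ a, t a b i * t a b' l).mul_left (dl j k)
  have g2 := (hasG_yy (fun b b' => ∑ a, t a b i * t a b' l) j k).mul_left (m : ℝ)
  have g3 := hasG_ss fun b b' => t j b i * t k b' l
  have g4 := hasG_ss fun b b' => t k b i * t j b' l
  refine ((g1.add g2).add (g3.add g4)).congr (fun y => ?_) rfl
  rw [← uu_sum, ← uu_mul, ← uu_mul]
  ring

include h₁ h₂ in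
lemma V1_val : ∑ i, ∑ l, (∑ j, w i j j l)
      * (((m : ℝ) + 1) * (((m : ℝ) + 2) * ∑ b, ∑ a, t a b i * t a b l))
    = ((m : ℝ) + 1) * ((m : ℝ) + 2) * RR w t := by
  unfold RR
  simp_rw [Finset.mul_sum]
  refine Finset.sum_congr rfl fun i _ => Finset.sum_congr rfl fun l _ => ?_
  rw [Finset.sum_comm]
  refine Finset.sum_congr rfl fun a _ => Finset.sum_congr rfl fun b _ => ?_
  rw [h₂ a b i, h₁ a i b, h₂ a b l, h₁ a l b]
  ring

include h₁ h₂ in
lemma V2_val : ∑ i, ∑ j, ∑ k, ∑ l, w i j k l * ((dl j k * (((m : ℝ) + 2) * ∑ b, ∑ a, t a b i * t a b l)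
      + (m : ℝ) * (dl j k * (∑ b, ∑ a, t a b i * t a b l)
        + (∑ a, t a j i * t a k l + ∑ a, t a k i * t a j l)))
      + (((m : ℝ) + 2) * (∑ b, t j b i * t k b l) + ((m : ℝ) + 2) * (∑ b, t k b i * t j b l)))
    = 2 * ((m : ℝ) + 1) * (RR w t + QQ w t) := by
  have e1 : ∀ i l, ∑ b, ∑ a, t a b i * t a b l = ∑ a, ∑ b, t i a b * t l a b := by
    intro i l
    rw [Finset.sum_comm]
    refine Finset.sum_congr rfl fun a _ => Finset.sum_congr rfl fun b _ => ?_
    rw [h₂ a b i, h₁ a i b, h₂ a b l, h₁ a l b]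
    ring
  have e2 : ∀ i j k l, ∑ a, t a j i * t a k l = ∑ a, t i j a * t l k a := by
    intro i j k l
    refine Finset.sum_congr rfl fun a _ => ?_
    rw [h₁ a j i, h₂ j a i, h₁ j i a, h₁ a k l, h₂ k a l, h₁ k l a]
    ring
  have e3 : ∀ i j k l, ∑ b, t j b i * t k b l = ∑ a, t i j a * t l k a := by
    intro i j k l
    refine Finset.sum_congr rfl fun a _ => ?_
    rw [h₂ j a i, h₁ j i a, h₂ k a l, h₁ k l a]
    ring
  have e4 : ∀ i j k l, w i j k l * ((dl j k * (((m : ℝ) + 2) * ∑ b, ∑ a, t a b i * t a b l)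
      + (m : ℝ) * (dl j k * (∑ b, ∑ a, t a b i * t a b l)
        + (∑ a, t a j i * t a k l + ∑ a, t a k i * t a j l)))
      + (((m : ℝ) + 2) * (∑ b, t j b i * t k b l) + ((m : ℝ) + 2) * (∑ b, t k b i * t j b l)))
      = 2 * ((m : ℝ) + 1) * (dl j k * (w i j k l * ∑ a, ∑ b, t i a b * t l a b))
        + 2 * ((m : ℝ) + 1) * (w i j k l * qf t i j k l) := by
    intro i j k l
    unfold qf
    rw [e1, e2, e3, e2 i k j l, e3 i k j l, Finset.sum_add_distrib]
    have : ∑ a, t i k a * t l j a = ∑ a, t l j a * t i k a :=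
      Finset.sum_congr rfl fun a _ => mul_comm _ _
    rw [this]
    ring
  simp_rw [e4, Finset.sum_add_distrib, ← Finset.mul_sum]
  unfold RR QQ
  have e5 : ∑ i, ∑ j, ∑ k, ∑ l, dl j k * (w i j k l * ∑ a, ∑ b, t i a b * t l a b)
      = ∑ i, ∑ l, (∑ j, w i j j l) * ∑ a, ∑ b, t i a b * t l a b := by
    refine Finset.sum_congr rfl fun i _ => ?_
    simp_rw [Finset.sum_mul]
    rw [Finset.sum_comm]
    have : ∀ k, ∑ j, ∑ l, dl j k * (w i j k l * ∑ a, ∑ b, t i a b * t l a b)
        = ∑ l, w i k k l * ∑ a, ∑ b, t i a b * t l a b := by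
      intro k
      rw [Finset.sum_comm]
      refine Finset.sum_congr rfl fun l _ => ?_
      rw [sum_dl]
    simp_rw [this]
    rw [Finset.sum_comm]
  simp only [← Finset.mul_sum] at e5 ⊢
  rw [← e5]
  ring

end

end Pool.Agent.H91.OD
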