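import Pool.Agent.H91.OD.G
import Pool.Agent.H91.OD.D

set_option autoImplicit false

/-! The inequality for all pairs, in `lintegral` form. -/

namespace Pool.Agent.H91.OD

open MeasureTheory Set Real
open scoped ENNReal RealInnerProductSpace

variable {V : Type*} [NormedAddCommGroup V] [InnerProductSpace ℝ V] [FiniteDimensional ℝ V]
  [MeasurableSpace V] [BorelSpace V]

lemma B_anti {B : V →ₗ[ℝ] V →ₗ[ℝ] V} (alt : ∀ x, B x x = 0) (x y : V) : B x y = -B y x := by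
  have h := alt (x + y)
  simp only [map_add, LinearMap.add_apply, alt, zero_add, add_zero] at h
  exact eq_neg_of_add_eq_zero_right h

lemma B_rot {B : V →ₗ[ℝ] V →ₗ[ℝ] V} (alt : ∀ x, B x x = 0) (a : ℝ) (x y : V) :
    B (cos a • x + sin a • y) (-(sin a) • x + cos a • y) = B x y := by
  simp only [map_add, map_smul, LinearMap.add_apply, LinearMap.smul_apply, alt, smul_zero,
    zero_add, add_zero]
  rw [B_anti alt y x]
  have e : B x y = (cos a ^ 2 + sin a ^ 2) • B x y := by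
    rw [cos_sq_add_sin_sq, one_smul]
  conv_rhs => rw [e]
  module

lemma norm_rot (a : ℝ) (x y : V) :
    ‖cos a • x + sin a • y‖ ^ 2 + ‖-(sin a) • x + cos a • y‖ ^ 2 = ‖x‖ ^ 2 + ‖y‖ ^ 2 := by
  rw [← real_inner_self_eq_norm_sq, ← real_inner_self_eq_norm_sq, ← real_inner_self_eq_norm_sq,
    ← real_inner_self_eq_norm_sq]
  simp only [inner_add_left, inner_add_right, inner_smul_left, inner_smul_right,
    RCLike.conj_to_real, real_inner_comm x y]
  linear_combination (⟪x, x⟫ + ⟪y, y⟫) * cos_sq_add_sin_sq a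

lemma gram_rot (a : ℝ) (x y : V) :
    ‖cos a • x + sin a • y‖ ^ 2 * ‖-(sin a) • x + cos a • y‖ ^ 2
      - ⟪cos a • x + sin a • y, -(sin a) • x + cos a • y⟫ ^ 2
      = ‖x‖ ^ 2 * ‖y‖ ^ 2 - ⟪x, y⟫ ^ 2 := by
  rw [← real_inner_self_eq_norm_sq, ← real_inner_self_eq_norm_sq, ← real_inner_self_eq_norm_sq,
    ← real_inner_self_eq_norm_sq]
  simp only [inner_add_left, inner_add_right, inner_smul_left, inner_smul_right,
    RCLike.conj_to_real, real_inner_comm x y]
  have h := cos_sq_add_sin_sq a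
  linear_combination (⟪x, x⟫ * ⟪y, y⟫ - ⟪x, y⟫ ^ 2) * (cos a ^ 2 + sin a ^ 2 + 1) * h

lemma vec_rot (a : ℝ) (x y z : V) :
    ⟪cos a • x + sin a • y, z⟫ • (-(sin a) • x + cos a • y)
      - ⟪-(sin a) • x + cos a • y, z⟫ • (cos a • x + sin a • y)
      = ⟪x, z⟫ • y - ⟪y, z⟫ • x := by
  simp only [inner_add_left, inner_smul_left, RCLike.conj_to_real]
  have h := cos_sq_add_sin_sq a
  have e : ⟪x, z⟫ • y - ⟪y, z⟫ • x
      = (cos a ^ 2 + sin a ^ 2) • (⟪x, z⟫ • y - ⟪y, z⟫ • x) := by rw [h, one_smul]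
  rw [e]
  module

lemma K₁_rot {m : ℕ} {B : V →ₗ[ℝ] V →ₗ[ℝ] V} (alt : ∀ x, B x x = 0) (z : V) (a : ℝ) (x y : V) :
    K₁ m B z (cos a • x + sin a • y) (-(sin a) • x + cos a • y) = K₁ m B z x y := by
  unfold K₁
  rw [B_rot alt, vec_rot, norm_rot]

lemma K₂_rot {m : ℕ} {B : V →ₗ[ℝ] V →ₗ[ℝ] V} (alt : ∀ x, B x x = 0) (z : V) (a : ℝ) (x y : V) :
    K₂ m B z (cos a • x + sin a • y) (-(sin a) • x + cos a • y) = K₂ m B z x y := by
  unfold K₂
  rw [B_rot alt, gram_rot, norm_rot]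

lemma B_cont (B : V →ₗ[ℝ] V →ₗ[ℝ] V) : Continuous fun p : V × V => B p.1 p.2 := by
  have h : Continuous fun p : V × V =>
      (LinearMap.toContinuousLinearMap ((LinearMap.toContinuousLinearMap :
        (V →ₗ[ℝ] V) ≃ₗ[ℝ] (V →L[ℝ] V)).toLinearMap.comp B)) p.1 p.2 := by
    fun_prop
  exact h

/-- the inequality for pairs -/
theorem pairs (m : ℕ) (hm : 3 ≤ m) (hV : Module.finrank ℝ V = m) (B : V →ₗ[ℝ] V →ₗ[ℝ] V)
    (alt : ∀ x, B x x = 0) (orth : ∀ x y, ⟪B x y, x⟫ = 0)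
    (ker : ∀ y : V, y ≠ 0 → ∃ ν : V, ‖ν‖ = 1 ∧ ⟪ν, y⟫ = 0 ∧ B ν y = 0)
    (z : V) (hz : ‖z‖ = 1)
    (f : V → ℝ≥0∞) (hf : Measurable f) (hom : ∀ (c : ℝ) (Y : V), 0 < c → f (c • Y) = f Y) :
    ∫⁻ x : V, ∫⁻ y : V, ENNReal.ofReal (K₁ m B z x y) * f (B x y)
      ≤ ∫⁻ x : V, ∫⁻ y : V, ENNReal.ofReal (K₂ m B z x y) * f (B x y) := by
  have hB := B_cont B
  have hfB : Measurable fun p : V × V => f (B p.1 p.2) := hf.comp hB.measurable
  refine rot z hz (fun x y => ENNReal.ofReal (K₁ m B z x y) * f (B x y))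
    (fun x y => ENNReal.ofReal (K₂ m B z x y) * f (B x y)) ?_ ?_ ?_ ?_ ?_
  · refine Measurable.mul (Measurable.ennreal_ofReal ?_) hfB
    have : Continuous fun p : V × V => K₁ m B z p.1 p.2 := by
      unfold K₁
      fun_prop
    exact this.measurable
  · refine Measurable.mul (Measurable.ennreal_ofReal ?_) hfB
    have : Continuous fun p : V × V => K₂ m B z p.1 p.2 := by
      unfold K₂
      fun_prop
    exact this.measurable
  · intro a x y
    show ENNReal.ofReal (K₁ m B z _ _) * f (B _ _) = _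
    rw [K₁_rot alt, B_rot alt]
  · intro a x y
    show ENNReal.ofReal (K₂ m B z _ _) * f (B _ _) = _
    rw [K₂_rot alt, B_rot alt]
  · intro y hyz
    by_cases hy : y = 0
    · subst hy
      have : ∀ x, ENNReal.ofReal |⟪x, z⟫| * (ENNReal.ofReal (K₁ m B z x 0) * f (B x 0)) = 0 := by
        intro x
        have : K₁ m B z x 0 = 0 := by
          unfold K₁
          simp
        rw [this, ENNReal.ofReal_zero, zero_mul, mul_zero]
      simp only [this, lintegral_zero]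
      simp
    · obtain ⟨ν, h1, h2, h3⟩ := ker y hy
      exact slice m hm hV B alt orth z y ν hyz hy h1 h2 h3 f hf hom

end Pool.Agent.H91.OD
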