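import Pool.Agent.H91.OD.Mom
import Pool.Agent.H91.OD.Pairs
import Pool.Agent.H91.OD.E
import Pool.Agent.H91.OD.K

set_option autoImplicit false

/-! The three-form inequality on `ℝᵐ`, `m` even, in components. -/

namespace Pool.Agent.H91.OD

open Pool.Agent.H61.YP Pool.Agent.H8.RG Pool.Agent.H91.OC
open MeasureTheory Set Real
open scoped ENNReal RealInnerProductSpace BigOperators

variable {m : ℕ}

lemma inner_coord (x y : E m) : ⟪x, y⟫ = ∑ a, x a * y a := by
  rw [PiLp.inner_apply]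
  refine Finset.sum_congr rfl fun a _ => ?_
  simp [mul_comm]

lemma norm_coord (x : E m) : ‖x‖ ^ 2 = ∑ a, x a * x a := by
  rw [norm_sq]
  exact Finset.sum_congr rfl fun a _ => by ring

lemma uu_add (t : Fin m → Fin m → Fin m → ℝ) (y y' : E m) (a i : Fin m) :
    uu t (y + y') a i = uu t y a i + uu t y' a i := by
  unfold uu
  rw [← Finset.sum_add_distrib]
  refine Finset.sum_congr rfl fun b _ => ?_
  simp only [PiLp.add_apply]
  ring

lemma uu_smul (t : Fin m → Fin m → Fin m → ℝ) (c : ℝ) (y : E m) (a i : Fin m) :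
    uu t (c • y) a i = c * uu t y a i := by
  unfold uu
  rw [Finset.mul_sum]
  refine Finset.sum_congr rfl fun b _ => ?_
  simp only [PiLp.smul_apply, smul_eq_mul]
  ring

/-- the vector valued bilinear map of a three-form -/
noncomputable def Bt (t : Fin m → Fin m → Fin m → ℝ) : E m →ₗ[ℝ] E m →ₗ[ℝ] E m :=
  LinearMap.mk₂ ℝ (fun x y => WithLp.toLp 2 fun c => ∑ a, x a * uu t y a c)
    (fun x x' y => by
      ext c
      simp only [PiLp.add_apply]
      rw [← Finset.sum_add_distrib]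
      exact Finset.sum_congr rfl fun a _ => by ring)
    (fun c x y => by
      ext d
      simp only [PiLp.smul_apply, smul_eq_mul]
      rw [Finset.mul_sum]
      exact Finset.sum_congr rfl fun a _ => by ring)
    (fun x y y' => by
      ext c
      simp only [PiLp.add_apply, uu_add]
      rw [← Finset.sum_add_distrib]
      exact Finset.sum_congr rfl fun a _ => by ring)
    (fun c x y => by
      ext d
      simp only [PiLp.smul_apply, smul_eq_mul, uu_smul]
      rw [Finset.mul_sum]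
      exact Finset.sum_congr rfl fun a _ => by ring)

lemma Bt_apply (t : Fin m → Fin m → Fin m → ℝ) (x y : E m) (c : Fin m) :
    Bt t x y c = ∑ a, x a * uu t y a c := rfl

variable {t : Fin m → Fin m → Fin m → ℝ}

lemma Bt_alt (h₁ : ∀ i j k, t i j k = -t j i k) (x : E m) : Bt t x x = 0 := by
  ext c
  rw [Bt_apply, y_uu h₁]
  rfl

lemma Bt_orth (h₁ : ∀ i j k, t i j k = -t j i k) (h₂ : ∀ i j k, t i j k = -t i k j) (x y : E m) :
    ⟪Bt t x y, x⟫ = 0 := by
  rw [inner_coord]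
  simp only [Bt_apply]
  have h : ∑ c, (∑ a, x a * uu t y a c) * x c = -∑ c, (∑ a, x a * uu t y a c) * x c := by
    conv_lhs =>
      simp only [Finset.sum_mul]
      rw [Finset.sum_comm]
    rw [← Finset.sum_neg_distrib]
    refine Finset.sum_congr rfl fun a _ => ?_
    rw [Finset.sum_mul, ← Finset.sum_neg_distrib]
    refine Finset.sum_congr rfl fun c _ => ?_
    have e : uu t y a c = -uu t y c a := by
      unfold uu
      rw [← Finset.sum_neg_distrib]
      refine Finset.sum_congr rfl fun b _ => ?_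
      rw [h₁ a b c, h₂ b a c, h₁ b c a]; ring
    rw [e]; ring
  linarith

lemma Bt_ker (hm : Even m) (h₁ : ∀ i j k, t i j k = -t j i k)
    (h₂ : ∀ i j k, t i j k = -t i k j) (y : E m) (hy : y ≠ 0) :
    ∃ ν : E m, ‖ν‖ = 1 ∧ ⟪ν, y⟫ = 0 ∧ Bt t ν y = 0 := by
  obtain ⟨v, hv1, hv2, hv3⟩ := exists_ker3 hm t h₁ h₂ (fun i => y i) (fun h => hy (by
    ext i
    exact congrFun h i))
  refine ⟨WithLp.toLp 2 v, ?_, ?_, ?_⟩
  · have h : ‖(WithLp.toLp 2 v : E m)‖ ^ 2 = 1 := by
      rw [norm_coord]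
      exact hv1
    nlinarith [norm_nonneg (WithLp.toLp 2 v : E m), h]
  · rw [inner_coord]
    exact hv2
  · ext c
    rw [Bt_apply]
    have := hv3 c
    unfold uu
    simp only [Finset.mul_sum]
    change _ = (0 : ℝ)
    rw [← this]
    refine Finset.sum_congr rfl fun a _ => Finset.sum_congr rfl fun b _ => ?_
    simp only
    ring

/-- `|x|²|y|² - ⟨x,y⟩²` -/
noncomputable def gr (x y : E m) : ℝ := ‖x‖ ^ 2 * ‖y‖ ^ 2 - ⟪x, y⟫ ^ 2

/-- `|x ∧ y|² P` -/
noncomputable def GG (x y : E m) (j k : Fin m) : ℝ :=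
  ‖y‖ ^ 2 * (x j * x k) + ‖x‖ ^ 2 * (y j * y k) - ⟪x, y⟫ * (x j * y k + x k * y j)

/-- the polynomial part of the matrix -/
noncomputable def S0 (t : Fin m → Fin m → Fin m → ℝ) (x y : E m) (j k : Fin m) : ℝ :=
  ((m : ℝ) + 1) * (gr x y * (‖Bt t x y‖ ^ 2 * dl j k - Bt t x y j * Bt t x y k))
    - ((m : ℝ) + 2) * (‖Bt t x y‖ ^ 2 * GG x y j k)

lemma sum_dl2 (z : Fin m → ℝ) : ∑ j, ∑ k, z j * z k * dl j k = ∑ j, z j * z j := by
  refine Finset.sum_congr rfl fun j _ => ?_
  have : ∀ k, z j * z k * dl j k = dl j k * (z j * z k) := fun k => by ring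
  simp_rw [this, sum_dl']

lemma sum_prod (z u v : Fin m → ℝ) :
    ∑ j, ∑ k, z j * z k * (u j * v k) = (∑ j, z j * u j) * ∑ k, z k * v k := by
  rw [Finset.sum_mul_sum]
  exact Finset.sum_congr rfl fun j _ => Finset.sum_congr rfl fun k _ => by ring

lemma GG_sum (x y z : E m) :
    ∑ j, ∑ k, z j * z k * GG x y j k = ‖⟪x, z⟫ • y - ⟪y, z⟫ • x‖ ^ 2 := by
  have e1 : ∀ j k, z j * z k * GG x y j k = ‖y‖ ^ 2 * (z j * z k * (x j * x k))
      + ‖x‖ ^ 2 * (z j * z k * (y j * y k)) - ⟪x, y⟫ * (z j * z k * (x j * y k))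
      - ⟪x, y⟫ * (z j * z k * (y j * x k)) := by
    intro j k
    unfold GG
    ring
  simp_rw [e1, Finset.sum_sub_distrib, Finset.sum_add_distrib, ← Finset.mul_sum]
  rw [sum_prod, sum_prod, sum_prod, sum_prod]
  have e2 : ∀ u : E m, ∑ j, z j * u j = ⟪u, z⟫ := by
    intro u
    rw [inner_coord]
    exact Finset.sum_congr rfl fun j _ => mul_comm _ _
  rw [e2, e2, ← real_inner_self_eq_norm_sq (⟪x, z⟫ • y - ⟪y, z⟫ • x)]
  simp only [inner_sub_left, inner_sub_right, inner_smul_left, inner_smul_right,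
    RCLike.conj_to_real, real_inner_self_eq_norm_sq, real_inner_comm x y]
  ring

/-- the matrix tested with `z` -/
lemma S0_sum (x y z : E m) :
    (∑ j, ∑ k, z j * z k * S0 t x y j k) * exp (-(‖x‖ ^ 2 + ‖y‖ ^ 2) / 2)
      = K₂ m (Bt t) z x y - K₁ m (Bt t) z x y := by
  have e1 : ∀ j k, z j * z k * S0 t x y j k
      = (((m : ℝ) + 1) * gr x y * ‖Bt t x y‖ ^ 2) * (z j * z k * dl j k)
        - (((m : ℝ) + 1) * gr x y) * (z j * z k * (Bt t x y j * Bt t x y k))
        - (((m : ℝ) + 2) * ‖Bt t x y‖ ^ 2) * (z j * z k * GG x y j k) := by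
    intro j k
    unfold S0
    ring
  simp_rw [e1, Finset.sum_sub_distrib, ← Finset.mul_sum]
  rw [sum_dl2, GG_sum, sum_prod, ← norm_coord z]
  have e2 : ∑ j, z j * Bt t x y j = ⟪z, Bt t x y⟫ := by rw [inner_coord]
  rw [e2]
  unfold K₁ K₂ gr
  ring

end Pool.Agent.H91.OD
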